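import Mathlib

/-! # MP_ae599a_gt (AG35): the definitions used in the statement

Target theorem: a length space `X` whose Rips graph has first integral cohomology of finite rank at
some scale `ρ` (for example every coarsely simply connected length space) and in which some
`n × n` grid is not an asymptotic minor has asymptotic dimension at most `1`.
-/

namespace AG35

open Set

/-- `X` is a length space: the distance of two points is the infimum of the lengths of the paths
between them. -/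
def IsLengthSpace (X : Type*) [MetricSpace X] : Prop :=
  ∀ (x y : X) (ε : ℝ), 0 < ε →
    ∃ γ : Path x y, eVariationOn γ Set.univ ≤ ENNReal.ofReal (dist x y + ε)

/-- the graph `H` is a `K`-fat minor of `X` -/
def IsFatMinor {V : Type*} (H : SimpleGraph V) (K : ℝ) (X : Type*) [MetricSpace X] : Prop :=
  ∃ (B : V → Set X) (P : Sym2 V → Set X),
    (∀ v, IsPathConnected (B v)) ∧
    (∀ u v, H.Adj u v → ∃ (a b : X) (γ : Path a b), a ∈ B u ∧ b ∈ B v ∧ range γ = P s(u, v)) ∧
    (∀ u v, u ≠ v → ∀ x ∈ B u, ∀ y ∈ B v, K ≤ dist x y) ∧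
    (∀ e ∈ H.edgeSet, ∀ v, v ∉ e → ∀ x ∈ P e, ∀ y ∈ B v, K ≤ dist x y) ∧
    (∀ e ∈ H.edgeSet, ∀ f ∈ H.edgeSet, e ≠ f → ∀ x ∈ P e, ∀ y ∈ P f, K ≤ dist x y)

/-- `H` is an asymptotic minor of `X` -/
def IsAsymptoticMinor {V : Type*} (H : SimpleGraph V) (X : Type*) [MetricSpace X] : Prop :=
  ∀ K : ℝ, 0 < K → IsFatMinor H K X

/-- the `n × n` grid -/
def gridGraph (n : ℕ) : SimpleGraph (Fin n × Fin n) :=
  (SimpleGraph.pathGraph n).boxProd (SimpleGraph.pathGraph n)

/-- asymptotic dimension at most `d` -/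
def AsdimLE (d : ℕ) (X : Type*) [MetricSpace X] : Prop :=
  ∀ r : ℝ, 0 < r → ∃ (D : ℝ) (𝒰 : Set (Set X)), ⋃₀ 𝒰 = Set.univ ∧
    (∀ U ∈ 𝒰, ∀ x ∈ U, ∀ y ∈ U, dist x y ≤ D) ∧
    ∀ x : X, {U ∈ 𝒰 | (U ∩ Metric.closedBall x r).Nonempty}.encard ≤ d + 1

/-- integral `1`-cocycles of the Rips complex at scale `ρ`: functions on the pairs of points at
distance at most `ρ` that are additive on all triples of points at mutual distance at most `ρ` -/
def IsCocycle {X : Type*} [MetricSpace X] (ρ : ℝ) (z : X → X → ℤ) : Prop :=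
  ∀ a b c : X, dist a b ≤ ρ → dist b c ≤ ρ → dist a c ≤ ρ → z a c = z a b + z b c

/-- coboundaries of the Rips complex at scale `ρ` -/
def IsCob {X : Type*} [MetricSpace X] (ρ : ℝ) (z : X → X → ℤ) : Prop :=
  ∃ f : X → ℤ, ∀ a b : X, dist a b ≤ ρ → z a b = f b - f a

/-- the first integral cohomology of the Rips complex at scale `ρ` has finite rank: for some `m`,
any `m + 1` cocycles are linearly dependent modulo coboundaries -/
def H1FiniteRank (ρ : ℝ) (X : Type*) [MetricSpace X] : Prop :=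
  ∃ m : ℕ, ∀ z : Fin (m + 1) → X → X → ℤ, (∀ i, IsCocycle ρ (z i)) →
    ∃ c : Fin (m + 1) → ℤ, c ≠ 0 ∧ IsCob ρ (fun a b => ∑ i, c i * z i a b)

end AG35
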