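import Pool.Agent.AG35.Geo1

/-! # AG35.Geo2 : hulls, radial chains, splitting a near geodesic

`hull`: `T = S ∪ ⋃ (a ∈ S) (b ∈ S) (dist a b ≤ J), range (γ a b)` where `γ a b` is the path of
`near_geo` with `ε = 1`. A point `z = γ a b s` satisfies (take `s = t`)
`dist a z + dist z b ≤ J + 1`, so one of the two distances is `≤ (J+1)/2 ≤ J/2+1`. Points of `S`
are joined in `T` by induction on the link; a point of `range (γ a b)` is joined to `a` inside the
range.

`exists_radial`: let `γ` be the path of `near_geo` from `m` to `p` with `ε = 1`. For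
`i ≤ dist m p` let `τ i` be the first time (`sInf`) with `dist m (γ t) ≥ i`; by continuity
`dist m (γ (τ i)) = i`, and `τ` is monotone in `i`. Put `c i = γ (τ i)`. For `i ≤ j`:
`dist m (c i) + dist (c i) (c j) + dist (c j) p ≤ dist m p + 1` and
`dist (c j) p ≥ dist m p - j`, so `dist (c i) (c j) ≤ j - i + 1`; with `i = j`:
`dist (c i) p ≤ dist m p + 1 - i`.

`split_path`: the path of `near_geo` from `y` to `t`, `ε = 1`, the first time `τ` with
`dist y (γ τ) = q` (exists since `dist y y = 0 ≤ q ≤ dist y t`); `P = γ '' [0,τ]`,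
`E = γ '' [τ,1]`. On `P` we have `dist y z ≤ q` by minimality of `τ`, on `E`:
`q + dist (γ τ) (γ s) + dist (γ s) t ≤ dist y t + 1`.
-/

namespace AG35

open Set

variable {X : Type*} [MetricSpace X]

theorem hull (hX : IsLengthSpace X) {S : Set X} {J : ℝ} (hJ : 0 ≤ J) (hS : S.Nonempty)
    (hL : IsLinked S J) :
    ∃ T : Set X, IsPathConnected T ∧ S ⊆ T ∧ ∀ z ∈ T, ∃ y ∈ S, dist z y ≤ J / 2 + 1 := by
  have hI : PathConnectedSpace unitInterval := isPathConnected_iff_pathConnectedSpace.1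
    ((convex_Icc (0 : ℝ) 1).isPathConnected ⟨0, le_rfl, zero_le_one⟩)
  choose γ hγ using fun a b : X => near_geo hX a b (one_pos : (0 : ℝ) < 1)
  obtain ⟨T, hT⟩ : ∃ T : Set X, T = S ∪ {z | ∃ a ∈ S, ∃ b ∈ S, dist a b ≤ J ∧ z ∈ range (γ a b)} :=
    ⟨_, rfl⟩
  have hST : S ⊆ T := by
    rw [hT]
    exact subset_union_left
  have hrange : ∀ a ∈ S, ∀ b ∈ S, dist a b ≤ J → range (γ a b) ⊆ T := by
    intro a ha b hb hab z hz
    rw [hT]
    exact Or.inr ⟨a, ha, b, hb, hab, hz⟩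
  have hjoin : ∀ a ∈ S, ∀ b ∈ S, dist a b ≤ J → ∀ z ∈ range (γ a b), JoinedIn T a z := by
    intro a ha b hb hab z hz
    have hpc : IsPathConnected (range (γ a b)) := isPathConnected_range (γ a b).continuous
    exact (hpc.joinedIn a ⟨0, (γ a b).source⟩ z hz).mono (hrange a ha b hb hab)
  have hlink : ∀ x ∈ S, ∀ y, Link S J x y → JoinedIn T x y := by
    intro x hx y h
    induction h with
    | refl => exact JoinedIn.refl (hST hx)
    | @tail b c _ hbc ih =>
      exact ih.trans (hjoin b hbc.1 c hbc.2.1 hbc.2.2 c ⟨1, (γ b c).target⟩)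
  refine ⟨T, ?_, hST, ?_⟩
  · obtain ⟨x₀, hx₀⟩ := hS
    refine ⟨x₀, hST hx₀, ?_⟩
    intro z hz
    rw [hT] at hz
    rcases hz with hz | ⟨a, ha, b, hb, hab, hz⟩
    · exact hlink x₀ hx₀ z (hL x₀ hx₀ z hz)
    · exact (hlink x₀ hx₀ a (hL x₀ hx₀ a ha)).trans (hjoin a ha b hb hab z hz)
  · intro z hz
    rw [hT] at hz
    rcases hz with hz | ⟨a, ha, b, hb, hab, s, rfl⟩
    · refine ⟨z, hz, ?_⟩
      rw [dist_self]
      linarith
    · have h := hγ a b s s le_rfl
      rw [dist_self] at h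
      rcases le_total (dist a (γ a b s)) (dist (γ a b s) b) with h1 | h1
      · refine ⟨a, ha, ?_⟩
        rw [dist_comm]
        linarith
      · refine ⟨b, hb, ?_⟩
        linarith

/-- The first time at which a path is at distance `q` from its starting point. -/
private theorem geo2_first_hit {x y : X} (γ : Path x y) {q : ℝ} (hq : 0 ≤ q) (hq' : q ≤ dist x y) :
    ∃ τ : unitInterval, dist x (γ τ) = q ∧ (∀ t : unitInterval, q ≤ dist x (γ t) → τ ≤ t) ∧
      ∀ t : unitInterval, t ≤ τ → dist x (γ t) ≤ q := by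
  have hcont : Continuous (fun t : unitInterval => dist x (γ t)) := by fun_prop
  have hclosed : IsClosed {t : unitInterval | q ≤ dist x (γ t)} :=
    isClosed_le continuous_const hcont
  have hne : {t : unitInterval | q ≤ dist x (γ t)}.Nonempty := by
    refine ⟨1, ?_⟩
    show q ≤ dist x (γ 1)
    rw [γ.target]
    exact hq'
  obtain ⟨τ, hτ⟩ := hclosed.isCompact.exists_isLeast hne
  have hτ1 : q ≤ dist x (γ τ) := hτ.1
  have hτ2 : ∀ t : unitInterval, q ≤ dist x (γ t) → τ ≤ t := fun t ht => hτ.2 ht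
  have hτ3 : ∀ t : unitInterval, t < τ → dist x (γ t) < q := by
    intro t ht
    by_contra hn
    push Not at hn
    exact absurd (hτ2 t hn) (not_le.2 ht)
  have hτ4 : dist x (γ τ) ≤ q := by
    rcases eq_or_lt_of_le (unitInterval.nonneg' (t := τ)) with h0 | h0
    · rw [← h0, γ.source, dist_self]
      exact hq
    · -- approximate from the left
      have hcont' : Continuous (fun s : ℝ => dist x (γ.extend s)) := by fun_prop
      have hcl : (τ : ℝ) ∈ closure (Ico (0 : ℝ) τ) := by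
        rw [closure_Ico (ne_of_lt (show (0 : ℝ) < τ from h0))]
        exact ⟨τ.2.1, le_rfl⟩
      have hsub : Ico (0 : ℝ) τ ⊆ {s : ℝ | dist x (γ.extend s) ≤ q} := by
        intro s hs
        have hs1 : s ∈ unitInterval := ⟨hs.1, hs.2.le.trans τ.2.2⟩
        show dist x (γ.extend s) ≤ q
        rw [Path.extend_apply γ hs1]
        exact (hτ3 ⟨s, hs1⟩ hs.2).le
      have h := closure_minimal hsub (isClosed_le hcont' continuous_const) hcl
      have h' : dist x (γ.extend τ) ≤ q := h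
      rw [Path.extend_apply γ τ.2] at h'
      exact h'
  refine ⟨τ, le_antisymm hτ4 hτ1, hτ2, ?_⟩
  intro t ht
  rcases eq_or_lt_of_le ht with h | h
  · rw [h]
    exact hτ4
  · exact (hτ3 t h).le

theorem exists_radial (hX : IsLengthSpace X) (m p : X) : ∃ c : ℕ → X, Radial m p c := by
  classical
  obtain ⟨γ, hγ⟩ := near_geo hX m p (one_pos : (0 : ℝ) < 1)
  have hex : ∀ i : ℕ, ∃ τ : unitInterval, (i : ℝ) ≤ dist m p →
      dist m (γ τ) = i ∧ ∀ t : unitInterval, (i : ℝ) ≤ dist m (γ t) → τ ≤ t := by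
    intro i
    by_cases h : (i : ℝ) ≤ dist m p
    · obtain ⟨τ, h1, h2, -⟩ := geo2_first_hit γ (Nat.cast_nonneg i) h
      exact ⟨τ, fun _ => ⟨h1, h2⟩⟩
    · exact ⟨0, fun h' => absurd h' h⟩
  choose τ hτ using hex
  have htail : ∀ i : ℕ, (i : ℝ) ≤ dist m p → dist (γ (τ i)) p ≤ dist m p - i + 1 := by
    intro i hi
    have h := hγ (τ i) (τ i) le_rfl
    rw [dist_self, (hτ i hi).1] at h
    linarith
  refine ⟨fun i => γ (τ i), fun i hi => (hτ i hi).1, ?_, htail⟩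
  intro i j hij hj
  have hi : (i : ℝ) ≤ dist m p := le_trans (by exact_mod_cast hij) hj
  have hle : τ i ≤ τ j := by
    apply (hτ i hi).2
    rw [(hτ j hj).1]
    exact_mod_cast hij
  have h := hγ (τ i) (τ j) hle
  rw [(hτ i hi).1] at h
  have h2 := dist_triangle m (γ (τ j)) p
  rw [(hτ j hj).1] at h2
  linarith

theorem split_path (hX : IsLengthSpace X) {t y : X} {q : ℝ} (hq : 0 ≤ q) (hq' : q ≤ dist t y) :
    ∃ P E : Set X, IsPathConnected P ∧ IsPathConnected E ∧ y ∈ P ∧ t ∈ E ∧ (P ∩ E).Nonempty ∧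
      (∀ z ∈ P, dist y z ≤ q) ∧ ∀ z ∈ E, dist t z ≤ dist t y + 1 - q := by
  obtain ⟨γ, hγ⟩ := near_geo hX y t (one_pos : (0 : ℝ) < 1)
  obtain ⟨τ, h1, h2, h3⟩ := geo2_first_hit γ hq (by rw [dist_comm]; exact hq')
  have hcont : Continuous γ.extend := γ.continuous_extend
  have hτ0 : (0 : ℝ) ≤ τ := τ.2.1
  have hτ1 : (τ : ℝ) ≤ 1 := τ.2.2
  refine ⟨γ.extend '' Icc (0 : ℝ) τ, γ.extend '' Icc (τ : ℝ) 1,
    ((convex_Icc _ _).isPathConnected ⟨0, le_rfl, hτ0⟩).image hcont,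
    ((convex_Icc _ _).isPathConnected ⟨1, hτ1, le_rfl⟩).image hcont,
    ⟨0, ⟨le_rfl, hτ0⟩, by simp⟩, ⟨1, ⟨hτ1, le_rfl⟩, by simp⟩,
    ⟨γ.extend τ, ⟨τ, ⟨hτ0, le_rfl⟩, rfl⟩, ⟨τ, ⟨le_rfl, hτ1⟩, rfl⟩⟩, ?_, ?_⟩
  · rintro z ⟨s, hs, rfl⟩
    have hs1 : s ∈ unitInterval := ⟨hs.1, hs.2.trans hτ1⟩
    rw [Path.extend_apply γ hs1]
    exact h3 ⟨s, hs1⟩ hs.2
  · rintro z ⟨s, hs, rfl⟩
    have hs1 : s ∈ unitInterval := ⟨hτ0.trans hs.1, hs.2⟩
    rw [Path.extend_apply γ hs1]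
    have h := hγ τ ⟨s, hs1⟩ hs.1
    rw [h1] at h
    have h4 : 0 ≤ dist (γ τ) (γ ⟨s, hs1⟩) := dist_nonneg
    rw [dist_comm t, dist_comm t y]
    linarith

end AG35
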