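import Pool.Agent.AG35.AsmDefs
import Pool.Agent.AG35.Geo2

/-! # AG35.Asm1 : from grid data and row models to the metric facts

`interval_hull`: the set `{c i | i0 ≤ i ≤ i1}` is linked with step `2` (consecutive points have
distance `≤ 2`), apply `hull` with `J = 2` (`J/2 + 1 = 2`).

`exists_asmData`: `t j k = c k (S0 + j W)`. `I j k` = the interval hull of `c k` for
`S0 + j W - a0 ≤ i ≤ S0 + j W + a0` (`a0 ≤ S0`, `a0 ≤ W`), `Q j k` = the interval hull for
`S0 + j W + a0 ≤ i ≤ S0 + (j+1) W - a0` (use `choose`, arbitrary sets outside the range of indices).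
`Ipt`: `dist (t j k) (c k i) ≤ a0 + 1` by `colD`, plus `2`. `EIpc`: `E j k` and `I j k` share `t j k`
(`IsPathConnected.union`). `Csh`, `Psh`: `Cnear`/`Pnear` and `rowS`. `Cout`, `Pout`: the row model with
`a = 2 a0`. `Qlo`, `Qhi`: `colR` and `2`. `Qt`, `QQ`: `GridData.far` (indices between `S0 - a0` and
`S0 + M W`) and `2`, `4`. `tfar`: `far`.
-/

namespace AG35

open Set

variable {X : Type*} [MetricSpace X]

theorem interval_hull (hX : IsLengthSpace X) (c : ℕ → X) {i0 i1 : ℕ} (h01 : i0 ≤ i1)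
    (hc : ∀ i i' : ℕ, i ≤ i' → i' ≤ i1 → dist (c i) (c i') ≤ ((i' : ℝ) - i) + 1) :
    ∃ T : Set X, IsPathConnected T ∧ (∀ i, i0 ≤ i → i ≤ i1 → c i ∈ T) ∧
      ∀ z ∈ T, ∃ i, i0 ≤ i ∧ i ≤ i1 ∧ dist z (c i) ≤ 2 := by
  let S : Set X := {x | ∃ i, i0 ≤ i ∧ i ≤ i1 ∧ x = c i}
  have hup : ∀ i, i0 ≤ i → i ≤ i1 → Link S 2 (c i0) (c i) := by
    intro i hi
    induction i, hi using Nat.le_induction with
    | base => exact fun _ => Link.refl S 2 _
    | succ n hn ih =>
      intro hn1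
      refine Link.trans (ih (by omega)) (Link.single ⟨n, hn, by omega, rfl⟩
        ⟨n + 1, by omega, hn1, rfl⟩ ?_)
      have := hc n (n + 1) (by omega) hn1
      push_cast at this
      linarith
  have hL : IsLinked S 2 := by
    rintro x ⟨i, hi, hi1, rfl⟩ y ⟨i', hi', hi1', rfl⟩
    exact Link.trans (Link.symm (hup i hi hi1)) (hup i' hi' hi1')
  obtain ⟨T, hT, hST, hnear⟩ := hull hX (J := 2) (by norm_num)
    (S := S) ⟨c i0, i0, le_rfl, h01, rfl⟩ hL
  refine ⟨T, hT, fun i hi hi1 => hST ⟨i, hi, hi1, rfl⟩, fun z hz => ?_⟩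
  obtain ⟨y, ⟨i, hi, hi1, rfl⟩, hd⟩ := hnear z hz
  exact ⟨i, hi, hi1, by linarith⟩

theorem exists_asmData (hX : IsLengthSpace X) {m : X} {K h ρ L : ℝ} {N M a0 W S0 : ℕ}
    {Y : ℕ → Set X} {c : ℕ → ℕ → X} (hd : GridData m ρ N M a0 W S0 L Y c)
    (hK : 0 ≤ K) (hh : 0 ≤ h) (hρ : 2 ≤ ρ) (ha0 : h + K + ρ + 10 ≤ a0)
    (hW : 2 * (2 * (a0 : ℝ) + h + ρ) + K + 10 ≤ W) (hL : 8 * (a0 : ℝ) + 4 * h + K + 10 ≤ L)
    (hS0 : a0 ≤ S0) {𝓜 : ℕ → Finset (Finset ℕ)} {C : ℕ → Finset ℕ → Set X}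
    {E : ℕ → ℕ → Set X} {P : ℕ → ℕ → Finset ℕ → Set X}
    (hr : ∀ j < M, RowModel (Y j) N (fun k => c k (S0 + j * W)) K (2 * a0) h (𝓜 j) (C j) (E j)
      (P j)) :
    ∃ I Q : ℕ → ℕ → Set X,
      AsmData m K h ρ L N M a0 W S0 (fun j k => c k (S0 + j * W)) 𝓜 C E I Q P := by
  classical
  have hW2 : 2 * a0 ≤ W := by
    have : 2 * (a0 : ℝ) ≤ (W : ℝ) := by
      have h0 : (0 : ℝ) ≤ a0 := Nat.cast_nonneg a0
      linarith
    exact_mod_cast this
  have hjW : ∀ j < M, j * W + W ≤ M * W := by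
    intro j hj
    calc j * W + W = (j + 1) * W := by ring
      _ ≤ M * W := Nat.mul_le_mul_right W hj
  -- the hulls
  have hI : ∀ j k, ∃ T : Set X, j < M → k < N → IsPathConnected T ∧
      (∀ i, S0 + j * W - a0 ≤ i → i ≤ S0 + j * W + a0 → c k i ∈ T) ∧
      ∀ z ∈ T, ∃ i, S0 + j * W - a0 ≤ i ∧ i ≤ S0 + j * W + a0 ∧ dist z (c k i) ≤ 2 := by
    intro j k
    by_cases hjk : j < M ∧ k < N
    · have h1 := hjW j hjk.1
      obtain ⟨T, hT⟩ := interval_hull hX (c k) (i0 := S0 + j * W - a0) (i1 := S0 + j * W + a0)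
        (by omega) (fun i i' hi hi' => hd.colD k hjk.2 i i' hi (by omega))
      exact ⟨T, fun _ _ => hT⟩
    · exact ⟨∅, fun h1 h2 => absurd ⟨h1, h2⟩ hjk⟩
  have hQ : ∀ j k, ∃ T : Set X, j + 1 < M → k < N → IsPathConnected T ∧
      (∀ i, S0 + j * W + a0 ≤ i → i ≤ S0 + j * W + W - a0 → c k i ∈ T) ∧
      ∀ z ∈ T, ∃ i, S0 + j * W + a0 ≤ i ∧ i ≤ S0 + j * W + W - a0 ∧ dist z (c k i) ≤ 2 := by
    intro j k
    by_cases hjk : j + 1 < M ∧ k < N
    · have h1 := hjW j (by omega)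
      obtain ⟨T, hT⟩ := interval_hull hX (c k) (i0 := S0 + j * W + a0)
        (i1 := S0 + j * W + W - a0)
        (by omega) (fun i i' hi hi' => hd.colD k hjk.2 i i' hi (by omega))
      exact ⟨T, fun _ _ => hT⟩
    · exact ⟨∅, fun h1 h2 => absurd ⟨h1, h2⟩ hjk⟩
  choose I hI using hI
  choose Q hQ using hQ
  have hmem : ∀ j < M, ∀ k < N, c k (S0 + j * W) ∈ I j k := by
    intro j hj k hk
    exact (hI j k hj hk).2.1 _ (by omega) (by omega)
  have hnear : ∀ j < M, ∀ y ∈ Y j, ∀ z : X, dist z y ≤ h →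
      |dist m z - (S0 + j * W)| ≤ ρ + h := by
    intro j hj y hy z hz
    have h1 := hd.rowS j hj y hy
    push_cast at h1
    rw [abs_le] at h1 ⊢
    have h2 := dist_triangle m z y
    have h3 := dist_triangle m y z
    rw [dist_comm y z] at h3
    constructor <;> linarith [h1.1, h1.2]
  -- a point of `Q j k`
  have hQpt : ∀ j, j + 1 < M → ∀ k < N, ∀ z ∈ Q j k, ∃ i : ℕ, S0 + j * W + a0 ≤ i ∧
      i + a0 ≤ S0 + j * W + W ∧ i ≤ S0 + M * W ∧ dist z (c k i) ≤ 2 ∧ dist m (c k i) = i := by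
    intro j hj k hk z hz
    obtain ⟨i, hi, hi1, hz2⟩ := (hQ j k hj hk).2.2 z hz
    have h1 := hjW j (by omega)
    exact ⟨i, hi, by omega, by omega, hz2, hd.colR k hk i (by omega)⟩
  refine ⟨I, Q, ?_⟩
  constructor
  · exact hK
  · exact hh
  · exact hρ
  · exact ha0
  · exact hW
  · exact hL
  · exact fun j hj => (hr j hj).sub
  · intro j hj k hk
    have h1 := hjW j hj
    have h2 := hd.colR k hk (S0 + j * W) (by omega)
    rw [h2]
    push_cast
    ring
  · intro j hj j' hj' k hk l hl hkl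
    have h1 := hjW j hj
    have h2 := hjW j' hj'
    exact hd.far k hk l hl hkl _ _ (by omega) (by omega) (by omega) (by omega)
  · exact fun j hj => (hr j hj).Cpc
  · intro j hj k hk
    exact IsPathConnected.union ((hr j hj).Epc k hk) (hI j k hj hk).1
      ⟨c k (S0 + j * W), (hr j hj).Et k hk, hmem j hj k hk⟩
  · exact fun j hj => (hr j hj).Ppc
  · exact fun j hj k hk => (hQ j k hj hk).1
  · exact fun j hj => (hr j hj).PE
  · exact fun j hj => (hr j hj).PC
  · intro j hj k hk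
    exact ⟨c k (S0 + j * W + a0), (hQ j k hj hk).2.1 _ le_rfl (by omega),
      (hI j k (by omega) hk).2.1 _ (by omega) le_rfl⟩
  · intro j hj k hk
    have h1 : (j + 1) * W = j * W + W := by ring
    refine ⟨c k (S0 + j * W + W - a0), (hQ j k hj hk).2.1 _ (by omega) le_rfl,
      (hI (j + 1) k hj hk).2.1 _ ?_ ?_⟩ <;> rw [h1] <;> omega
  · exact fun j hj k hk z hz => (hr j hj).Ein k hk z hz
  · intro j hj k hk z hz
    obtain ⟨i, hi, hi1, hz2⟩ := (hI j k hj hk).2.2 z hz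
    have h1 := hjW j hj
    show dist (c k (S0 + j * W)) z ≤ a0 + 3
    have h3 : dist (c k (S0 + j * W)) (c k i) ≤ a0 + 1 := by
      rcases le_total i (S0 + j * W) with hle | hle
      · have h4 := hd.colD k hk i (S0 + j * W) hle (by omega)
        rw [dist_comm]
        have h5 : ((S0 + j * W : ℕ) : ℝ) ≤ i + a0 := by
          have : S0 + j * W ≤ i + a0 := by omega
          exact_mod_cast this
        linarith
      · have h4 := hd.colD k hk (S0 + j * W) i hle (by omega)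
        have h5 : (i : ℝ) ≤ ((S0 + j * W : ℕ) : ℝ) + a0 := by
          exact_mod_cast hi1
        linarith
    have h4 := dist_triangle (c k (S0 + j * W)) (c k i) z
    rw [dist_comm (c k i) z] at h4
    linarith
  · intro j hj S hS z hz
    obtain ⟨y, hy, hzy⟩ := (hr j hj).Cnear S hS z hz
    exact hnear j hj y hy z hzy
  · exact fun j hj S hS z hz k hk => (hr j hj).Cout S hS z hz k hk
  · intro j hj S hS k hk z hz
    obtain ⟨y, hy, hzy⟩ := (hr j hj).Pnear S hS k hk z hz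
    exact hnear j hj y hy z hzy
  · exact fun j hj S hS k hk z hz => (hr j hj).Pout S hS k hk z hz
  · intro j hj k hk z hz
    obtain ⟨i, hi, hi1, hi2, hz2, hm⟩ := hQpt j hj k hk z hz
    have h1 : ((S0 : ℝ) + j * W + a0) ≤ i := by exact_mod_cast hi
    have h2 := dist_triangle m z (c k i)
    linarith
  · intro j hj k hk z hz
    obtain ⟨i, hi, hi1, hi2, hz2, hm⟩ := hQpt j hj k hk z hz
    have h1 : (i : ℝ) + a0 ≤ ((S0 : ℝ) + j * W + W) := by exact_mod_cast hi1
    have h2 := dist_triangle m (c k i) z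
    rw [dist_comm (c k i) z] at h2
    linarith
  · intro j hj k hk z hz j' hj' l hl hkl
    obtain ⟨i, hi, hi1, hi2, hz2, hm⟩ := hQpt j hj k hk z hz
    have h1 := hjW j' hj'
    have h3 := hd.far l hl k hk (Ne.symm hkl) (S0 + j' * W) i (by omega) (by omega) (by omega) hi2
    have h4 := dist_triangle (c l (S0 + j' * W)) z (c k i)
    show L - 2 ≤ dist (c l (S0 + j' * W)) z
    linarith
  · intro j hj j' hj' k hk l hl hkl z hz z' hz'
    obtain ⟨i, hi, hi1, hi2, hz2, hm⟩ := hQpt j hj k hk z hz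
    obtain ⟨i', hi', hi1', hi2', hz2', hm'⟩ := hQpt j' hj' l hl z' hz'
    have h3 := hd.far k hk l hl hkl i i' (by omega) hi2 (by omega) hi2'
    have h4 := dist_triangle4 (c k i) z z' (c l i')
    rw [dist_comm (c k i) z] at h4
    linarith
  · exact fun j hj => (hr j hj).Cfar
  · exact fun j hj => (hr j hj).ECfar
  · exact fun j hj => (hr j hj).PCfar
  · exact fun j hj => (hr j hj).PPfar

end AG35
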