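import Pool.Agent.AG35.AsmDefs

/-! # AG35.Asm2 : distances between branch sets

Position facts: a point of `asmB (j, inl k) = E j k ∪ I j k` is within `2 a0` of `t j k`, hence has height
`dist m z` within `2 a0` of `S0 + j W`; a point of `C j S` has height within `ρ + h` of `S0 + j W`.
* different rows `j ≠ j'`: heights differ by at least `W - 2 (2 a0 + h + ρ) ≥ K`;
* `(j, inl k)`, `(j, inl l)`, `k ≠ l`: `L - 4 a0 ≥ K`;
* `(j, inl k)`, `(j, inr S)`: `ECfar` for `E`; for `I`: `Cout` and `Ipt` give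
`2 a0 - h - (a0 + 3) ≥ K`;
* `(j, inr S)`, `(j, inr S')`: `Cfar`.

`B_height` (every point of the branch set at `v` has height within `2 a0 + h + ρ` of the row) may be
useful; it is also used for `Asm3`.
-/

namespace AG35

open Set

variable {X : Type*} [MetricSpace X] {m : X} {K h ρ L : ℝ} {N M a0 W S0 : ℕ} {t : ℕ → ℕ → X}
  {𝓜 : ℕ → Finset (Finset ℕ)} {C : ℕ → Finset ℕ → Set X} {E I Q : ℕ → ℕ → Set X}
  {P : ℕ → ℕ → Finset ℕ → Set X}

theorem Asm2_abs (m z z' : X) : |dist m z - dist m z'| ≤ dist z z' := by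
  rw [dist_comm m z, dist_comm m z']
  exact abs_dist_sub_le z z' m

/-- distance of a point of a ball branch set from the crossing point -/
theorem Asm2_pt (H : AsmData m K h ρ L N M a0 W S0 t 𝓜 C E I Q P) {j k : ℕ} (hj : j < M)
    (hk : k < N) {z : X} (hz : z ∈ E j k ∪ I j k) : dist (t j k) z ≤ 2 * a0 := by
  rcases hz with hz | hz
  · exact H.Ept j hj k hk z hz
  · have h1 := H.Ipt j hj k hk z hz
    have h2 := H.ha0
    have h3 := H.hK
    have h4 := H.hh
    have h5 := H.hρ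
    linarith

theorem B_height (H : AsmData m K h ρ L N M a0 W S0 t 𝓜 C E I Q P)
    {v : ℕ × (ℕ ⊕ Finset ℕ)} (hv : v ∈ incDom N M 𝓜) {z : X} (hz : z ∈ asmB C E I v) :
    |dist m z - (S0 + v.1 * W)| ≤ 2 * a0 := by
  obtain ⟨j, v2⟩ := v
  obtain ⟨hj, hv2⟩ := hv
  rcases hv2 with ⟨k, hk, rfl⟩ | ⟨S, hS, rfl⟩
  · have h1 : dist (t j k) z ≤ 2 * a0 := Asm2_pt H hj hk hz
    have h2 := H.th j hj k hk
    have h3 : |dist m z - dist m (t j k)| ≤ dist (t j k) z := by
      rw [dist_comm (t j k) z]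
      exact Asm2_abs m z (t j k)
    rw [h2] at h3
    exact h3.trans h1
  · have h1 := H.Csh j hj S hS z hz
    have h2 := H.ha0
    have h3 := H.hK
    have h4 := H.hh
    have h5 := H.hρ
    have h6 : (0 : ℝ) ≤ a0 := Nat.cast_nonneg _
    refine h1.trans ?_
    linarith

/-- two points in the zones of different rows are far apart -/
theorem rows_far (H : AsmData m K h ρ L N M a0 W S0 t 𝓜 C E I Q P) {j j' : ℕ} (hj : j ≠ j')
    {z z' : X} (hz : |dist m z - (S0 + j * W)| ≤ 2 * a0 + h + ρ)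
    (hz' : |dist m z' - (S0 + j' * W)| ≤ 2 * a0 + h + ρ) : K ≤ dist z z' := by
  have hW := H.hW
  have hd : |dist m z - dist m z'| ≤ dist z z' := Asm2_abs m z z'
  have hW0 : (0 : ℝ) ≤ W := Nat.cast_nonneg _
  rw [abs_le] at hz hz' hd
  rcases lt_or_gt_of_ne hj with hlt | hlt
  · have h1 : (j : ℝ) + 1 ≤ j' := by exact_mod_cast hlt
    have h2 : ((j : ℝ) + 1) * W ≤ j' * W := mul_le_mul_of_nonneg_right h1 hW0
    linarith [hz.2, hz'.1, hd.1]
  · have h1 : (j' : ℝ) + 1 ≤ j := by exact_mod_cast hlt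
    have h2 : ((j' : ℝ) + 1) * W ≤ j * W := mul_le_mul_of_nonneg_right h1 hW0
    linarith [hz.1, hz'.2, hd.2]

private theorem Asm2_ballHub (H : AsmData m K h ρ L N M a0 W S0 t 𝓜 C E I Q P) {j k : ℕ}
    (hj : j < M) (hk : k < N) {S : Finset ℕ} (hS : S ∈ 𝓜 j) {x y : X} (hx : x ∈ E j k ∪ I j k)
    (hy : y ∈ C j S) : K ≤ dist x y := by
  rcases hx with hx | hx
  · exact H.ECfar j hj k hk S hS x hx y hy
  · have h1 := H.Ipt j hj k hk x hx
    have h2 := H.Cout j hj S hS y hy k hk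
    have h3 := dist_triangle (t j k) x y
    have h4 := H.ha0
    have h5 := H.hρ
    linarith

theorem asm_BB (H : AsmData m K h ρ L N M a0 W S0 t 𝓜 C E I Q P) :
    ∀ u ∈ incDom N M 𝓜, ∀ v ∈ incDom N M 𝓜, u ≠ v →
      ∀ x ∈ asmB C E I u, ∀ y ∈ asmB C E I v, K ≤ dist x y := by
  intro u hu v hv huv x hx y hy
  have hh := H.hh
  have hρ := H.hρ
  by_cases hrow : u.1 = v.1
  · obtain ⟨j, u2⟩ := u
    obtain ⟨j', v2⟩ := v
    simp only at hrow
    subst hrow
    obtain ⟨hj, hu2⟩ := hu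
    obtain ⟨_, hv2⟩ := hv
    simp only at hj hu2 hv2
    rcases hu2 with ⟨k, hk, rfl⟩ | ⟨S, hS, rfl⟩ <;> rcases hv2 with ⟨l, hl, rfl⟩ | ⟨S', hS', rfl⟩
    · have hkl : k ≠ l := fun e => huv (by rw [e])
      have h1 : dist (t j k) x ≤ 2 * a0 := Asm2_pt H hj hk hx
      have h2 : dist (t j l) y ≤ 2 * a0 := Asm2_pt H hj hl hy
      have h3 := H.tfar j hj j hj k hk l hl hkl
      have h4 : dist (t j k) (t j l) ≤ dist (t j k) x + dist x y + dist y (t j l) :=
        dist_triangle4 _ _ _ _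
      rw [dist_comm y] at h4
      have h5 := H.hL
      have h6 : (0 : ℝ) ≤ a0 := Nat.cast_nonneg _
      linarith
    · exact Asm2_ballHub H hj hk hS' hx hy
    · rw [dist_comm]
      exact Asm2_ballHub H hj hl hS hy hx
    · have hSS : S ≠ S' := fun e => huv (by rw [e])
      exact H.Cfar j hj S hS S' hS' hSS x hx y hy
  · exact rows_far H hrow ((B_height H hu hx).trans (by linarith))
      ((B_height H hv hy).trans (by linarith))

end AG35
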