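import Pool.Agent.AG35.Asm2

/-! # AG35.Asm3 : distances between connectors and branch sets

`rowP_B`: a connector `P j k S` (`k ∈ S ∈ 𝓜 j`) and the branch set at `w ≠ (j, inl k), (j, inr S)`:
* `w` in another row: `rows_far` (`Psh`, `B_height`);
* `w = (j, inl l)`, `l ≠ k`: `L - (2 a0 + h) - 2 a0 ≥ K` (`tfar`, `Pout`, `Ept`, `Ipt`);
* `w = (j, inr S')`, `S' ≠ S`: `PCfar`.

`colQ_B`: a column part `Q j k` (`j + 1 < M`) and the branch set at
`w ≠ (j, inl k), (j + 1, inl k)`: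
* `w = (j', inl l)`, `l ≠ k`, any row: `Qt` and `2 a0`: `L - 2 - 2 a0 ≥ K`;
* `w = (j', inl k)`, `j' ≠ j, j + 1`: by heights (`Qlo`, `Qhi`, `B_height`):
  `j' < j`: gap `≥ W + a0 - 2 - 2 a0`; `j' > j + 1`: gap `≥ W + a0 - 2 - 2 a0`; both `≥ K` by `hW`;
* `w = (j', inr S)`: heights of `C j' S` are within `ρ + h` of `S0 + j' W`, those of `Q j k` between
  `S0 + j W + a0 - 2` and `S0 + (j+1) W - a0 + 2`: gap `≥ a0 - 2 - ρ - h ≥ K` in all cases
  (`j' ≤ j` or `j' ≥ j + 1`).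

`asm_PB`: unfold `incGraph` adjacency, `asmP` is symmetric (`asmP_symm`).
-/

namespace AG35

open Set

variable {X : Type*} [MetricSpace X] {m : X} {K h ρ L : ℝ} {N M a0 W S0 : ℕ} {t : ℕ → ℕ → X}
  {𝓜 : ℕ → Finset (Finset ℕ)} {C : ℕ → Finset ℕ → Set X} {E I Q : ℕ → ℕ → Set X}
  {P : ℕ → ℕ → Finset ℕ → Set X}

omit [MetricSpace X] in
theorem asmP_symm (P : ℕ → ℕ → Finset ℕ → Set X) (Q : ℕ → ℕ → Set X)
    (u v : ℕ × (ℕ ⊕ Finset ℕ)) : asmP P Q u v = asmP P Q v u := by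
  obtain ⟨j, k | S⟩ := u <;> obtain ⟨j', k' | S'⟩ := v
  · simp only [asmP, min_comm]
  · rfl
  · rfl
  · rfl

/-- points in zones of close heights with a gap are far apart -/
private theorem gap_far {m z z' : X} {a b c : ℝ} (hz : dist m z ≤ a) (hz' : b ≤ dist m z')
    (h : c + a ≤ b) : c ≤ dist z z' := by
  have := dist_triangle m z z'
  linarith

private theorem row_lt {j j' W : ℕ} (h : j < j') : (j : ℝ) * W + W ≤ (j' : ℝ) * W := by
  have h1 : ((j + 1 : ℕ) : ℝ) ≤ (j' : ℝ) := by exact_mod_cast h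
  have h2 : (0 : ℝ) ≤ (W : ℝ) := Nat.cast_nonneg _
  push_cast at h1
  nlinarith

/-- positions of the points of the ball and inner column part -/
private theorem EI_pt (H : AsmData m K h ρ L N M a0 W S0 t 𝓜 C E I Q P) {j : ℕ} (hj : j < M)
    {k : ℕ} (hk : k < N) {z : X} (hz : z ∈ E j k ∪ I j k) : dist (t j k) z ≤ 2 * a0 := by
  rcases hz with hz | hz
  · exact H.Ept j hj k hk z hz
  · have h1 := H.Ipt j hj k hk z hz
    have h2 := H.ha0
    have h3 := H.hK
    have h4 := H.hh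
    have h5 := H.hρ
    linarith

theorem rowP_B (H : AsmData m K h ρ L N M a0 W S0 t 𝓜 C E I Q P) {j : ℕ} (hj : j < M)
    {S : Finset ℕ} (hS : S ∈ 𝓜 j) {k : ℕ} (hk : k ∈ S) {w : ℕ × (ℕ ⊕ Finset ℕ)}
    (hw : w ∈ incDom N M 𝓜) (h1 : w ≠ (j, Sum.inl k)) (h2 : w ≠ (j, Sum.inr S)) :
    ∀ x ∈ P j k S, ∀ y ∈ asmB C E I w, K ≤ dist x y := by
  intro x hx y hy
  have a1 := H.hK
  have a2 := H.hh
  have a3 := H.hρ
  have a4 := H.ha0
  have a5 := H.hW
  have a6 := H.hL
  have hkN : k < N := Finset.mem_range.1 (H.sub j hj S hS hk)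
  by_cases hrow : j = w.1
  · obtain ⟨j', w2⟩ := w
    simp only at hrow
    subst hrow
    obtain ⟨-, hw2⟩ := hw
    simp only at hw2
    rcases hw2 with ⟨l, hl, rfl⟩ | ⟨S', hS', rfl⟩
    · have hkl : k ≠ l := fun h => h1 (by rw [h])
      have hyp := EI_pt H hj hl hy
      have hfar := H.tfar j hj j hj k hkN l hl hkl
      have hP := (H.Pout j hj S hS k hk x hx).2
      have t1 := dist_triangle (t j k) x (t j l)
      have t2 := dist_triangle x y (t j l)
      rw [dist_comm y (t j l)] at t2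
      linarith
    · exact H.PCfar j hj S hS k hk S' hS' (fun h => h2 (by rw [h])) x hx y hy
  · refine rows_far H hrow ?_ ?_
    · have := H.Psh j hj S hS k hk x hx
      have h0 : (0 : ℝ) ≤ (a0 : ℝ) := Nat.cast_nonneg _
      linarith
    · have := B_height H hw hy
      linarith

theorem colQ_B (H : AsmData m K h ρ L N M a0 W S0 t 𝓜 C E I Q P) {j : ℕ} (hj : j + 1 < M)
    {k : ℕ} (hk : k < N) {w : ℕ × (ℕ ⊕ Finset ℕ)} (hw : w ∈ incDom N M 𝓜)
    (h1 : w ≠ (j, Sum.inl k)) (h2 : w ≠ (j + 1, Sum.inl k)) :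
    ∀ x ∈ Q j k, ∀ y ∈ asmB C E I w, K ≤ dist x y := by
  intro x hx y hy
  have a1 := H.hK
  have a2 := H.hh
  have a3 := H.hρ
  have a4 := H.ha0
  have a5 := H.hW
  have a6 := H.hL
  have hlo := H.Qlo j hj k hk x hx
  have hhi := H.Qhi j hj k hk x hx
  have hW0 : (0 : ℝ) ≤ (W : ℝ) := Nat.cast_nonneg _
  obtain ⟨j', w2⟩ := w
  obtain ⟨hj', hw2⟩ := hw
  simp only at hj' hw2
  rcases hw2 with ⟨l, hl, rfl⟩ | ⟨S', hS', rfl⟩
  · have hyp := EI_pt H hj' hl hy
    by_cases hkl : k = l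
    · subst hkl
      have hth := H.th j' hj' k hk
      have t1 := dist_triangle m (t j' k) y
      have t2 := dist_triangle m y (t j' k)
      rw [dist_comm y (t j' k)] at t2
      have hne1 : j' ≠ j := fun h => h1 (by rw [h])
      have hne2 : j' ≠ j + 1 := fun h => h2 (by rw [h])
      rcases lt_or_gt_of_ne hne1 with hlt | hgt
      · have h3 := row_lt (W := W) hlt
        rw [dist_comm]
        refine gap_far (m := m) (a := S0 + j' * W + 2 * a0) (b := (S0 : ℝ) + j * W + a0 - 2)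
          ?_ hlo ?_ <;> linarith
      · have hgt' : j + 1 < j' := lt_of_le_of_ne hgt (Ne.symm hne2)
        have h3 := row_lt (W := W) hgt'
        push_cast at h3
        refine gap_far (m := m) (a := (S0 : ℝ) + j * W + W - a0 + 2)
          (b := S0 + j' * W - 2 * a0) hhi ?_ ?_
        · linarith
        · linarith
    · have hQ := H.Qt j hj k hk x hx j' hj' l hl hkl
      have t1 := dist_triangle (t j' l) y x
      rw [dist_comm y x] at t1
      linarith
  · have hC := abs_le.1 (H.Csh j' hj' S' hS' y hy)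
    rcases le_or_gt j' j with hle | hgt
    · have h3 : (j' : ℝ) * W ≤ (j : ℝ) * W := by
        have : (j' : ℝ) ≤ (j : ℝ) := by exact_mod_cast hle
        nlinarith
      rw [dist_comm]
      refine gap_far (m := m) (a := S0 + j' * W + (ρ + h)) (b := (S0 : ℝ) + j * W + a0 - 2)
        ?_ hlo ?_ <;> linarith [hC.1, hC.2]
    · have h3 := row_lt (W := W) hgt
      refine gap_far (m := m) (a := (S0 : ℝ) + j * W + W - a0 + 2)
        (b := S0 + j' * W - (ρ + h)) hhi ?_ ?_ <;> linarith [hC.1, hC.2]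

theorem asm_PB (H : AsmData m K h ρ L N M a0 W S0 t 𝓜 C E I Q P) :
    ∀ u ∈ incDom N M 𝓜, ∀ v ∈ incDom N M 𝓜, incGraph.Adj u v → ∀ w ∈ incDom N M 𝓜,
      w ≠ u → w ≠ v → ∀ x ∈ asmP P Q u v, ∀ y ∈ asmB C E I w, K ≤ dist x y := by
  intro u hu v hv huv w hw hwu hwv x hx y hy
  rcases huv with ⟨j, k, S, hkS, ⟨rfl, rfl⟩ | ⟨rfl, rfl⟩⟩ | ⟨j, k, ⟨rfl, rfl⟩ | ⟨rfl, rfl⟩⟩
  · obtain ⟨hj, hS⟩ := hv
    rcases hS with ⟨_, _, h⟩ | ⟨S', hS', h⟩
    · exact absurd h (by simp)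
    · have hSS : S = S' := by simpa using h
      subst hSS
      exact rowP_B H hj hS' hkS hw hwu hwv x hx y hy
  · obtain ⟨hj, hS⟩ := hu
    rcases hS with ⟨_, _, h⟩ | ⟨S', hS', h⟩
    · exact absurd h (by simp)
    · have hSS : S = S' := by simpa using h
      subst hSS
      exact rowP_B H hj hS' hkS hw hwv hwu x hx y hy
  · obtain ⟨hj, hk⟩ := hv
    rcases hk with ⟨k', hk', h⟩ | ⟨_, _, h⟩
    · have hkk : k = k' := by simpa using h
      subst hkk
      have hx' : x ∈ Q j k := by simpa [asmP] using hx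
      exact colQ_B H hj hk' hw hwu hwv x hx' y hy
    · exact absurd h (by simp)
  · obtain ⟨hj, hk⟩ := hu
    rcases hk with ⟨k', hk', h⟩ | ⟨_, _, h⟩
    · have hkk : k = k' := by simpa using h
      subst hkk
      have hx' : x ∈ Q j k := by simpa [asmP] using hx
      exact colQ_B H hj hk' hw hwv hwu x hx' y hy
    · exact absurd h (by simp)

end AG35
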