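import Pool.Agent.AG35.Asm3

/-! # AG35.Asm4 : distances between connectors, assembly

The connectors are `P j k S` (`k ∈ S ∈ 𝓜 j`, `j < M`) for the edges `(j, inl k) - (j, inr S)` and `Q j k`
(`j + 1 < M`, `k < N`) for the edges `(j, inl k) - (j+1, inl k)`.
* `P j k S`, `P j' k' S'`: `j ≠ j'`: `rows_far`; `j = j'`, `k ≠ k'`: `L - 2 (2 a0 + h) ≥ K`;
`j = j'`, `k = k'`, `S ≠ S'`: `PPfar`.
* `P j k S`, `Q j' k'`: by heights: `P` within `ρ + h` of `S0 + j W`, `Q` between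
`S0 + j' W + a0 - 2` and `S0 + (j'+1) W - a0 + 2`: gap `≥ a0 - 2 - ρ - h ≥ K`.
* `Q j k`, `Q j' k'`: `k ≠ k'`: `QQ`; `k = k'`, `j < j'`: gap `≥ 2 a0 - 4 ≥ K`.

`assemble` collects everything (`meet`: `PE`, `PC`, `QI`, `QI'`; `symm`: `asmP_symm`).
-/

namespace AG35

open Set

variable {X : Type*} [MetricSpace X] {m : X} {K h ρ L : ℝ} {N M a0 W S0 : ℕ} {t : ℕ → ℕ → X}
  {𝓜 : ℕ → Finset (Finset ℕ)} {C : ℕ → Finset ℕ → Set X} {E I Q : ℕ → ℕ → Set X}
  {P : ℕ → ℕ → Finset ℕ → Set X}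

private theorem gap4 {m z z' : X} {a b c : ℝ} (hz : dist m z ≤ a) (hz' : b ≤ dist m z')
    (h : c + a ≤ b) : c ≤ dist z z' := by
  have := dist_triangle m z z'
  linarith

private theorem row4 {j j' W : ℕ} (h : j < j') : (j : ℝ) * W + W ≤ (j' : ℝ) * W := by
  have h1 : ((j + 1 : ℕ) : ℝ) ≤ (j' : ℝ) := by exact_mod_cast h
  have h2 : (0 : ℝ) ≤ (W : ℝ) := Nat.cast_nonneg _
  push_cast at h1
  nlinarith

/-- two connectors inside rows -/
theorem rowP_rowP (H : AsmData m K h ρ L N M a0 W S0 t 𝓜 C E I Q P) {j : ℕ} (hj : j < M)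
    {S : Finset ℕ} (hS : S ∈ 𝓜 j) {k : ℕ} (hk : k ∈ S) {j' : ℕ} (hj' : j' < M)
    {S' : Finset ℕ} (hS' : S' ∈ 𝓜 j') {k' : ℕ} (hk' : k' ∈ S')
    (hne : ¬ (j = j' ∧ k = k' ∧ S = S')) :
    ∀ x ∈ P j k S, ∀ y ∈ P j' k' S', K ≤ dist x y := by
  intro x hx y hy
  have a1 := H.hK
  have a2 := H.hh
  have a3 := H.hρ
  have a4 := H.ha0
  have a5 := H.hW
  have a6 := H.hL
  have hkN : k < N := Finset.mem_range.1 (H.sub j hj S hS hk)
  have hkN' : k' < N := Finset.mem_range.1 (H.sub j' hj' S' hS' hk')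
  have h0 : (0 : ℝ) ≤ (a0 : ℝ) := Nat.cast_nonneg _
  by_cases hjj : j = j'
  · subst hjj
    by_cases hkk : k = k'
    · subst hkk
      exact H.PPfar j hj S hS S' hS' (fun h => hne ⟨rfl, rfl, h⟩) k hk hk' x hx y hy
    · have hfar := H.tfar j hj j hj k hkN k' hkN' hkk
      have e1 := (H.Pout j hj S hS k hk x hx).2
      have e2 := (H.Pout j hj S' hS' k' hk' y hy).2
      have t1 := dist_triangle (t j k) x (t j k')
      have t2 := dist_triangle x y (t j k')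
      rw [dist_comm y (t j k')] at t2
      linarith
  · refine rows_far H hjj ?_ ?_
    · have := H.Psh j hj S hS k hk x hx
      linarith
    · have := H.Psh j' hj' S' hS' k' hk' y hy
      linarith

/-- a connector inside a row and a column part -/
theorem rowP_colQ (H : AsmData m K h ρ L N M a0 W S0 t 𝓜 C E I Q P) {j : ℕ} (hj : j < M)
    {S : Finset ℕ} (hS : S ∈ 𝓜 j) {k : ℕ} (hk : k ∈ S) {j' : ℕ} (hj' : j' + 1 < M)
    {k' : ℕ} (hk' : k' < N) :
    ∀ x ∈ P j k S, ∀ y ∈ Q j' k', K ≤ dist x y := by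
  intro x hx y hy
  have a1 := H.hK
  have a2 := H.hh
  have a3 := H.hρ
  have a4 := H.ha0
  have a5 := H.hW
  have hlo := H.Qlo j' hj' k' hk' y hy
  have hhi := H.Qhi j' hj' k' hk' y hy
  have hP := abs_le.1 (H.Psh j hj S hS k hk x hx)
  rcases le_or_gt j j' with hle | hgt
  · have h3 : (j : ℝ) * W ≤ (j' : ℝ) * W := by
      have h4 : (j : ℝ) ≤ (j' : ℝ) := by exact_mod_cast hle
      have h5 : (0 : ℝ) ≤ (W : ℝ) := Nat.cast_nonneg _
      nlinarith
    refine gap4 (m := m) (a := S0 + j * W + (ρ + h)) (b := (S0 : ℝ) + j' * W + a0 - 2)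
      ?_ hlo ?_ <;> linarith [hP.1, hP.2]
  · have h3 := row4 (W := W) hgt
    rw [dist_comm]
    refine gap4 (m := m) (a := (S0 : ℝ) + j' * W + W - a0 + 2)
      (b := S0 + j * W - (ρ + h)) hhi ?_ ?_ <;> linarith [hP.1, hP.2]

/-- two column parts, the first one lower or in another column -/
theorem colQ_colQ (H : AsmData m K h ρ L N M a0 W S0 t 𝓜 C E I Q P) {j : ℕ} (hj : j + 1 < M)
    {k : ℕ} (hk : k < N) {j' : ℕ} (hj' : j' + 1 < M) {k' : ℕ} (hk' : k' < N)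
    (hne : ¬ (j = j' ∧ k = k')) :
    ∀ x ∈ Q j k, ∀ y ∈ Q j' k', K ≤ dist x y := by
  intro x hx y hy
  have a1 := H.hK
  have a2 := H.hh
  have a3 := H.hρ
  have a4 := H.ha0
  have a6 := H.hL
  by_cases hkk : k = k'
  · subst hkk
    have hlo := H.Qlo j hj k hk x hx
    have hhi := H.Qhi j hj k hk x hx
    have hlo' := H.Qlo j' hj' k hk' y hy
    have hhi' := H.Qhi j' hj' k hk' y hy
    rcases lt_trichotomy j j' with hlt | heq | hgt
    · have h3 := row4 (W := W) hlt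
      exact gap4 (m := m) hhi hlo' (by linarith)
    · exact absurd ⟨heq, rfl⟩ hne
    · have h3 := row4 (W := W) hgt
      rw [dist_comm]
      exact gap4 (m := m) hhi' hlo (by linarith)
  · have h0 : (0 : ℝ) ≤ (a0 : ℝ) := Nat.cast_nonneg _
    have := H.QQ j hj j' hj' k hk k' hk' hkk x hx y hy
    linarith

/-- normal form of the adjacent pairs -/
theorem adj_cases {u v : ℕ × (ℕ ⊕ Finset ℕ)} (hu : u ∈ incDom N M 𝓜) (hv : v ∈ incDom N M 𝓜)
    (huv : incGraph.Adj u v) :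
    (∃ j k S, j < M ∧ S ∈ 𝓜 j ∧ k ∈ S ∧ k < N ∧ s(u, v) = s((j, Sum.inl k), (j, Sum.inr S)) ∧
      (∀ (P : ℕ → ℕ → Finset ℕ → Set X) (Q : ℕ → ℕ → Set X), asmP P Q u v = P j k S)) ∨
    (∃ j k, j + 1 < M ∧ k < N ∧ s(u, v) = s((j, Sum.inl k), (j + 1, Sum.inl k)) ∧
      (∀ (P : ℕ → ℕ → Finset ℕ → Set X) (Q : ℕ → ℕ → Set X), asmP P Q u v = Q j k)) := by
  rcases huv with ⟨j, k, S, hkS, ⟨rfl, rfl⟩ | ⟨rfl, rfl⟩⟩ | ⟨j, k, ⟨rfl, rfl⟩ | ⟨rfl, rfl⟩⟩
  · left
    obtain ⟨hj, hS⟩ := hv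
    obtain ⟨-, hk⟩ := hu
    rcases hS with ⟨_, _, h⟩ | ⟨S', hS', h⟩
    · exact absurd h (by simp)
    · have hSS : S = S' := by simpa using h
      subst hSS
      rcases hk with ⟨k', hk', h⟩ | ⟨_, _, h⟩
      · have hkk : k = k' := by simpa using h
        subst hkk
        exact ⟨j, k, S, hj, hS', hkS, hk', rfl, fun _ _ => rfl⟩
      · exact absurd h (by simp)
  · left
    obtain ⟨hj, hS⟩ := hu
    obtain ⟨-, hk⟩ := hv
    rcases hS with ⟨_, _, h⟩ | ⟨S', hS', h⟩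
    · exact absurd h (by simp)
    · have hSS : S = S' := by simpa using h
      subst hSS
      rcases hk with ⟨k', hk', h⟩ | ⟨_, _, h⟩
      · have hkk : k = k' := by simpa using h
        subst hkk
        exact ⟨j, k, S, hj, hS', hkS, hk', Sym2.eq_swap, fun _ _ => rfl⟩
      · exact absurd h (by simp)
  · right
    obtain ⟨hj, hk⟩ := hv
    rcases hk with ⟨k', hk', h⟩ | ⟨_, _, h⟩
    · have hkk : k = k' := by simpa using h
      subst hkk
      exact ⟨j, k, hj, hk', rfl, fun _ _ => by simp [asmP]⟩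
    · exact absurd h (by simp)
  · right
    obtain ⟨hj, hk⟩ := hu
    rcases hk with ⟨k', hk', h⟩ | ⟨_, _, h⟩
    · have hkk : k = k' := by simpa using h
      subst hkk
      exact ⟨j, k, hj, hk', Sym2.eq_swap, fun _ _ => by simp [asmP]⟩
    · exact absurd h (by simp)

theorem asm_PP (H : AsmData m K h ρ L N M a0 W S0 t 𝓜 C E I Q P) :
    ∀ u ∈ incDom N M 𝓜, ∀ v ∈ incDom N M 𝓜, incGraph.Adj u v →
      ∀ u' ∈ incDom N M 𝓜, ∀ v' ∈ incDom N M 𝓜, incGraph.Adj u' v' → s(u, v) ≠ s(u', v') →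
      ∀ x ∈ asmP P Q u v, ∀ y ∈ asmP P Q u' v', K ≤ dist x y := by
  intro u hu v hv huv u' hu' v' hv' huv' hne x hx y hy
  rcases adj_cases (X := X) hu hv huv with ⟨j, k, S, hj, hS, hkS, hk, he, hP⟩ |
      ⟨j, k, hj, hk, he, hP⟩ <;>
    rcases adj_cases (X := X) hu' hv' huv' with ⟨j', k', S', hj', hS', hkS', hk', he', hP'⟩ |
      ⟨j', k', hj', hk', he', hP'⟩ <;>
    rw [hP] at hx <;> rw [hP'] at hy
  · refine rowP_rowP H hj hS hkS hj' hS' hkS' ?_ x hx y hy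
    rintro ⟨rfl, rfl, rfl⟩
    exact hne (he.trans he'.symm)
  · exact rowP_colQ H hj hS hkS hj' hk' x hx y hy
  · rw [dist_comm]
    exact rowP_colQ H hj' hS' hkS' hj hk y hy x hx
  · refine colQ_colQ H hj hk hj' hk' ?_ x hx y hy
    rintro ⟨rfl, rfl⟩
    exact hne (he.trans he'.symm)

theorem assemble (H : AsmData m K h ρ L N M a0 W S0 t 𝓜 C E I Q P) :
    FatOn incGraph (incDom N M 𝓜) K (asmB C E I) (asmP P Q) where
  pcB := by
    rintro ⟨j, k | S⟩ ⟨hj, hv⟩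
    · rcases hv with ⟨k', hk', h⟩ | ⟨_, _, h⟩
      · have hkk : k = k' := by simpa using h
        subst hkk
        exact H.EIpc j hj k hk'
      · exact absurd h (by simp)
    · rcases hv with ⟨_, _, h⟩ | ⟨S', hS', h⟩
      · exact absurd h (by simp)
      · have hSS : S = S' := by simpa using h
        subst hSS
        exact H.Cpc j hj S hS'
  pcP := by
    intro u hu v hv huv
    rcases adj_cases (X := X) hu hv huv with ⟨j, k, S, hj, hS, hkS, hk, he, hP⟩ |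
      ⟨j, k, hj, hk, he, hP⟩
    · rw [hP]
      exact H.Ppc j hj S hS k hkS
    · rw [hP]
      exact H.Qpc j hj k hk
  symm := asmP_symm P Q
  meet := by
    intro u hu v hv huv
    rcases huv with ⟨j, k, S, hkS, ⟨rfl, rfl⟩ | ⟨rfl, rfl⟩⟩ | ⟨j, k, ⟨rfl, rfl⟩ | ⟨rfl, rfl⟩⟩
    · obtain ⟨hj, hS⟩ := hv
      rcases hS with ⟨_, _, h⟩ | ⟨S', hS', h⟩
      · exact absurd h (by simp)
      · have hSS : S = S' := by simpa using h
        subst hSS
        obtain ⟨z, hz1, hz2⟩ := H.PE j hj S hS' k hkS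
        exact ⟨z, hz1, Or.inl hz2⟩
    · obtain ⟨hj, hS⟩ := hu
      rcases hS with ⟨_, _, h⟩ | ⟨S', hS', h⟩
      · exact absurd h (by simp)
      · have hSS : S = S' := by simpa using h
        subst hSS
        exact H.PC j hj S hS' k hkS
    · obtain ⟨hj, hk⟩ := hv
      rcases hk with ⟨k', hk', h⟩ | ⟨_, _, h⟩
      · have hkk : k = k' := by simpa using h
        subst hkk
        obtain ⟨z, hz1, hz2⟩ := H.QI j hj k hk'
        refine ⟨z, ?_, Or.inr hz2⟩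
        simpa [asmP] using hz1
      · exact absurd h (by simp)
    · obtain ⟨hj, hk⟩ := hu
      rcases hk with ⟨k', hk', h⟩ | ⟨_, _, h⟩
      · have hkk : k = k' := by simpa using h
        subst hkk
        obtain ⟨z, hz1, hz2⟩ := H.QI' j hj k hk'
        refine ⟨z, ?_, Or.inr hz2⟩
        simpa [asmP] using hz1
      · exact absurd h (by simp)
  BB := asm_BB H
  PB := asm_PB H
  PP := asm_PP H

end AG35
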