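import Pool.Agent.AG35.Defs

/-! # AG35.AsmDefs : the metric facts used to assemble the rows and columns

`ht j = S0 + j W` is the height of row `j`, `t j k` the crossing point of row `j` and column `k`.
-/

namespace AG35

open Set

variable {X : Type*} [MetricSpace X]

/-- branch sets of the incidence graph -/
def asmB (C : ℕ → Finset ℕ → Set X) (E I : ℕ → ℕ → Set X) : ℕ × (ℕ ⊕ Finset ℕ) → Set X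
  | (j, Sum.inl k) => E j k ∪ I j k
  | (j, Sum.inr S) => C j S

/-- connectors of the incidence graph -/
def asmP (P : ℕ → ℕ → Finset ℕ → Set X) (Q : ℕ → ℕ → Set X) :
    ℕ × (ℕ ⊕ Finset ℕ) → ℕ × (ℕ ⊕ Finset ℕ) → Set X
  | (j, Sum.inl k), (j', Sum.inl k') => Q (min j j') (min k k')
  | (j, Sum.inl k), (_, Sum.inr S) => P j k S
  | (_, Sum.inr S), (j, Sum.inl k) => P j k S
  | (_, Sum.inr _), (_, Sum.inr _) => ∅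

/-- the metric facts about hubs `C j S`, balls `E j k`, inner column parts `I j k`, outer column
parts `Q j k` (from row `j` to row `j+1`), connectors `P j k S` and crossing points `t j k` -/
structure AsmData (m : X) (K h ρ L : ℝ) (N M a0 W S0 : ℕ) (t : ℕ → ℕ → X)
    (𝓜 : ℕ → Finset (Finset ℕ)) (C : ℕ → Finset ℕ → Set X) (E I Q : ℕ → ℕ → Set X)
    (P : ℕ → ℕ → Finset ℕ → Set X) : Prop where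
  hK : 0 ≤ K
  hh : 0 ≤ h
  hρ : 2 ≤ ρ
  ha0 : h + K + ρ + 10 ≤ a0
  hW : 2 * (2 * (a0 : ℝ) + h + ρ) + K + 10 ≤ W
  hL : 8 * (a0 : ℝ) + 4 * h + K + 10 ≤ L
  sub : ∀ j < M, ∀ S ∈ 𝓜 j, S ⊆ Finset.range N
  th : ∀ j < M, ∀ k < N, dist m (t j k) = S0 + j * W
  tfar : ∀ j < M, ∀ j' < M, ∀ k < N, ∀ l < N, k ≠ l → L ≤ dist (t j k) (t j' l)
  -- path connectedness
  Cpc : ∀ j < M, ∀ S ∈ 𝓜 j, IsPathConnected (C j S)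
  EIpc : ∀ j < M, ∀ k < N, IsPathConnected (E j k ∪ I j k)
  Ppc : ∀ j < M, ∀ S ∈ 𝓜 j, ∀ k ∈ S, IsPathConnected (P j k S)
  Qpc : ∀ j, j + 1 < M → ∀ k < N, IsPathConnected (Q j k)
  -- incidences
  PE : ∀ j < M, ∀ S ∈ 𝓜 j, ∀ k ∈ S, (P j k S ∩ E j k).Nonempty
  PC : ∀ j < M, ∀ S ∈ 𝓜 j, ∀ k ∈ S, (P j k S ∩ C j S).Nonempty
  QI : ∀ j, j + 1 < M → ∀ k < N, (Q j k ∩ I j k).Nonempty
  QI' : ∀ j, j + 1 < M → ∀ k < N, (Q j k ∩ I (j + 1) k).Nonempty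
  -- positions
  Ept : ∀ j < M, ∀ k < N, ∀ z ∈ E j k, dist (t j k) z ≤ 2 * a0
  Ipt : ∀ j < M, ∀ k < N, ∀ z ∈ I j k, dist (t j k) z ≤ a0 + 3
  Csh : ∀ j < M, ∀ S ∈ 𝓜 j, ∀ z ∈ C j S, |dist m z - (S0 + j * W)| ≤ ρ + h
  Cout : ∀ j < M, ∀ S ∈ 𝓜 j, ∀ z ∈ C j S, ∀ k < N, 2 * a0 - h ≤ dist (t j k) z
  Psh : ∀ j < M, ∀ S ∈ 𝓜 j, ∀ k ∈ S, ∀ z ∈ P j k S, |dist m z - (S0 + j * W)| ≤ ρ + h
  Pout : ∀ j < M, ∀ S ∈ 𝓜 j, ∀ k ∈ S, ∀ z ∈ P j k S,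
    2 * a0 - h ≤ dist (t j k) z ∧ dist (t j k) z ≤ 2 * a0 + h
  Qlo : ∀ j, j + 1 < M → ∀ k < N, ∀ z ∈ Q j k, (S0 : ℝ) + j * W + a0 - 2 ≤ dist m z
  Qhi : ∀ j, j + 1 < M → ∀ k < N, ∀ z ∈ Q j k, dist m z ≤ (S0 : ℝ) + j * W + W - a0 + 2
  Qt : ∀ j, j + 1 < M → ∀ k < N, ∀ z ∈ Q j k, ∀ j' < M, ∀ l < N, k ≠ l →
    L - 2 ≤ dist (t j' l) z
  QQ : ∀ j, j + 1 < M → ∀ j', j' + 1 < M → ∀ k < N, ∀ l < N, k ≠ l →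
    ∀ z ∈ Q j k, ∀ z' ∈ Q j' l, L - 4 ≤ dist z z'
  -- distances inside one row
  Cfar : ∀ j < M, ∀ S ∈ 𝓜 j, ∀ S' ∈ 𝓜 j, S ≠ S' → ∀ z ∈ C j S, ∀ z' ∈ C j S', K ≤ dist z z'
  ECfar : ∀ j < M, ∀ k < N, ∀ S ∈ 𝓜 j, ∀ z ∈ E j k, ∀ z' ∈ C j S, K ≤ dist z z'
  PCfar : ∀ j < M, ∀ S ∈ 𝓜 j, ∀ k ∈ S, ∀ S' ∈ 𝓜 j, S' ≠ S →
    ∀ z ∈ P j k S, ∀ z' ∈ C j S', K ≤ dist z z'
  PPfar : ∀ j < M, ∀ S ∈ 𝓜 j, ∀ S' ∈ 𝓜 j, S ≠ S' → ∀ k ∈ S, k ∈ S' →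
    ∀ z ∈ P j k S, ∀ z' ∈ P j k S', K ≤ dist z z'

end AG35
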