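import Pool.Agent.AG35.Geo2

/-! # AG35.BPA : the bottleneck property implies asymptotic dimension at most `1`

Let `r > 0`, fix a base point `o` (if `X` is empty everything is trivial) and `R = 2 r + 1`. For
`k : ℕ` let `A k = {x | k R ≤ dist o x < (k+1) R}`. The cover `𝒰` consists of the sets
`{y | y ∈ A k ∧ Link (A k) (2 r) x y}` for `x ∈ A k`, `k : ℕ`.

* Every closed ball of radius `r` has diameter at most `2 r < R`, so it meets at most two of the
`A k`, and inside one `A k` all its points are in one class: at most two members of `𝒰`.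

* Boundedness: let `x, y ∈ A k` be linked in `A k` with steps `≤ 2 r`. By `hull` (applied to the
class, `J = 2 r`) and path connectedness there is a path `δ` from `y` to `x` all of whose points
have distance at least `k R - r - 1` from `o`. Put `t = k R - Δ - r - 2`. If `t ≤ 0` then
`dist x y ≤ dist o x + dist o y ≤ 2 (k+1) R ≤ 2 (R + Δ + r + 2)`. Otherwise take the path of
`near_geo` (`ε = 1`) from `o` to `x` and a point `m` on it with `dist o m = t` (intermediate value
theorem), so `dist o m + dist m x ≤ dist o x + 1`. Let `γ` be the concatenation of the path of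
`near_geo` from `o` to `y` with `δ`. The bottleneck property for `o, x, m` gives a point `w` of `γ`
with `dist m w ≤ Δ`. It is not on `δ` because there `dist o w ≥ k R - r - 1 > t + Δ`. So `w` is
on the near geodesic from `o` to `y` and `dist w y ≤ dist o y + 1 - dist o w`,
`dist o w ≥ t - Δ`, whence `dist m y ≤ Δ + (k+1) R + 1 - t + Δ`, and
`dist m x ≤ (k+1) R + 1 - t`. Since `(k+1) R - t = R + Δ + r + 2` we get
`dist x y ≤ 2 R + 4 Δ + 2 r + 6`. (`Δ ≥ 0` may be assumed: if `Δ < 0` use `max Δ 0`.)

Suggested split: first a lemma bounding the distance of two linked points of `A k`.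
-/

namespace AG35

open Set

variable {X : Type*} [MetricSpace X]

/-- points of a linked class are linked inside the class -/
theorem bpa_isLinked_class {A : Set X} {J : ℝ} (x : X) :
    IsLinked {z | Link A J x z} J := by
  have key : ∀ z, Link A J x z → Link {z | Link A J x z} J x z := by
    intro z hz
    induction hz with
    | refl => exact Link.refl _ _ _
    | tail hab hbc ih => exact ih.tail ⟨hab, hab.tail hbc, hbc.2.2⟩
  intro y hy z hz
  exact (key y hy).symm.trans (key z hz)

/-- linked points in an annulus are close -/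
theorem bpa_bound (hX : IsLengthSpace X) {Δ : ℝ} (hΔ : 0 ≤ Δ) (h : BP X Δ) {r R a b : ℝ}
    (hr : 0 < r) (hR : 0 ≤ R) (hb : b = a + R) (ha : 0 ≤ a) (o : X) {A : Set X}
    (hA : ∀ z ∈ A, a ≤ dist o z ∧ dist o z ≤ b) {x y : X} (hx : x ∈ A)
    (hxy : Link A (2 * r) x y) : dist x y ≤ 2 * R + 4 * Δ + 2 * r + 6 := by
  have hy : y ∈ A := hxy.mem hx
  obtain ⟨hx1, hx2⟩ := hA x hx
  obtain ⟨hy1, hy2⟩ := hA y hy
  obtain ⟨T, hT, hST, hTd⟩ := hull hX (S := {z | Link A (2 * r) x z}) (J := 2 * r) (by linarith)
    ⟨x, Link.refl _ _ _⟩ (bpa_isLinked_class x)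
  have hTo : ∀ z ∈ T, a - r - 1 ≤ dist o z := by
    intro z hz
    obtain ⟨w, hw, hzw⟩ := hTd z hz
    have hw' : w ∈ A := Link.mem hw hx
    have h1 := (hA w hw').1
    have h2 := dist_triangle o z w
    linarith
  rcases le_or_gt (a - Δ - r - 2) 0 with ht | ht
  · have h1 := dist_triangle x o y
    rw [dist_comm x o] at h1
    linarith
  · set t := a - Δ - r - 2 with htd
    obtain ⟨γx, hγx⟩ := near_geo hX o x (one_pos : (0 : ℝ) < 1)
    obtain ⟨γy, hγy⟩ := near_geo hX o y (one_pos : (0 : ℝ) < 1)
    obtain ⟨τ, hτ⟩ : ∃ τ : unitInterval, dist o (γx τ) = t := by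
      have hc : Continuous fun τ : unitInterval => dist o (γx τ) := by fun_prop
      have h0 : dist o (γx 0) ≤ t := by
        rw [γx.source, dist_self]; exact ht.le
      have h1 : t ≤ dist o (γx 1) := by
        rw [γx.target]; linarith
      have := intermediate_value_univ (0 : unitInterval) 1 hc
      exact this ⟨h0, h1⟩
    have hm : dist o (γx τ) + dist (γx τ) x ≤ dist o x + 1 := by
      have := hγx τ τ le_rfl
      rw [dist_self, add_zero] at this
      exact this
    obtain ⟨δ, hδ⟩ := hT.joinedIn y (hST hxy) x (hST (Link.refl _ _ _))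
    obtain ⟨s, hs⟩ := h o x (γx τ) hm (γy.trans δ)
    have hmem : (γy.trans δ) s ∈ range γy ∪ range δ := by
      rw [← Path.trans_range]
      exact ⟨s, rfl⟩
    have htri : dist o ((γy.trans δ) s) ≤ t + Δ := by
      have := dist_triangle o (γx τ) ((γy.trans δ) s)
      linarith
    rcases hmem with ⟨s', hs'⟩ | ⟨s', hs'⟩
    · have h1 := hγy s' s' le_rfl
      rw [dist_self, add_zero, hs'] at h1
      have h2 := dist_triangle o ((γy.trans δ) s) (γx τ)
      have h2' : dist ((γy.trans δ) s) (γx τ) = dist (γx τ) ((γy.trans δ) s) := dist_comm _ _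
      have h3 := dist_triangle (γx τ) ((γy.trans δ) s) y
      have h4 := dist_triangle x (γx τ) y
      rw [dist_comm x (γx τ)] at h4
      linarith
    · have h1 := hTo _ (hδ s')
      rw [hs'] at h1
      linarith

theorem asdim_of_BP (hX : IsLengthSpace X) {Δ : ℝ} (h : BP X Δ) : AsdimLE 1 X := by
  classical
  intro r hr
  rcases isEmpty_or_nonempty X with hE | ⟨⟨o⟩⟩
  · exact ⟨0, ∅, Set.eq_univ_of_forall fun x => (hE.false x).elim,
      fun U hU => (Set.notMem_empty U hU).elim, fun x => (hE.false x).elim⟩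
  have h' : BP X (max Δ 0) := by
    intro x y m hm γ
    obtain ⟨t, ht⟩ := h x y m hm γ
    exact ⟨t, ht.trans (le_max_left _ _)⟩
  set R : ℝ := 2 * r + 1 with hRd
  have hR : 0 < R := by linarith
  set idx : X → ℕ := fun x => ⌊dist o x / R⌋₊ with hidx
  have hnn : ∀ x, 0 ≤ dist o x / R := fun x => div_nonneg dist_nonneg hR.le
  set A : ℕ → Set X := fun k => {x | idx x = k} with hAd
  have hA : ∀ k : ℕ, ∀ z ∈ A k, (k : ℝ) * R ≤ dist o z ∧ dist o z ≤ (k : ℝ) * R + R := by
    intro k z hz
    have hz' : ⌊dist o z / R⌋₊ = k := hz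
    have h1 : (k : ℝ) ≤ dist o z / R := by
      rw [← hz']; exact Nat.floor_le (hnn z)
    have h2 : dist o z / R < (k : ℝ) + 1 := by
      rw [← hz']; exact Nat.lt_floor_add_one _
    rw [le_div_iff₀ hR] at h1
    rw [div_lt_iff₀ hR] at h2
    refine ⟨h1, ?_⟩
    nlinarith
  set cls : X → Set X := fun x => {y | Link (A (idx x)) (2 * r) x y} with hcls
  have hself : ∀ x, x ∈ A (idx x) := fun x => rfl
  have hclsidx : ∀ x, ∀ y ∈ cls x, idx y = idx x := fun x y hy =>
    Link.mem (A := A (idx x)) hy (hself x)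
  have hclseq : ∀ x, ∀ y ∈ cls x, cls y = cls x := by
    intro x y hy
    have e := hclsidx x y hy
    ext z
    show Link (A (idx y)) (2 * r) y z ↔ Link (A (idx x)) (2 * r) x z
    rw [e]
    exact ⟨fun hz => Link.trans hy hz, fun hz => (Link.symm hy).trans hz⟩
  refine ⟨2 * R + 4 * max Δ 0 + 2 * r + 6, Set.range cls, ?_, ?_, ?_⟩
  · refine Set.eq_univ_of_forall fun x => ?_
    exact ⟨cls x, ⟨x, rfl⟩, Link.refl _ _ _⟩
  · rintro U ⟨u, rfl⟩ x hx y hy
    have hxA : x ∈ A (idx u) := hclsidx u x hx
    have hxy : Link (A (idx u)) (2 * r) x y := (Link.symm hx).trans hy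
    exact bpa_bound hX (le_max_right _ _) h' hr hR.le rfl (by positivity) o (hA (idx u)) hxA hxy
  · intro x
    set S : Set (Set X) := {U ∈ Set.range cls | (U ∩ Metric.closedBall x r).Nonempty} with hS
    set f : Set X → ℕ := fun U => if hU : U.Nonempty then idx hU.some else 0 with hf
    have hfU : ∀ u, ∀ p ∈ cls u, f (cls u) = idx p := by
      intro u p hp
      have hne : (cls u).Nonempty := ⟨p, hp⟩
      have : f (cls u) = idx hne.some := dif_pos hne
      rw [this, hclsidx u _ hne.some_mem, hclsidx u p hp]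
    set k0 : ℕ := ⌊(dist o x - r) / R⌋₊ with hk0
    have hball : ∀ p, p ∈ Metric.closedBall x r → idx p = k0 ∨ idx p = k0 + 1 := by
      intro p hp
      rw [Metric.mem_closedBall] at hp
      have h1 := dist_triangle o p x
      have h2 := dist_triangle o x p
      rw [dist_comm x p] at h2
      have h3 : k0 ≤ idx p := by
        refine Nat.floor_mono ?_
        exact div_le_div_of_nonneg_right (by linarith) hR.le
      have h4 : idx p < k0 + 2 := by
        show ⌊dist o p / R⌋₊ < k0 + 2
        rw [Nat.floor_lt (hnn p)]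
        have h5 : (dist o x - r) / R < (k0 : ℝ) + 1 := Nat.lt_floor_add_one _
        rw [div_lt_iff₀ hR] at h5 ⊢
        push_cast
        nlinarith
      omega
    have hinj : Set.InjOn f S := by
      rintro U ⟨⟨u, rfl⟩, p, hp, hpb⟩ V ⟨⟨v, rfl⟩, q, hq, hqb⟩ hUV
      rw [hfU u p hp, hfU v q hq] at hUV
      have hpq : dist p q ≤ 2 * r := by
        rw [Metric.mem_closedBall] at hpb hqb
        have := dist_triangle p x q
        rw [dist_comm x q] at this
        linarith
      have hq' : q ∈ cls p := by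
        refine Link.single (hself p) ?_ hpq
        exact hUV.symm
      rw [← hclseq u p hp, ← hclseq v q hq, hclseq p q hq']
    have himg : f '' S ⊆ {k0, k0 + 1} := by
      rintro _ ⟨U, ⟨⟨u, rfl⟩, p, hp, hpb⟩, rfl⟩
      rw [hfU u p hp]
      rcases hball p hpb with h | h
      · exact Or.inl h
      · exact Or.inr h
    calc S.encard = (f '' S).encard := (hinj.encard_image).symm
      _ ≤ ({k0, k0 + 1} : Set ℕ).encard := Set.encard_le_encard himg
      _ ≤ ({k0 + 1} : Set ℕ).encard + 1 := Set.encard_insert_le _ _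
      _ = ((1 : ℕ) : ℕ∞) + 1 := by rw [Set.encard_singleton]; norm_num

end AG35
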