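import Pool.Agent.AG35.Defs

/-! # AG35.Clos : fat minors are closed under ordinary minors

Given `FatOn G D K B P` and a minor model `φ` of `H` in `G` inside `D` put
`B' w = ⋃ v ∈ φ w, B v ∪ ⋃ (v ∈ φ w) (v' ∈ φ w) (G.Adj v v'), P v v'`. It is path connected: for `v ∈ φ w`
all points of `B v` are joined; along an edge `v v'` of `G` inside `φ w` the path connected set `P v v'`
meets `B v` and (by `symm`) `B v'`; use `GConn`, induction on the walk.

For every edge `e = s(w, w')` of `H` choose `v ∈ φ w`, `v' ∈ φ w'` adjacent in `G`, points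
`x ∈ P v v' ∩ B v`, `y ∈ P v v' ∩ B v'` and a path `γ` from `x` to `y` inside `P v v'`;
`P' e = range γ`. To define `P'` on `Sym2 W` prove first
`∀ e : Sym2 W, ∃ T : Set X, ∀ (he : e ∈ H.edgeSet), (∃ w w' v v', e = s(w,w') ∧ v ∈ φ w ∧ v' ∈ φ w' ∧ G.Adj v v' ∧ T ⊆ P v v' ∧ ∃ a b (γ : Path a b), a ∈ B v ∧ b ∈ B v' ∧ range γ = T)`
by `Sym2.ind`, then `choose`. For `H.Adj u v` either `(w,w') = (u,v)` or `(w,w') = (v,u)`; in the
second case reverse the path (`Path.symm_range`).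

Distances: the sets `φ w` are disjoint, so vertices of `G` in different `φ w` are different
and `G`-edges inside different `φ w`, or inside `φ w` and between `φ u` and `φ v`, or chosen for different
edges of `H`, are different (an edge `s(v,v')` chosen for `e = s(w,w')` determines `w, w'` up to order because
`v ∈ φ w`, `v' ∈ φ w'`). Use `BB`, `PB`, `PP` (and `dist_comm`).
-/

namespace AG35

open Set

variable {X : Type*} [MetricSpace X]

/-- the branch set of a set `A` of vertices -/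
private def closB {V : Type*} (G : SimpleGraph V) (B : V → Set X) (P : V → V → Set X)
    (A : Set V) : Set X :=
  {x | (∃ v ∈ A, x ∈ B v) ∨ ∃ v ∈ A, ∃ v' ∈ A, G.Adj v v' ∧ x ∈ P v v'}

private theorem closB_pc {V : Type*} {G : SimpleGraph V} {D : Set V} {K : ℝ}
    {B : V → Set X} {P : V → V → Set X} (hF : FatOn G D K B P) {A : Set V} (hA : A ⊆ D)
    (hc : GConn G A) : IsPathConnected (closB G B P A) := by
  obtain ⟨⟨v0, hv0⟩, hlink⟩ := hc
  have hB : ∀ v ∈ A, B v ⊆ closB G B P A := fun v hv x hx => Or.inl ⟨v, hv, hx⟩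
  have hP : ∀ v ∈ A, ∀ v' ∈ A, G.Adj v v' → P v v' ⊆ closB G B P A :=
    fun v hv v' hv' h x hx => Or.inr ⟨v, hv, v', hv', h, hx⟩
  obtain ⟨x0, hx0⟩ := (hF.pcB v0 (hA hv0)).nonempty
  have key : ∀ v, GLink G A v0 v → v ∈ A → ∀ y ∈ B v, JoinedIn (closB G B P A) x0 y := by
    intro v hl
    induction hl with
    | refl =>
      intro _ y hy
      exact ((hF.pcB v0 (hA hv0)).joinedIn x0 hx0 y hy).mono (hB v0 hv0)
    | tail hab hbc ih =>
      rename_i b c
      obtain ⟨hb, hc, hadj⟩ := hbc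
      intro _ y hy
      obtain ⟨p, hp1, hp2⟩ := hF.meet b (hA hb) c (hA hc) hadj
      obtain ⟨q, hq1, hq2⟩ := hF.meet c (hA hc) b (hA hb) hadj.symm
      rw [hF.symm] at hq1
      exact ((ih hb p hp2).trans
        (((hF.pcP b (hA hb) c (hA hc) hadj).joinedIn p hp1 q hq1).mono
          (hP b hb c hc hadj))).trans
        (((hF.pcB c (hA hc)).joinedIn q hq2 y hy).mono (hB c hc))
  refine ⟨x0, hB v0 hv0 hx0, ?_⟩
  intro y hy
  rcases hy with ⟨v, hv, hy⟩ | ⟨v, hv, v', hv', hadj, hy⟩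
  · exact key v (hlink v0 hv0 v hv) hv y hy
  · obtain ⟨p, hp1, hp2⟩ := hF.meet v (hA hv) v' (hA hv') hadj
    exact (key v (hlink v0 hv0 v hv) hv p hp2).trans
      (((hF.pcP v (hA hv) v' (hA hv') hadj).joinedIn p hp1 y hy).mono (hP v hv v' hv' hadj))

theorem fatMinor_of_model {V W : Type*} {G : SimpleGraph V} {D : Set V} {K : ℝ}
    {B : V → Set X} {P : V → V → Set X} (hF : FatOn G D K B P) {H : SimpleGraph W}
    {φ : W → Set V} (hφ : MinorModel H G D φ) : IsFatMinor H K X := by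
  have hsub : ∀ w, ∀ v ∈ φ w, v ∈ D := fun w v hv => hφ.sub w hv
  have heq : ∀ {a : V} {u w : W}, a ∈ φ u → a ∈ φ w → u = w := by
    intro a u w hu hw
    by_contra hne
    exact (Set.disjoint_left.mp (hφ.disj u w hne)) hu hw
  have hT : ∀ e : Sym2 W, ∃ T : Set X, e ∈ H.edgeSet → ∃ w w' v v', e = s(w, w') ∧ v ∈ φ w ∧
      v' ∈ φ w' ∧ G.Adj v v' ∧ T ⊆ P v v' ∧
      ∃ (a b : X) (γ : Path a b), a ∈ B v ∧ b ∈ B v' ∧ range γ = T := by
    intro e
    by_cases he : e ∈ H.edgeSet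
    · induction e using Sym2.ind with
      | _ w w' =>
        have hadj : H.Adj w w' := by simpa using he
        obtain ⟨v, hv, v', hv', h⟩ := hφ.adj w w' hadj
        obtain ⟨p, hp1, hp2⟩ := hF.meet v (hsub w v hv) v' (hsub w' v' hv') h
        obtain ⟨q, hq1, hq2⟩ := hF.meet v' (hsub w' v' hv') v (hsub w v hv) h.symm
        rw [hF.symm] at hq1
        obtain ⟨γ, hγ⟩ := (hF.pcP v (hsub w v hv) v' (hsub w' v' hv') h).joinedIn p hp1 q hq1
        refine ⟨range γ, fun _ => ⟨w, w', v, v', rfl, hv, hv', h, ?_, p, q, γ, hp2, hq2, rfl⟩⟩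
        rintro _ ⟨t, rfl⟩
        exact hγ t
    · exact ⟨∅, fun h => absurd h he⟩
  choose T hT using hT
  refine ⟨fun w => closB G B P (φ w), T, ?_, ?_, ?_, ?_, ?_⟩
  · exact fun w => closB_pc hF (hφ.sub w) (hφ.conn w)
  · intro u v huv
    obtain ⟨w, w', a, a', hew, ha, ha', hadj, -, x, y, γ, hx, hy, hr⟩ := hT s(u, v) (by simpa using huv)
    rcases Sym2.eq_iff.mp hew with ⟨rfl, rfl⟩ | ⟨rfl, rfl⟩
    · exact ⟨x, y, γ, Or.inl ⟨a, ha, hx⟩, Or.inl ⟨a', ha', hy⟩, hr⟩
    · exact ⟨y, x, γ.symm, Or.inl ⟨a', ha', hy⟩, Or.inl ⟨a, ha, hx⟩, by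
        rw [Path.symm_range]; exact hr⟩
  · intro u v huv x hx y hy
    rcases hx with ⟨a, ha, hx⟩ | ⟨a, ha, a', ha', hadj, hx⟩
    · rcases hy with ⟨b, hb, hy⟩ | ⟨b, hb, b', hb', hadj', hy⟩
      · exact hF.BB a (hsub _ a ha) b (hsub _ b hb) (by rintro rfl; exact huv (heq ha hb)) x hx y hy
      · rw [dist_comm]
        exact hF.PB b (hsub _ b hb) b' (hsub _ b' hb') hadj' a (hsub _ a ha)
          (by rintro rfl; exact huv (heq ha hb)) (by rintro rfl; exact huv (heq ha hb')) y hy x hx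
    · rcases hy with ⟨b, hb, hy⟩ | ⟨b, hb, b', hb', hadj', hy⟩
      · exact hF.PB a (hsub _ a ha) a' (hsub _ a' ha') hadj b (hsub _ b hb)
          (by rintro rfl; exact huv (heq ha hb)) (by rintro rfl; exact huv (heq ha' hb)) x hx y hy
      · refine hF.PP a (hsub _ a ha) a' (hsub _ a' ha') hadj b (hsub _ b hb) b' (hsub _ b' hb')
          hadj' ?_ x hx y hy
        intro h
        rcases Sym2.eq_iff.mp h with ⟨rfl, rfl⟩ | ⟨rfl, rfl⟩
        · exact huv (heq ha hb)
        · exact huv (heq ha hb')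
  · intro e he v hv x hx y hy
    obtain ⟨w, w', a, a', rfl, ha, ha', hadj, hsubT, -⟩ := hT e he
    have hvw : v ≠ w := by rintro rfl; exact hv (by simp)
    have hvw' : v ≠ w' := by rintro rfl; exact hv (by simp)
    rcases hy with ⟨b, hb, hy⟩ | ⟨b, hb, b', hb', hadj', hy⟩
    · exact hF.PB a (hsub _ a ha) a' (hsub _ a' ha') hadj b (hsub _ b hb)
        (by rintro rfl; exact hvw (heq hb ha)) (by rintro rfl; exact hvw' (heq hb ha'))
        x (hsubT hx) y hy
    · refine hF.PP a (hsub _ a ha) a' (hsub _ a' ha') hadj b (hsub _ b hb) b' (hsub _ b' hb')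
        hadj' ?_ x (hsubT hx) y hy
      intro h
      rcases Sym2.eq_iff.mp h with ⟨rfl, rfl⟩ | ⟨rfl, rfl⟩
      · exact hvw (heq hb ha)
      · exact hvw (heq hb' ha)
  · intro e he f hf hef x hx y hy
    obtain ⟨w, w', a, a', rfl, ha, ha', hadj, hsubT, -⟩ := hT e he
    obtain ⟨z, z', b, b', rfl, hb, hb', hadj', hsubT', -⟩ := hT f hf
    refine hF.PP a (hsub _ a ha) a' (hsub _ a' ha') hadj b (hsub _ b hb) b' (hsub _ b' hb')
      hadj' ?_ x (hsubT hx) y (hsubT' hy)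
    intro h
    rcases Sym2.eq_iff.mp h with ⟨rfl, rfl⟩ | ⟨rfl, rfl⟩
    · exact hef (by rw [heq ha hb, heq ha' hb'])
    · exact hef (by rw [heq ha hb', heq ha' hb, Sym2.eq_swap])

end AG35
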