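import Pool.Agent.AG35.Geo1

/-! # AG35.Coc : the class of a transition edge separates

`row_linked`: consecutive edges of a class share an end point, and their other end points are
at distance `≤ ρ`; the two end points of an edge are at distance `≤ ρ`. All vertices that occur
are in the row.

`row_shell`: an edge `e'` of the class has `dist m e'.1 ≤ s < dist m e'.2` and
`dist e'.1 e'.2 ≤ ρ`.

`same_class`: let `κ = {e | ECls ρ m s (c s, c (s+1)) e}` and let `z a b = 1` if `IsTE (a,b)` and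
`(a,b) ∈ κ`, `z a b = -1` if `IsTE (b,a)` and `(b,a) ∈ κ`, `z a b = 0` otherwise (the two cases
exclude each other). `z` is a cocycle at scale `ρ`: for `a, b, c'` at mutual distance `≤ ρ` go through
the eight cases (each point inside or outside the ball of radius `s`); if two of the pairs are
transition edges they are related by `EStep`, which is symmetric, so they are both in `κ` or both
not. By `H1Trivial` `z = δ f`. Along `Link {z | s < dist m z} ρ` the function `f` is constant (no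
transition edges), so `f p = f p'`. Along a radial chain `d` from `m` to a point `q` with
`s + 1 ≤ dist m q` the consecutive distances are `≤ 2 ≤ ρ`, `z (d i) (d (i+1)) = 0` for `i ≠ s`
(both ends inside or both outside the ball, as `dist m (d i) = i`), and the last step from
`d ⌊dist m q⌋` to `q` is outside; also `d 0 = m`. So `f q - f m = z (d s) (d (s+1))` which is `1` or
`0` according to `(d s, d (s+1)) ∈ κ` or not. For `q = p`, `d = c` it is `1`; hence it is `1` for
`q = p'`, `d = c'`.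
-/

namespace AG35

open Set

variable {X : Type*} [MetricSpace X]

theorem row_linked {ρ : ℝ} (hρ : 0 ≤ ρ) {m : X} {s : ℕ} {e : X × X} (he : IsTE ρ m s e) :
    IsLinked (Row ρ m s e) ρ := by
  have hcl : ∀ e' : X × X, ECls ρ m s e e' → IsTE ρ m s e' ∧ Link (Row ρ m s e) ρ e.1 e'.1 := by
    intro e' h
    induction h with
    | refl => exact ⟨he, Link.refl _ _ _⟩
    | @tail b c' hb hbc ih =>
      obtain ⟨hTb, hTc, h | h⟩ := hbc
      · refine ⟨hTc, ?_⟩
        rw [← h.1]
        exact ih.2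
      · refine ⟨hTc, ih.2.trans (Link.single ?_ ?_ h.2)⟩
        · exact ⟨b, hb, hTb, Or.inl rfl⟩
        · exact ⟨c', Relation.ReflTransGen.tail hb ⟨hTb, hTc, Or.inr h⟩, hTc, Or.inl rfl⟩
  have hmem : ∀ x ∈ Row ρ m s e, Link (Row ρ m s e) ρ e.1 x := by
    rintro x ⟨e', he', hT, hx⟩
    have h1 := (hcl e' he').2
    rcases hx with hx | hx
    · rw [hx]; exact h1
    · rw [hx]
      exact h1.trans (Link.single ⟨e', he', hT, Or.inl rfl⟩ ⟨e', he', hT, Or.inr rfl⟩ hT.1)
  intro x hx y hy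
  exact (hmem x hx).symm.trans (hmem y hy)

theorem row_shell {ρ : ℝ} {m : X} {s : ℕ} {e : X × X} {x : X} (hx : x ∈ Row ρ m s e) :
    (s : ℝ) - ρ < dist m x ∧ dist m x ≤ s + ρ := by
  obtain ⟨e', _, ⟨h1, h2, h3⟩, hx⟩ := hx
  have h4 := dist_triangle m e'.1 e'.2
  have h5 : 0 ≤ dist e'.1 e'.2 := dist_nonneg
  rcases hx with hx | hx
  · rw [hx]; constructor <;> linarith
  · rw [hx]; constructor <;> linarith

theorem isTE_radial {ρ : ℝ} (hρ : 2 ≤ ρ) {m p : X} {c : ℕ → X} (hc : Radial m p c) {s : ℕ}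
    (hs : (s : ℝ) + 1 ≤ dist m p) : IsTE ρ m s (c s, c (s + 1)) := by
  have h1 := hc.step s (s + 1) (Nat.le_succ s) (by push_cast; exact hs)
  have h2 := hc.rad s (by linarith)
  have h3 := hc.rad (s + 1) (by push_cast; exact hs)
  push_cast at h1 h3
  refine ⟨?_, ?_, ?_⟩
  · show dist (c s) (c (s + 1)) ≤ ρ
    linarith
  · show dist m (c s) ≤ s
    linarith
  · show (s : ℝ) < dist m (c (s + 1))
    linarith

open Classical in
/-- the indicator of the transition edges in the class of `e` -/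
private noncomputable def cocInd (ρ : ℝ) (m : X) (s : ℕ) (e : X × X) (a b : X) : ℤ :=
  if IsTE ρ m s (a, b) ∧ ECls ρ m s e (a, b) then 1 else 0

private theorem cocInd_in {ρ : ℝ} {m : X} {s : ℕ} {e : X × X} {a b : X} (h : dist m b ≤ s) :
    cocInd ρ m s e a b = 0 := by
  unfold cocInd
  rw [if_neg]
  rintro ⟨⟨_, _, h3⟩, _⟩
  exact absurd h (not_le.mpr h3)

private theorem cocInd_out {ρ : ℝ} {m : X} {s : ℕ} {e : X × X} {a b : X} (h : (s : ℝ) < dist m a) :
    cocInd ρ m s e a b = 0 := by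
  unfold cocInd
  rw [if_neg]
  rintro ⟨⟨_, h2, _⟩, _⟩
  exact absurd h2 (not_le.mpr h)

private theorem cocInd_congr {ρ : ℝ} {m : X} {s : ℕ} {e : X × X} {a b a' b' : X}
    (h : EStep ρ m s (a, b) (a', b')) (h' : EStep ρ m s (a', b') (a, b)) :
    cocInd ρ m s e a b = cocInd ρ m s e a' b' := by
  unfold cocInd
  by_cases hk : ECls ρ m s e (a, b)
  · rw [if_pos ⟨h.1, hk⟩, if_pos ⟨h.2.1, Relation.ReflTransGen.tail hk h⟩]
  · rw [if_neg (fun hh => hk hh.2), if_neg (fun hh => hk (Relation.ReflTransGen.tail hh.2 h'))]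

private theorem cocInd_fst {ρ : ℝ} {m : X} {s : ℕ} {e : X × X} {a b b' : X}
    (ha : dist m a ≤ s) (hb : (s : ℝ) < dist m b) (hb' : (s : ℝ) < dist m b')
    (h1 : dist a b ≤ ρ) (h2 : dist a b' ≤ ρ) (h3 : dist b b' ≤ ρ) :
    cocInd ρ m s e a b = cocInd ρ m s e a b' :=
  cocInd_congr ⟨⟨h1, ha, hb⟩, ⟨h2, ha, hb'⟩, Or.inl ⟨rfl, h3⟩⟩
    ⟨⟨h2, ha, hb'⟩, ⟨h1, ha, hb⟩, Or.inl ⟨rfl, by rw [dist_comm]; exact h3⟩⟩

private theorem cocInd_snd {ρ : ℝ} {m : X} {s : ℕ} {e : X × X} {a a' b : X}
    (ha : dist m a ≤ s) (ha' : dist m a' ≤ s) (hb : (s : ℝ) < dist m b)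
    (h1 : dist a b ≤ ρ) (h2 : dist a' b ≤ ρ) (h3 : dist a a' ≤ ρ) :
    cocInd ρ m s e a b = cocInd ρ m s e a' b :=
  cocInd_congr ⟨⟨h1, ha, hb⟩, ⟨h2, ha', hb⟩, Or.inr ⟨rfl, h3⟩⟩
    ⟨⟨h2, ha', hb⟩, ⟨h1, ha, hb⟩, Or.inr ⟨rfl, by rw [dist_comm]; exact h3⟩⟩

private theorem cocInd_cocycle (ρ : ℝ) (m : X) (s : ℕ) (e : X × X) :
    IsCocycle ρ (fun a b => cocInd ρ m s e a b - cocInd ρ m s e b a) := by
  intro a b c hab hbc hac
  have hba : dist b a ≤ ρ := by rw [dist_comm]; exact hab
  have hcb : dist c b ≤ ρ := by rw [dist_comm]; exact hbc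
  have hca : dist c a ≤ ρ := by rw [dist_comm]; exact hac
  show cocInd ρ m s e a c - cocInd ρ m s e c a =
    (cocInd ρ m s e a b - cocInd ρ m s e b a) + (cocInd ρ m s e b c - cocInd ρ m s e c b)
  rcases le_or_gt (dist m a) (s : ℝ) with ha | ha <;>
    rcases le_or_gt (dist m b) (s : ℝ) with hb | hb <;>
    rcases le_or_gt (dist m c) (s : ℝ) with hc | hc
  · rw [cocInd_in (a := a) hc, cocInd_in (a := c) ha, cocInd_in (a := a) hb, cocInd_in (a := b) ha,
      cocInd_in (a := b) hc, cocInd_in (a := c) hb]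
    norm_num
  · rw [cocInd_out (b := a) hc, cocInd_in (a := a) hb, cocInd_in (a := b) ha,
      cocInd_out (b := b) hc, cocInd_snd ha hb hc hac hbc hab]
    ring
  · rw [cocInd_in (a := a) hc, cocInd_in (a := c) ha, cocInd_out (b := a) hb,
      cocInd_out (b := c) hb, cocInd_snd ha hc hb hab hcb hac]
    ring
  · rw [cocInd_out (b := a) hc, cocInd_out (b := a) hb, cocInd_out (b := c) hb,
      cocInd_out (b := b) hc, cocInd_fst ha hc hb hac hab hcb]
    ring
  · rw [cocInd_out (b := c) ha, cocInd_out (b := b) ha, cocInd_in (a := b) hc,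
      cocInd_in (a := c) hb, cocInd_snd hc hb ha hca hba hcb]
    ring
  · rw [cocInd_out (b := c) ha, cocInd_out (b := a) hc, cocInd_out (b := b) ha,
      cocInd_out (b := b) hc, cocInd_fst hb ha hc hba hbc hac]
    ring
  · rw [cocInd_out (b := c) ha, cocInd_out (b := b) ha, cocInd_out (b := a) hb,
      cocInd_out (b := c) hb, cocInd_fst hc ha hb hca hcb hab]
    ring
  · rw [cocInd_out (b := c) ha, cocInd_out (b := a) hc, cocInd_out (b := b) ha,
      cocInd_out (b := a) hb, cocInd_out (b := c) hb, cocInd_out (b := b) hc]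
    norm_num

/-- the jump of a potential along a radial chain -/
private theorem coc_jump {ρ : ℝ} (hρ : 2 ≤ ρ) {m q : X} {s : ℕ} {e : X × X} {d : ℕ → X}
    (hd : Radial m q d) (hq : (s : ℝ) + 1 ≤ dist m q) {f : X → ℤ}
    (hf : ∀ a b : X, dist a b ≤ ρ → cocInd ρ m s e a b - cocInd ρ m s e b a = f b - f a) :
    f q - f m = cocInd ρ m s e (d s) (d (s + 1)) := by
  have hstep : ∀ i : ℕ, (i : ℝ) + 1 ≤ dist m q → dist (d i) (d (i + 1)) ≤ ρ := by
    intro i hi
    have h1 := hd.step i (i + 1) (Nat.le_succ i) (by push_cast; exact hi)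
    push_cast at h1
    linarith
  have h0 : d 0 = m := by
    have h1 := hd.rad 0 (by push_cast; exact dist_nonneg)
    push_cast at h1
    exact (dist_eq_zero.mp h1).symm
  -- inside the ball
  have hin : ∀ i : ℕ, i ≤ s → f (d i) = f m := by
    intro i
    induction i with
    | zero => intro _; rw [h0]
    | succ i ih =>
      intro hi
      have hir : (i : ℝ) + 1 ≤ s := by exact_mod_cast hi
      have h1 := hf (d i) (d (i + 1)) (hstep i (by linarith))
      have h2 := hd.rad i (by linarith)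
      have h3 := hd.rad (i + 1) (by push_cast; linarith)
      push_cast at h3
      rw [cocInd_in (by rw [h3]; exact hir), cocInd_in (by rw [h2]; linarith)] at h1
      have h4 := ih (by omega)
      omega
  -- outside the ball
  have hout : ∀ i : ℕ, s + 1 ≤ i → (i : ℝ) ≤ dist m q → f (d i) = f (d (s + 1)) := by
    intro i hi
    induction i, hi using Nat.le_induction with
    | base => intro _; rfl
    | succ i hi ih =>
      intro hiq
      push_cast at hiq
      have hir : (s : ℝ) + 1 ≤ i := by exact_mod_cast hi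
      have h1 := hf (d i) (d (i + 1)) (hstep i hiq)
      have h2 := hd.rad i (by linarith)
      have h3 := hd.rad (i + 1) (by push_cast; linarith)
      push_cast at h3
      rw [cocInd_out (by rw [h2]; linarith), cocInd_out (by rw [h3]; linarith)] at h1
      have h4 := ih (by linarith)
      omega
  -- the last step
  have hn0 : (0 : ℝ) ≤ dist m q := dist_nonneg
  have hfl := Nat.floor_le hn0
  have hlt := Nat.lt_floor_add_one (dist m q)
  have hsn : s + 1 ≤ ⌊dist m q⌋₊ := by
    apply Nat.le_floor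
    push_cast
    exact hq
  have hsnr : (s : ℝ) + 1 ≤ (⌊dist m q⌋₊ : ℝ) := by exact_mod_cast hsn
  have hlast : f q = f (d ⌊dist m q⌋₊) := by
    have h1 := hd.tail ⌊dist m q⌋₊ hfl
    have h2 := hf (d ⌊dist m q⌋₊) q (by linarith)
    have h3 := hd.rad ⌊dist m q⌋₊ hfl
    rw [cocInd_out (by rw [h3]; linarith), cocInd_out (by linarith)] at h2
    omega
  have hmid := hf (d s) (d (s + 1)) (hstep s hq)
  have h5 := hd.rad (s + 1) (by push_cast; exact hq)
  push_cast at h5
  have h6 : cocInd ρ m s e (d (s + 1)) (d s) = 0 := cocInd_out (by rw [h5]; linarith)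
  have h7 := hin s le_rfl
  have h8 := hout ⌊dist m q⌋₊ hsn hfl
  rw [h6] at hmid
  omega

theorem same_class {ρ : ℝ} (hH : H1Trivial ρ X) (hρ : 2 ≤ ρ) {m p p' : X} {s : ℕ}
    {c c' : ℕ → X} (hc : Radial m p c) (hc' : Radial m p' c') (hp : (s : ℝ) + 1 ≤ dist m p)
    (hp' : (s : ℝ) + 1 ≤ dist m p') (hL : Link {z | (s : ℝ) < dist m z} ρ p p') :
    ECls ρ m s (c s, c (s + 1)) (c' s, c' (s + 1)) := by
  obtain ⟨f, hf⟩ := hH _ (cocInd_cocycle ρ m s (c s, c (s + 1)))
  have hlink : ∀ q : X, Link {z | (s : ℝ) < dist m z} ρ p q → f p = f q := by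
    intro q hq
    induction hq with
    | refl => rfl
    | @tail a b _ hab ih =>
      have ha : (s : ℝ) < dist m a := hab.1
      have hb : (s : ℝ) < dist m b := hab.2.1
      have h1 := hf a b hab.2.2
      simp only [cocInd_out ha, cocInd_out hb] at h1
      omega
  have hpp : f p = f p' := hlink p' hL
  have h1 := coc_jump hρ hc hp hf
  have h2 := coc_jump hρ hc' hp' hf
  have h3 : cocInd ρ m s (c s, c (s + 1)) (c s) (c (s + 1)) = 1 := by
    unfold cocInd
    rw [if_pos ⟨isTE_radial hρ hc hp, Relation.ReflTransGen.refl⟩]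
  have h4 : cocInd ρ m s (c s, c (s + 1)) (c' s) (c' (s + 1)) = 1 := by omega
  by_contra hcon
  unfold cocInd at h4
  rw [if_neg (fun hh => hcon hh.2)] at h4
  exact absurd h4 (by norm_num)

/-- a radial chain to `p'` crosses the row of a radial chain to `p` -/
theorem mem_row {ρ : ℝ} (hH : H1Trivial ρ X) (hρ : 2 ≤ ρ) {m p p' : X} {s : ℕ}
    {c c' : ℕ → X} (hc : Radial m p c) (hc' : Radial m p' c') (hp : (s : ℝ) + 1 ≤ dist m p)
    (hp' : (s : ℝ) + 1 ≤ dist m p') (hL : Link {z | (s : ℝ) < dist m z} ρ p p') :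
    c' s ∈ Row ρ m s (c s, c (s + 1)) :=
  ⟨_, same_class hH hρ hc hc' hp hp' hL, isTE_radial hρ hc' hp', Or.inl rfl⟩

end AG35
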