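import Pool.Agent.AG35.Geo2
import Pool.Agent.AG35.Coc

/-! # AG35.Data : failure of the bottleneck property gives coarse grids

Constants: `r0 = ⌈ρ⌉₊`, `V = M W + 2 r0 + a0 + 3` (as a real number),
`G = L + ρ + 2 V + 1` (use `max L 0` if you like), then `S0 ≥ a0` with
`2 (S0 : ℝ) ≥ N * G + 4`, `S = S0 + M W + r0 + 2`, `Δ = S + ρ + 1`.

`BP X Δ` fails: there are `x, y, m` with `dist x m + dist m y ≤ dist x y + 1` and a path `γ` from `x`
to `y` with `Δ < dist m (γ t)` for all `t`; in particular `dist m x > Δ`, `dist m y > Δ`. Let `σ`, `σ'` be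
radial chains from `m` to `x`, `y`. For `s ≤ S`: `Link {z | s < dist m z} ρ x y` (`link_of_path`), so
`σ' s ∈ Row ρ m s (σ s, σ (s+1))` (`mem_row`) and `σ s` is in it as well.
`dist (σ S) (σ' S) ≥ 2 S - 3`: indeed `dist x y ≤ dist x (σ S) + dist (σ S) (σ' S) + dist (σ' S) y`,
`dist (σ S) x ≤ dist m x - S + 1`, `dist (σ' S) y ≤ dist m y - S + 1`,
`dist x y ≥ dist x m + dist m y - 1`.

Columns: for `k < N` apply `Link.exists_at` in `Row ρ m S (σ S, σ (S+1))` (linked by `row_linked`) with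
`a = σ S`, `b = σ' S`, `T = k G`: points `p k` of this row with
`k G ≤ dist (σ S) (p k) ≤ k G + ρ`, so `dist (p k) (p l) ≥ G - ρ` for `k ≠ l`. Let `c k` be a radial
chain from `m` to `p k`. By `row_shell` `S - ρ < dist m (p k) ≤ S + ρ`, so `c k i` is good for all
`i ≤ S0 + M W + 1`, and for `S0 ≤ i + a0`:
`dist (c k i) (p k) ≤ S + ρ - i + 1 ≤ V`. Hence `far`.

Rows: `Y j = Row ρ m (S0 + j W) (σ (S0 + j W), σ (S0 + j W + 1))`, linked by `row_linked`, shell by
`row_shell`. `mem`: `mem_row` with `p = x`, `p' = p k`, `s = S0 + j W`: `p k` is linked to `σ S`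
in the row at `S`, all of whose points have `dist m z > S - ρ ≥ s`; `σ S` is linked to `x` outside the
ball of radius `s` along the radial chain (`dist (σ i) (σ (i+1)) ≤ 2 ≤ ρ`, `dist m (σ i) = i > s`,
last step from `σ ⌊dist m x⌋₊` to `x` of length `≤ 2`).
-/

namespace AG35

open Set

variable {X : Type*} [MetricSpace X]

/-- the radial chain joins its point at height `S` to its end outside a smaller ball -/
private theorem data_radial_link {ρ : ℝ} (hρ : 2 ≤ ρ) {m x : X} {c : ℕ → X} (hc : Radial m x c)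
    {s S : ℕ} (hs : s < S) (hS : (S : ℝ) ≤ dist m x) :
    Link {z | (s : ℝ) < dist m z} ρ (c S) x := by
  have hmem : ∀ i : ℕ, S ≤ i → (i : ℝ) ≤ dist m x → c i ∈ {z | (s : ℝ) < dist m z} := by
    intro i hi hix
    show (s : ℝ) < dist m (c i)
    rw [hc.rad i hix]
    exact_mod_cast lt_of_lt_of_le hs hi
  have hchain : ∀ n : ℕ, ((S + n : ℕ) : ℝ) ≤ dist m x →
      Link {z | (s : ℝ) < dist m z} ρ (c S) (c (S + n)) := by
    intro n
    induction n with
    | zero => intro _; exact Link.refl _ _ _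
    | succ n ih =>
      intro hn
      have hn' : ((S + n : ℕ) : ℝ) ≤ dist m x := by
        refine le_trans ?_ hn
        push_cast
        linarith
      refine Link.trans (ih hn') (Link.single (hmem _ (by omega) hn') (hmem _ (by omega) hn) ?_)
      have := hc.step (S + n) (S + (n + 1)) (by omega) hn
      push_cast at this
      linarith
  have hfl : (⌊dist m x⌋₊ : ℝ) ≤ dist m x := Nat.floor_le dist_nonneg
  have hfl2 : dist m x < (⌊dist m x⌋₊ : ℝ) + 1 := Nat.lt_floor_add_one _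
  have hSf : S ≤ ⌊dist m x⌋₊ := Nat.le_floor hS
  obtain ⟨n, hn⟩ := Nat.exists_eq_add_of_le hSf
  have h1 := hchain n (by rw [← hn]; exact hfl)
  rw [← hn] at h1
  refine Link.trans h1 (Link.single (hmem _ hSf hfl) ?_ ?_)
  · show (s : ℝ) < dist m x
    have : (s : ℝ) < S := by exact_mod_cast hs
    linarith
  · have := hc.tail _ hfl
    linarith

theorem exists_data (hX : IsLengthSpace X) {ρ : ℝ} (hρ : 2 ≤ ρ) (hH : H1Trivial ρ X)
    (hB : ∀ Δ : ℝ, ¬ BP X Δ) (N M a0 W : ℕ) (L : ℝ) :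
    ∃ (m : X) (S0 : ℕ) (Y : ℕ → Set X) (c : ℕ → ℕ → X),
      a0 ≤ S0 ∧ GridData m ρ N M a0 W S0 L Y c := by
  obtain ⟨r0, hr0⟩ : ∃ r : ℕ, r = ⌈ρ⌉₊ := ⟨_, rfl⟩
  have hr0' : ρ ≤ r0 := by rw [hr0]; exact Nat.le_ceil ρ
  obtain ⟨V, hV⟩ : ∃ V : ℝ, V = (M : ℝ) * W + 2 * r0 + a0 + 3 := ⟨_, rfl⟩
  have hV0 : 0 ≤ V := by rw [hV]; positivity
  obtain ⟨G, hG⟩ : ∃ G : ℝ, G = max L 0 + ρ + 2 * V + 1 := ⟨_, rfl⟩
  have hG0 : 0 ≤ G := by
    have := le_max_right L 0
    rw [hG]; linarith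
  obtain ⟨S0, hS0⟩ : ∃ S0 : ℕ, S0 = a0 + ⌈(N : ℝ) * G + 4⌉₊ := ⟨_, rfl⟩
  have hS0a : a0 ≤ S0 := by omega
  have hS0b : (N : ℝ) * G + 4 ≤ S0 := by
    have h1 := Nat.le_ceil ((N : ℝ) * G + 4)
    rw [hS0]
    push_cast
    have : (0 : ℝ) ≤ a0 := Nat.cast_nonneg _
    linarith
  obtain ⟨S, hS⟩ : ∃ S : ℕ, S = S0 + M * W + r0 + 2 := ⟨_, rfl⟩
  have hSr : (S : ℝ) = S0 + (M : ℝ) * W + r0 + 2 := by rw [hS]; push_cast; ring
  have hNG0 : 0 ≤ (N : ℝ) * G := mul_nonneg (Nat.cast_nonneg _) hG0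
  have hMW0 : 0 ≤ (M : ℝ) * W := by positivity
  obtain ⟨x, y, m, hxy, γ, hγ⟩ : ∃ x y m : X, dist x m + dist m y ≤ dist x y + 1 ∧
      ∃ γ : Path x y, ∀ t, (S : ℝ) + ρ + 1 < dist m (γ t) := by
    have := hB ((S : ℝ) + ρ + 1)
    unfold BP at this
    push Not at this
    obtain ⟨x, y, m, h1, γ, h2⟩ := this
    exact ⟨x, y, m, h1, γ, h2⟩
  have hmx : (S : ℝ) + ρ + 1 < dist m x := by have := hγ 0; rwa [γ.source] at this
  have hmy : (S : ℝ) + ρ + 1 < dist m y := by have := hγ 1; rwa [γ.target] at this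
  obtain ⟨σ, hσ⟩ := exists_radial hX m x
  obtain ⟨σ', hσ'⟩ := exists_radial hX m y
  have hlink : Link {z | ((S : ℕ) : ℝ) < dist m z} ρ x y := by
    refine link_of_path γ (fun t => ?_) (by linarith)
    show (S : ℝ) < dist m (γ t)
    have := hγ t
    linarith
  have hσ'mem : σ' S ∈ Row ρ m S (σ S, σ (S + 1)) :=
    mem_row hH hρ hσ hσ' (by linarith) (by linarith) hlink
  have hTE : ∀ s : ℕ, s ≤ S → IsTE ρ m s (σ s, σ (s + 1)) := by
    intro s hs
    refine isTE_radial hρ hσ ?_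
    have : (s : ℝ) ≤ S := by exact_mod_cast hs
    linarith
  have hσmem : σ S ∈ Row ρ m S (σ S, σ (S + 1)) :=
    ⟨_, Relation.ReflTransGen.refl, hTE S le_rfl, Or.inl rfl⟩
  have hdist : 2 * (S : ℝ) - 3 ≤ dist (σ S) (σ' S) := by
    have h1 := dist_triangle4 x (σ S) (σ' S) y
    have h2 := hσ.tail S (by linarith)
    have h3 := hσ'.tail S (by linarith)
    rw [dist_comm x (σ S)] at h1
    rw [dist_comm x m] at hxy
    linarith
  have hSlink := row_linked (by linarith : (0 : ℝ) ≤ ρ) (hTE S le_rfl)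
  have hcol : ∀ k : ℕ, ∃ p : X, k < N → p ∈ Row ρ m S (σ S, σ (S + 1)) ∧
      Link (Row ρ m S (σ S, σ (S + 1))) ρ (σ S) p ∧
      (k : ℝ) * G ≤ dist (σ S) p ∧ dist (σ S) p ≤ k * G + ρ := by
    intro k
    by_cases hk : k < N
    · have hkG : (k : ℝ) * G ≤ N * G :=
        mul_le_mul_of_nonneg_right (by exact_mod_cast hk.le) hG0
      obtain ⟨p, h1, h2, h3, h4⟩ := Link.exists_at (by linarith : (0 : ℝ) ≤ ρ)
        (hSlink _ hσmem _ hσ'mem) hσmem (T := (k : ℝ) * G)
        (mul_nonneg (Nat.cast_nonneg _) hG0) (by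
          have : (0 : ℝ) ≤ r0 := Nat.cast_nonneg _
          linarith)
      exact ⟨p, fun _ => ⟨h1, h2, h3, h4⟩⟩
    · exact ⟨x, fun h => absurd h hk⟩
  choose p hp using hcol
  choose c hc using fun k : ℕ => exists_radial hX m (p k)
  have hshell : ∀ k < N, (S : ℝ) - ρ < dist m (p k) ∧ dist m (p k) ≤ S + ρ :=
    fun k hk => row_shell (hp k hk).1
  have hheight : ∀ k < N, ∀ i : ℕ, i ≤ S0 + M * W + 1 → (i : ℝ) ≤ dist m (p k) := by
    intro k hk i hi
    have h1 := (hshell k hk).1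
    have h2 : (i : ℝ) ≤ S0 + (M : ℝ) * W + 1 := by exact_mod_cast hi
    linarith
  have hfarp : ∀ k < N, ∀ l < N, k < l → G - ρ ≤ dist (p k) (p l) := by
    intro k hk l hl hkl
    have h1 := (hp k hk).2.2.2
    have h2 := (hp l hl).2.2.1
    have h3 := dist_triangle (σ S) (p k) (p l)
    have h4 : ((k : ℝ) + 1) * G ≤ l * G :=
      mul_le_mul_of_nonneg_right (by exact_mod_cast hkl) hG0
    linarith
  have hfarp' : ∀ k < N, ∀ l < N, k ≠ l → G - ρ ≤ dist (p k) (p l) := by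
    intro k hk l hl hkl
    rcases lt_or_gt_of_ne hkl with h | h
    · exact hfarp k hk l hl h
    · rw [dist_comm]; exact hfarp l hl k hk h
  have hclose : ∀ k < N, ∀ i : ℕ, S0 ≤ i + a0 → i ≤ S0 + M * W → dist (c k i) (p k) ≤ V := by
    intro k hk i hi hi'
    have h1 := (hc k).tail i (hheight k hk i (by omega))
    have h2 := (hshell k hk).2
    have h3 : (S0 : ℝ) ≤ i + a0 := by exact_mod_cast hi
    rw [hV]
    linarith
  have hrowle : ∀ j < M, S0 + j * W ≤ S0 + M * W := fun j hj =>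
    Nat.add_le_add_left (Nat.mul_le_mul_right _ hj.le) _
  refine ⟨m, S0, fun j => Row ρ m (S0 + j * W) (σ (S0 + j * W), σ (S0 + j * W + 1)), c, hS0a,
    ?_, ?_, ?_, ?_, ?_, ?_⟩
  · intro j hj
    have := hrowle j hj
    exact row_linked (by linarith) (hTE _ (by omega))
  · intro j hj z hz
    have h := row_shell hz
    rw [abs_le]
    constructor <;> linarith [h.1, h.2]
  · intro k hk i hi
    exact (hc k).rad i (hheight k hk i (by omega))
  · intro k hk i i' hii' hi'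
    exact (hc k).step i i' hii' (hheight k hk i' (by omega))
  · intro k hk j hj
    have hj1 := hrowle j hj
    have hjS : S0 + j * W < S := by omega
    have hjS' : ((S0 + j * W : ℕ) : ℝ) < S := by exact_mod_cast hjS
    refine mem_row hH hρ hσ (hc k) (by linarith) ?_ ?_
    · have := hheight k hk (S0 + j * W + 1) (by omega)
      push_cast at this ⊢
      exact this
    · refine Link.trans (Link.symm (data_radial_link hρ hσ hjS (by linarith))) ?_
      refine Link.mono ?_ le_rfl (hp k hk).2.1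
      intro z hz
      show ((S0 + j * W : ℕ) : ℝ) < dist m z
      have h1 := (row_shell hz).1
      have h2 : ((S0 + j * W : ℕ) : ℝ) ≤ S0 + (M : ℝ) * W := by exact_mod_cast hj1
      linarith
  · intro k hk l hl hkl i i' hi1 hi2 hi'1 hi'2
    have h1 := hfarp' k hk l hl hkl
    have h2 := hclose k hk i hi1 hi2
    have h3 := hclose l hl i' hi'1 hi'2
    have h4 := dist_triangle4 (p k) (c k i) (c l i') (p l)
    rw [dist_comm (p k) (c k i)] at h4
    have h5 := le_max_left L 0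
    linarith

end AG35
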