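import Pool.Agent.AG35.Stmt

/-! # MP_ae599a_gt (AG35): auxiliary definitions -/

namespace AG35

open Set

/-- the first integral cohomology of the Rips complex at scale `ρ` vanishes -/
def H1Trivial (ρ : ℝ) (X : Type*) [MetricSpace X] : Prop :=
  ∀ z : X → X → ℤ, IsCocycle ρ z → IsCob ρ z

section

variable {X : Type*} [MetricSpace X]

/-- `x`, `y` are joined by a chain in `A` with steps at most `J` -/
def Link (A : Set X) (J : ℝ) (x y : X) : Prop :=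
  Relation.ReflTransGen (fun a b => a ∈ A ∧ b ∈ A ∧ dist a b ≤ J) x y

/-- any two points of `A` are joined by a chain in `A` with steps at most `J` -/
def IsLinked (A : Set X) (J : ℝ) : Prop := ∀ x ∈ A, ∀ y ∈ A, Link A J x y

/-- a radial chain from `m` to `p`: points `c i` at distance exactly `i` from `m` lying on one
path from `m` to `p` of length at most `dist m p + 1` -/
structure Radial (m p : X) (c : ℕ → X) : Prop where
  rad : ∀ i : ℕ, (i : ℝ) ≤ dist m p → dist m (c i) = i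
  step : ∀ i j : ℕ, i ≤ j → (j : ℝ) ≤ dist m p → dist (c i) (c j) ≤ ((j : ℝ) - i) + 1
  tail : ∀ i : ℕ, (i : ℝ) ≤ dist m p → dist (c i) p ≤ dist m p - i + 1

/-- the bottleneck property with constant `Δ` -/
def BP (X : Type*) [MetricSpace X] (Δ : ℝ) : Prop :=
  ∀ x y m : X, dist x m + dist m y ≤ dist x y + 1 → ∀ γ : Path x y, ∃ t, dist m (γ t) ≤ Δ

/-- transition edges of the ball of radius `s` about `m` -/
def IsTE (ρ : ℝ) (m : X) (s : ℕ) (e : X × X) : Prop :=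
  dist e.1 e.2 ≤ ρ ∧ dist m e.1 ≤ s ∧ (s : ℝ) < dist m e.2

/-- elementary moves of transition edges across a Rips triangle -/
def EStep (ρ : ℝ) (m : X) (s : ℕ) (e e' : X × X) : Prop :=
  IsTE ρ m s e ∧ IsTE ρ m s e' ∧
    ((e.1 = e'.1 ∧ dist e.2 e'.2 ≤ ρ) ∨ (e.2 = e'.2 ∧ dist e.1 e'.1 ≤ ρ))

/-- the equivalence relation generated by the elementary moves -/
def ECls (ρ : ℝ) (m : X) (s : ℕ) : X × X → X × X → Prop := Relation.ReflTransGen (EStep ρ m s)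

/-- the end points of the transition edges in the class of `e` -/
def Row (ρ : ℝ) (m : X) (s : ℕ) (e : X × X) : Set X :=
  {x | ∃ e', ECls ρ m s e e' ∧ IsTE ρ m s e' ∧ (x = e'.1 ∨ x = e'.2)}

/-- a coarse grid: `M` linked rows `Y j` at the heights `S0 + j W` above `m`, and `N` radial columns
`c k` which are mutually far and cross all rows -/
structure GridData (m : X) (ρ : ℝ) (N M a0 W S0 : ℕ) (L : ℝ) (Y : ℕ → Set X) (c : ℕ → ℕ → X) :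
    Prop where
  rowL : ∀ j < M, IsLinked (Y j) ρ
  rowS : ∀ j < M, ∀ y ∈ Y j, |dist m y - ((S0 + j * W : ℕ) : ℝ)| ≤ ρ
  colR : ∀ k < N, ∀ i ≤ S0 + M * W, dist m (c k i) = i
  colD : ∀ k < N, ∀ i i' : ℕ, i ≤ i' → i' ≤ S0 + M * W →
    dist (c k i) (c k i') ≤ ((i' : ℝ) - i) + 1
  mem : ∀ k < N, ∀ j < M, c k (S0 + j * W) ∈ Y j
  far : ∀ k < N, ∀ l < N, k ≠ l → ∀ i i' : ℕ, S0 ≤ i + a0 → i ≤ S0 + M * W → S0 ≤ i' + a0 →
    i' ≤ S0 + M * W → L ≤ dist (c k i) (c l i')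

/-- a fat model of a connected incidence structure inside one row: hubs `C S` (`S ∈ 𝓜`), balls
`E k` around the points `t k` (`k < N`), and connectors `P k S` (`k ∈ S`) -/
structure RowModel (Y : Set X) (N : ℕ) (t : ℕ → X) (K a h : ℝ) (𝓜 : Finset (Finset ℕ))
    (C : Finset ℕ → Set X) (E : ℕ → Set X) (P : ℕ → Finset ℕ → Set X) : Prop where
  sub : ∀ S ∈ 𝓜, S ⊆ Finset.range N
  conn : ∀ k < N, ∀ l < N, Relation.ReflTransGen (fun k l => ∃ S ∈ 𝓜, k ∈ S ∧ l ∈ S) k l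
  Cpc : ∀ S ∈ 𝓜, IsPathConnected (C S)
  Cnear : ∀ S ∈ 𝓜, ∀ z ∈ C S, ∃ y ∈ Y, dist z y ≤ h
  Cout : ∀ S ∈ 𝓜, ∀ z ∈ C S, ∀ k < N, a - h ≤ dist (t k) z
  Cfar : ∀ S ∈ 𝓜, ∀ S' ∈ 𝓜, S ≠ S' → ∀ z ∈ C S, ∀ z' ∈ C S', K ≤ dist z z'
  Epc : ∀ k < N, IsPathConnected (E k)
  Et : ∀ k < N, t k ∈ E k
  Ein : ∀ k < N, ∀ z ∈ E k, dist (t k) z ≤ a
  ECfar : ∀ k < N, ∀ S ∈ 𝓜, ∀ z ∈ E k, ∀ z' ∈ C S, K ≤ dist z z'
  Ppc : ∀ S ∈ 𝓜, ∀ k ∈ S, IsPathConnected (P k S)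
  PE : ∀ S ∈ 𝓜, ∀ k ∈ S, (P k S ∩ E k).Nonempty
  PC : ∀ S ∈ 𝓜, ∀ k ∈ S, (P k S ∩ C S).Nonempty
  Pnear : ∀ S ∈ 𝓜, ∀ k ∈ S, ∀ z ∈ P k S, ∃ y ∈ Y, dist z y ≤ h
  Pout : ∀ S ∈ 𝓜, ∀ k ∈ S, ∀ z ∈ P k S, a - h ≤ dist (t k) z ∧ dist (t k) z ≤ a + h
  PCfar : ∀ S ∈ 𝓜, ∀ k ∈ S, ∀ S' ∈ 𝓜, S' ≠ S → ∀ z ∈ P k S, ∀ z' ∈ C S', K ≤ dist z z'
  PPfar : ∀ S ∈ 𝓜, ∀ S' ∈ 𝓜, S ≠ S' → ∀ k ∈ S, k ∈ S' →
    ∀ z ∈ P k S, ∀ z' ∈ P k S', K ≤ dist z z'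

/-- a `K`-fat model of the graph `G` restricted to the vertex set `D`; the connectors `P u v` are
path connected sets that meet both branch sets -/
structure FatOn {V : Type*} (G : SimpleGraph V) (D : Set V) (K : ℝ) (B : V → Set X)
    (P : V → V → Set X) : Prop where
  pcB : ∀ v ∈ D, IsPathConnected (B v)
  pcP : ∀ u ∈ D, ∀ v ∈ D, G.Adj u v → IsPathConnected (P u v)
  symm : ∀ u v, P u v = P v u
  meet : ∀ u ∈ D, ∀ v ∈ D, G.Adj u v → (P u v ∩ B u).Nonempty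
  BB : ∀ u ∈ D, ∀ v ∈ D, u ≠ v → ∀ x ∈ B u, ∀ y ∈ B v, K ≤ dist x y
  PB : ∀ u ∈ D, ∀ v ∈ D, G.Adj u v → ∀ w ∈ D, w ≠ u → w ≠ v →
    ∀ x ∈ P u v, ∀ y ∈ B w, K ≤ dist x y
  PP : ∀ u ∈ D, ∀ v ∈ D, G.Adj u v → ∀ u' ∈ D, ∀ v' ∈ D, G.Adj u' v' → s(u, v) ≠ s(u', v') →
    ∀ x ∈ P u v, ∀ y ∈ P u' v', K ≤ dist x y

end

/-! ### graphs -/

section

variable {V : Type*}

/-- `x`, `y` are joined by a walk inside `A` -/
def GLink (G : SimpleGraph V) (A : Set V) (x y : V) : Prop :=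
  Relation.ReflTransGen (fun a b => a ∈ A ∧ b ∈ A ∧ G.Adj a b) x y

/-- `A` is nonempty and connected in `G` -/
def GConn (G : SimpleGraph V) (A : Set V) : Prop := A.Nonempty ∧ ∀ x ∈ A, ∀ y ∈ A, GLink G A x y

/-- a minor model of `H` in `G` with branch sets inside `D` -/
structure MinorModel {W : Type*} (H : SimpleGraph W) (G : SimpleGraph V) (D : Set V)
    (φ : W → Set V) : Prop where
  sub : ∀ w, φ w ⊆ D
  conn : ∀ w, GConn G (φ w)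
  disj : ∀ w w', w ≠ w' → Disjoint (φ w) (φ w')
  adj : ∀ w w', H.Adj w w' → ∃ v ∈ φ w, ∃ v' ∈ φ w', G.Adj v v'

/-- star pattern in `A` on the labels in `Λ`: a centre and disjoint leaves containing the
terminals `τ k`, `k ∈ Λ` -/
def StarOn (G : SimpleGraph V) (A : Set V) (τ : ℕ → V) (Λ : Finset ℕ) : Prop :=
  ∃ (C : Set V) (L : ℕ → Set V), GConn G C ∧ C ⊆ A ∧
    (∀ k ∈ Λ, GConn G (L k) ∧ L k ⊆ A ∧ τ k ∈ L k ∧ Disjoint C (L k) ∧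
      ∃ x ∈ C, ∃ y ∈ L k, G.Adj x y) ∧
    ∀ k ∈ Λ, ∀ l ∈ Λ, k ≠ l → Disjoint (L k) (L l)

/-- path pattern in `A` on the list of labels `l`: disjoint connected sets containing the
terminals, consecutive ones adjacent -/
def PathOn (G : SimpleGraph V) (A : Set V) (τ : ℕ → V) (l : List ℕ) : Prop :=
  ∃ L : ℕ → Set V, (∀ k ∈ l, GConn G (L k) ∧ L k ⊆ A ∧ τ k ∈ L k) ∧
    (∀ k ∈ l, ∀ k' ∈ l, k ≠ k' → Disjoint (L k) (L k')) ∧
    l.IsChain (fun k k' => ∃ x ∈ L k, ∃ y ∈ L k', G.Adj x y)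

/-- `M` disjoint connected rows `R j` in `G`, each with terminals `τ j k` (`k < N`), the terminals
with equal `k` in consecutive rows being adjacent -/
structure Rows (G : SimpleGraph V) (M N : ℕ) (R : ℕ → Set V) (τ : ℕ → ℕ → V) : Prop where
  conn : ∀ j < M, GConn G (R j)
  disj : ∀ i < M, ∀ j < M, i ≠ j → Disjoint (R i) (R j)
  mem : ∀ j < M, ∀ k < N, τ j k ∈ R j
  inj : ∀ j < M, ∀ k < N, ∀ l < N, τ j k = τ j l → k = l
  col : ∀ j, j + 1 < M → ∀ k < N, G.Adj (τ j k) (τ (j + 1) k)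

end

/-- the incidence graph: `(j, inl k)` is the ball of column `k` in row `j`, `(j, inr S)` is the hub
`S` in row `j` -/
def incGraph : SimpleGraph (ℕ × (ℕ ⊕ Finset ℕ)) where
  Adj u v := (∃ j k S, k ∈ S ∧ ((u = (j, Sum.inl k) ∧ v = (j, Sum.inr S)) ∨
      (v = (j, Sum.inl k) ∧ u = (j, Sum.inr S)))) ∨
    (∃ j k, (u = (j, Sum.inl k) ∧ v = (j + 1, Sum.inl k)) ∨
      (v = (j, Sum.inl k) ∧ u = (j + 1, Sum.inl k)))
  symm := ⟨by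
    rintro u v (⟨j, k, S, h, h'⟩ | ⟨j, k, h⟩)
    · exact Or.inl ⟨j, k, S, h, h'.symm⟩
    · exact Or.inr ⟨j, k, h.symm⟩⟩
  loopless := ⟨by
    rintro u (⟨j, k, S, _, h | h⟩ | ⟨j, k, h | h⟩)
    · have := h.1.symm.trans h.2; simp at this
    · have := h.1.symm.trans h.2; simp at this
    · have := h.1.symm.trans h.2; simp at this
    · have := h.1.symm.trans h.2; simp at this⟩

/-- the vertices of the incidence graph that are used -/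
def incDom (N M : ℕ) (𝓜 : ℕ → Finset (Finset ℕ)) : Set (ℕ × (ℕ ⊕ Finset ℕ)) :=
  {v | v.1 < M ∧ ((∃ k < N, v.2 = Sum.inl k) ∨ ∃ S ∈ 𝓜 v.1, v.2 = Sum.inr S)}

end AG35
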