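import Pool.Agent.AG35.GRam

/-! # AG35.GInc : the rows of the incidence graph

For `j < M` let `Z j` be the set of the vertices `(j, x)` of `incDom N M 𝓜`, `τ j k = (j, inl k)` and
`R j = {v | GLink incGraph (Z j) (j, inl 0) v}` (a subset of `Z j`, connected). For `k < N` we have
`τ j k ∈ R j`: by induction on the relation of the hypothesis `hconn` from `0` to `k`: if `k, l ∈ S ∈ 𝓜 j`
(so `k, l < N` by `hsub`) then `(j, inl k) - (j, inr S) - (j, inl l)` is a walk in `Z j`.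
`Rows` follows; the rows are disjoint because the first coordinates differ. The model given by
`exists_grid_of_rows` lies in `⋃ j < M, R j ⊆ incDom N M 𝓜`.
-/

namespace AG35

open Set

private theorem ginc_class_conn {V : Type*} {G : SimpleGraph V} {B : Set V} {a : V} :
    GConn G {v | GLink G B a v} := by
  have key : ∀ v, GLink G B a v → GLink G {v | GLink G B a v} a v := by
    intro v hv
    induction hv with
    | refl => exact Relation.ReflTransGen.refl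
    | tail h1 h2 ih =>
      exact Relation.ReflTransGen.tail ih ⟨h1, Relation.ReflTransGen.tail h1 h2, h2.2.2⟩
  exact ⟨⟨a, Relation.ReflTransGen.refl⟩, fun x hx y hy =>
    Relation.ReflTransGen.trans (key x hx).symm (key y hy)⟩

private theorem ginc_mem {V : Type*} {G : SimpleGraph V} {B : Set V} {a v : V} (ha : a ∈ B)
    (h : GLink G B a v) : v ∈ B := by
  induction h with
  | refl => exact ha
  | tail _ h2 _ => exact h2.2.1

theorem exists_grid_model (n : ℕ) : ∃ N M : ℕ, 0 < N ∧ 0 < M ∧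
    ∀ 𝓜 : ℕ → Finset (Finset ℕ), (∀ j < M, ∀ S ∈ 𝓜 j, S ⊆ Finset.range N) →
      (∀ j < M, ∀ k < N, ∀ l < N,
        Relation.ReflTransGen (fun k l => ∃ S ∈ 𝓜 j, k ∈ S ∧ l ∈ S) k l) →
      ∃ φ : Fin n × Fin n → Set (ℕ × (ℕ ⊕ Finset ℕ)),
        MinorModel (gridGraph n) incGraph (incDom N M 𝓜) φ := by
  obtain ⟨N, M, hN, hM, H⟩ := exists_grid_of_rows n
  refine ⟨N, M, hN, hM, fun 𝓜 hsub hconn => ?_⟩
  let Z : ℕ → Set (ℕ × (ℕ ⊕ Finset ℕ)) := fun j => {v | v ∈ incDom N M 𝓜 ∧ v.1 = j}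
  let τ : ℕ → ℕ → ℕ × (ℕ ⊕ Finset ℕ) := fun j k => (j, Sum.inl k)
  let R : ℕ → Set (ℕ × (ℕ ⊕ Finset ℕ)) := fun j => {v | GLink incGraph (Z j) (τ j 0) v}
  have hτZ : ∀ j < M, ∀ k < N, τ j k ∈ Z j := fun j hj k hk =>
    ⟨⟨hj, Or.inl ⟨k, hk, rfl⟩⟩, rfl⟩
  have hRZ : ∀ j < M, R j ⊆ Z j := fun j hj v hv => ginc_mem (hτZ j hj 0 hN) hv
  have hτR : ∀ j < M, ∀ k < N, τ j k ∈ R j := by
    intro j hj k hk
    have h0 := hconn j hj 0 hN k hk
    induction h0 with
    | refl => exact Relation.ReflTransGen.refl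
    | @tail b c h1 h2 ih =>
      obtain ⟨S, hS, hb, hc⟩ := h2
      have hbN : b < N := Finset.mem_range.1 (hsub j hj S hS hb)
      have hSZ : ((j, Sum.inr S) : ℕ × (ℕ ⊕ Finset ℕ)) ∈ Z j :=
        ⟨⟨hj, Or.inr ⟨S, hS, rfl⟩⟩, rfl⟩
      have e1 : incGraph.Adj (τ j b) (j, Sum.inr S) :=
        Or.inl ⟨j, b, S, hb, Or.inl ⟨rfl, rfl⟩⟩
      have e2 : incGraph.Adj (j, Sum.inr S) (τ j c) :=
        Or.inl ⟨j, c, S, hc, Or.inr ⟨rfl, rfl⟩⟩
      exact Relation.ReflTransGen.tail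
        (Relation.ReflTransGen.tail (ih hbN) ⟨hτZ j hj b hbN, hSZ, e1⟩)
        ⟨hSZ, hτZ j hj c hk, e2⟩
  have hrows : Rows incGraph M N R τ := by
    refine ⟨fun j _ => ginc_class_conn, ?_, hτR, ?_, ?_⟩
    · intro i hi j hj hij
      rw [Set.disjoint_left]
      intro v hv hv'
      exact hij ((hRZ i hi hv).2.symm.trans (hRZ j hj hv').2)
    · intro j _ k _ l _ h
      have := congrArg Prod.snd h
      exact Sum.inl.inj this
    · intro j _ k _
      exact Or.inr ⟨j, k, Or.inl ⟨rfl, rfl⟩⟩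
  obtain ⟨φ, hφ⟩ := H incGraph R τ hrows
  refine ⟨φ, ⟨fun w v hv => ?_, hφ.conn, hφ.disj, hφ.adj⟩⟩
  have := hφ.sub w hv
  simp only [Set.mem_iUnion, Set.mem_Iio, exists_prop] at this
  obtain ⟨j, hj, hvj⟩ := this
  exact (hRZ j hj hvj).1

end AG35
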