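import Pool.Agent.AG35.RM1
import Pool.Agent.AG35.Geo2

/-! # AG35.RM2 : the fat model inside one row

Let `J 0 = max ρ 0`, `J (i+1) = 8 (J i) + 4 K + 16` (`K ≥ 0`), `h = J (2^N + 1)`. `J` is monotone and `≥ 0`. Given
`a ≥ h`, `Y`, `t` take `i ≤ 2^N` from `exists_scale` and write `J = J i`, `J' = J (i+1) = 8 J + 4 K + 16 ≤ h`,
`𝓜 = MaxTypes Y N t a J`. For `S ∈ 𝓜` choose `y S ∈ OutSet` with `Touch J (y S) = S`
(`maxTypes_touch`), `Z S = {z | Link OutSet J (y S) z}` (contained in `OutSet`, linked with step `J`), and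
`C S` a `hull` of `Z S`: every point of `C S` is within `J/2+1` of a point of `Z S`. For `k ∈ S` there is
`u k S ∈ Z S` with `a < dist (t k) (u k S) ≤ a + J`. Apply `split_path` to `t k`, `u k S`, `q = J'/4`
(`≤ a < dist (t k) (u k S)`): `P k S` and `E' k S`. `E k = {t k} ∪ ⋃ S ∈ 𝓜, k ∈ S, E' k S`
(path connected: all pieces contain `t k`).

Checks: `Cnear` `J/2+1 ≤ h`. `Cout`: `dist (t k) z > a - J/2 - 1 ≥ a - h`. `Cfar`: by `sep` the points of `Z S`, `Z S'`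
have distance `> J'`, so `≥ J' - J - 2 ≥ K`. `Ein`: on `E' k S`
`dist (t k) z ≤ a + J + 1 - J'/4 ≤ a`. `ECfar`:
`(a - J/2 - 1) - (a + J + 1 - J'/4) = J'/4 - 3J/2 - 2 ≥ K` (also for the point `t k`: `a - J/2 - 1 ≥ K`).
`PE`, `PC` (`u k S ∈ P k S ∩ C S`). `Pnear`: `dist (u k S) z ≤ J'/4 ≤ h`. `Pout`:
`a - J'/4 ≤ dist (t k) z ≤ a + J + J'/4 ≤ a + h`. `PCfar`: `J' - J'/4 - (J/2+1) ≥ K`. `PPfar`:
`J' - J'/2 ≥ K`. `conn`: `maxTypes_conn`. `sub`: members of `Types` are subsets of `range N`.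
-/

namespace AG35

open Set Classical

variable {X : Type*} [MetricSpace X]

/-- the scales -/
private noncomputable def rm2J (ρ K : ℝ) : ℕ → ℝ
  | 0 => max ρ 0
  | n + 1 => 8 * rm2J ρ K n + 4 * K + 16

private theorem rm2J_succ (ρ K : ℝ) (n : ℕ) :
    rm2J ρ K (n + 1) = 8 * rm2J ρ K n + 4 * K + 16 := rfl

private theorem rm2J_nonneg {ρ K : ℝ} (hK : 0 ≤ K) (n : ℕ) : 0 ≤ rm2J ρ K n := by
  induction n with
  | zero => exact le_max_right _ _
  | succ n ih => rw [rm2J_succ]; linarith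

private theorem rm2J_mono {ρ K : ℝ} (hK : 0 ≤ K) : Monotone (rm2J ρ K) := by
  apply monotone_nat_of_le_succ
  intro n
  have := rm2J_nonneg (ρ := ρ) hK n
  rw [rm2J_succ]
  linarith

private theorem rm2J_ge {ρ K : ℝ} (hK : 0 ≤ K) (n : ℕ) : ρ ≤ rm2J ρ K n :=
  (le_max_left ρ 0).trans (rm2J_mono hK (Nat.zero_le n))

private theorem rm2_linked {A : Set X} {J : ℝ} {y : X} {x : X} (h : Link A J y x) :
    Link {z | Link A J y z} J y x := by
  induction h with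
  | refl => exact Link.refl _ _ _
  | tail hab hbc ih => exact Relation.ReflTransGen.tail ih ⟨hab, hab.tail hbc, hbc.2.2⟩

theorem exists_rowModel (hX : IsLengthSpace X) (N : ℕ) {K : ℝ} (hK : 0 ≤ K) (ρ : ℝ) :
    ∃ h : ℝ, 0 ≤ h ∧ ∀ a : ℝ, h ≤ a → ∀ (Y : Set X) (t : ℕ → X), IsLinked Y ρ →
      (∀ k < N, t k ∈ Y) → (∀ k < N, ∀ l < N, k ≠ l → 2 * a + h < dist (t k) (t l)) →
      ∃ (𝓜 : Finset (Finset ℕ)) (C : Finset ℕ → Set X) (E : ℕ → Set X)
        (P : ℕ → Finset ℕ → Set X), RowModel Y N t K a h 𝓜 C E P := by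
  refine ⟨rm2J ρ K (2 ^ N + 1), rm2J_nonneg hK _, ?_⟩
  intro a hha Y t hY ht hfar
  haveI : Nonempty X := ⟨t 0⟩
  obtain ⟨i, hi, hT⟩ := exists_scale Y N t a (rm2J_mono (ρ := ρ) hK)
  have hh : rm2J ρ K (i + 1) ≤ rm2J ρ K (2 ^ N + 1) := rm2J_mono hK (by omega)
  have hj0 : 0 ≤ rm2J ρ K i := rm2J_nonneg hK i
  have hρj : ρ ≤ rm2J ρ K i := rm2J_ge hK i
  have hj1 : rm2J ρ K (i + 1) = 8 * rm2J ρ K i + 4 * K + 16 := rfl
  have hjj : rm2J ρ K i ≤ rm2J ρ K (i + 1) := rm2J_mono hK (Nat.le_succ i)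
  generalize rm2J ρ K (i + 1) = j' at *
  generalize rm2J ρ K i = j at *
  generalize rm2J ρ K (2 ^ N + 1) = h at *
  have hout : ∀ y ∈ OutSet Y N t a, y ∈ Y ∧ ∀ k < N, a < dist (t k) y := fun y hy => hy
  have hsub : ∀ S ∈ MaxTypes Y N t a j, S ⊆ Finset.range N := by
    intro S hS
    have h1 : S ∈ Types Y N t a j := (Finset.mem_filter.mp hS).1
    exact Finset.mem_powerset.mp (Finset.mem_filter.mp h1).1
  have hlt : ∀ S ∈ MaxTypes Y N t a j, ∀ k ∈ S, k < N := fun S hS k hk =>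
    Finset.mem_range.mp (hsub S hS hk)
  have hy0 : ∀ S ∈ MaxTypes Y N t a j, ∃ y, y ∈ OutSet Y N t a ∧ Touch Y N t a j y = S := by
    intro S hS
    obtain ⟨y, hy, h2⟩ := maxTypes_touch hS
    exact ⟨y, hy, h2⟩
  choose! y hy1 hy2 using hy0
  -- points of the component
  have hZout : ∀ S ∈ MaxTypes Y N t a j, ∀ z, Link (OutSet Y N t a) j (y S) z →
      z ∈ OutSet Y N t a := fun S hS z hz => Link.mem hz (hy1 S hS)
  have hC0 : ∀ S ∈ MaxTypes Y N t a j, ∃ T : Set X, IsPathConnected T ∧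
      {z | Link (OutSet Y N t a) j (y S) z} ⊆ T ∧
      ∀ z ∈ T, ∃ w ∈ {z | Link (OutSet Y N t a) j (y S) z}, dist z w ≤ j / 2 + 1 := by
    intro S hS
    apply hull hX hj0
    · exact ⟨y S, Link.refl _ _ _⟩
    · intro x hx w hw
      exact (rm2_linked hx).symm.trans (rm2_linked hw)
  choose! C hC1 hC2 hC3 using hC0
  have hu0 : ∀ S ∈ MaxTypes Y N t a j, ∀ k ∈ S, ∃ u : X, Link (OutSet Y N t a) j (y S) u ∧
      a < dist (t k) u ∧ dist (t k) u ≤ a + j := by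
    intro S hS k hk
    have hk' : k ∈ Touch Y N t a j (y S) := by rw [hy2 S hS]; exact hk
    obtain ⟨y', hy', hl, hd⟩ := (Finset.mem_filter.mp hk').2
    exact ⟨y', hl, (hout y' hy').2 k (hlt S hS k hk), hd⟩
  choose! u hu1 hu2 hu3 using hu0
  have hPE0 : ∀ S ∈ MaxTypes Y N t a j, ∀ k ∈ S, ∃ P E : Set X, IsPathConnected P ∧
      IsPathConnected E ∧ u S k ∈ P ∧ t k ∈ E ∧ (P ∩ E).Nonempty ∧
      (∀ z ∈ P, dist (u S k) z ≤ j' / 4) ∧ ∀ z ∈ E, dist (t k) z ≤ dist (t k) (u S k) + 1 - j' / 4 := by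
    intro S hS k hk
    apply split_path hX
    · linarith
    · have := hu2 S hS k hk
      linarith
  choose! P E hP1 hE1 hP2 hE2 hPE hP3 hE3 using hPE0
  -- distances of the hubs
  have hCd : ∀ S ∈ MaxTypes Y N t a j, ∀ z ∈ C S, ∀ k < N, a - j / 2 - 1 ≤ dist (t k) z := by
    intro S hS z hz k hk
    obtain ⟨w, hw, hd⟩ := hC3 S hS z hz
    have h1 := (hout w (hZout S hS w hw)).2 k hk
    have h2 := dist_triangle (t k) z w
    linarith
  have hEd : ∀ S ∈ MaxTypes Y N t a j, ∀ k ∈ S, ∀ z ∈ E S k, dist (t k) z ≤ a - j - K - 3 := by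
    intro S hS k hk z hz
    have h1 := hE3 S hS k hk z hz
    have h2 := hu3 S hS k hk
    linarith
  refine ⟨MaxTypes Y N t a j, C, fun k => {z | z = t k ∨ ∃ S ∈ MaxTypes Y N t a j, k ∈ S ∧
    z ∈ E S k}, fun k S => P S k, ?_⟩
  constructor
  · exact hsub
  · apply maxTypes_conn hρj hj0 hY (by linarith) ht
    intro k hk l hl hkl
    have := hfar k hk l hl hkl
    linarith
  · exact hC1
  · intro S hS z hz
    obtain ⟨w, hw, hd⟩ := hC3 S hS z hz
    exact ⟨w, (hout w (hZout S hS w hw)).1, by linarith⟩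
  · intro S hS z hz k hk
    have := hCd S hS z hz k hk
    linarith
  · intro S hS S' hS' hne z hz z' hz'
    obtain ⟨w, hw, hd⟩ := hC3 S hS z hz
    obtain ⟨w', hw', hd'⟩ := hC3 S' hS' z' hz'
    have h1 := sep hjj hT hS hS' hne (hy1 S hS) (hy1 S' hS') (hy2 S hS) (hy2 S' hS') hw hw'
    have h2 := dist_triangle4 w z z' w'
    rw [dist_comm w z] at h2
    linarith
  · intro k hk
    refine ⟨t k, Or.inl rfl, ?_⟩
    rintro w (rfl | ⟨S, hS, hkS, hw⟩)
    · exact JoinedIn.refl (Or.inl rfl)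
    · exact ((hE1 S hS k hkS).joinedIn (t k) (hE2 S hS k hkS) w hw).mono
        (fun z hz => Or.inr ⟨S, hS, hkS, hz⟩)
  · intro k hk
    exact Or.inl rfl
  · rintro k hk z (rfl | ⟨S, hS, hkS, hw⟩)
    · rw [dist_self]; linarith
    · have := hEd S hS k hkS z hw
      linarith
  · rintro k hk S hS z (rfl | ⟨S', hS', hkS', hw⟩) z' hz'
    · have := hCd S hS z' hz' k hk
      linarith
    · have h1 := hCd S hS z' hz' k hk
      have h2 := hEd S' hS' k hkS' z hw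
      have h3 := dist_triangle (t k) z z'
      linarith
  · intro S hS k hk
    exact hP1 S hS k hk
  · intro S hS k hk
    obtain ⟨w, hw1, hw2⟩ := hPE S hS k hk
    exact ⟨w, hw1, Or.inr ⟨S, hS, hk, hw2⟩⟩
  · intro S hS k hk
    exact ⟨u S k, hP2 S hS k hk, hC2 S hS (hu1 S hS k hk)⟩
  · intro S hS k hk z hz
    refine ⟨u S k, (hout _ (hZout S hS _ (hu1 S hS k hk))).1, ?_⟩
    have := hP3 S hS k hk z hz
    rw [dist_comm]
    linarith
  · intro S hS k hk z hz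
    have h1 := hP3 S hS k hk z hz
    have h2 := hu2 S hS k hk
    have h3 := hu3 S hS k hk
    have h4 := dist_triangle (t k) (u S k) z
    have h5 := dist_triangle (t k) z (u S k)
    rw [dist_comm z (u S k)] at h5
    constructor <;> linarith
  · intro S hS k hk S' hS' hne z hz z' hz'
    obtain ⟨w', hw', hd'⟩ := hC3 S' hS' z' hz'
    have h0 := hP3 S hS k hk z hz
    have h1 := sep hjj hT hS hS' (Ne.symm hne) (hy1 S hS) (hy1 S' hS') (hy2 S hS) (hy2 S' hS')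
      (hu1 S hS k hk) hw'
    have h2 := dist_triangle4 (u S k) z z' w'
    linarith
  · intro S hS S' hS' hne k hk hk' z hz z' hz'
    have h0 := hP3 S hS k hk z hz
    have h0' := hP3 S' hS' k hk' z' hz'
    have h1 := sep hjj hT hS hS' hne (hy1 S hS) (hy1 S' hS') (hy2 S hS) (hy2 S' hS')
      (hu1 S hS k hk) (hu1 S' hS' k hk')
    have h2 := dist_triangle4 (u S k) z z' (u S' k)
    rw [dist_comm z' (u S' k)] at h2
    linarith

end AG35
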