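import Pool.Agent.AG35.Geo2

/-! # AG35.Rank : finite rank at some scale implies trivial cohomology at a larger scale

`connected`: in a length space any two points are linked in `univ` at every scale `J > 0`
(`near_geo` and `link_of_path`).

`IsCocycle.mono`: a cocycle at scale `ρ'` is a cocycle at every scale `ρ ≤ ρ'` (clear).

`cob_of_cob`: let `0 < ρ ≤ ρ'`, `z` a cocycle at scale `ρ'` with `z a b = f b - f a` whenever
`dist a b ≤ ρ`. Then this holds whenever `dist a b ≤ ρ'`. Proof: put `ε = ρ / 2`, take the path `γ` of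
`near_geo` from `a` to `b` with this `ε` (so `dist a (γ s) + dist (γ s) b ≤ dist a b + ε`). For the
times `s` with `dist (γ s) b ≥ ε` we have `dist a (γ s) ≤ ρ'`, and `z a (γ s) = f (γ s) - f a`
is preserved along small steps (`z a u = z a v + z v u` if `dist v u ≤ ρ`, all three distances
`≤ ρ'`). Concretely: let `A = {u | dist a u ≤ ρ'}`; the set of times `s` before the first time `τ` with
`dist (γ s) b ≤ ρ` has `γ s ∈ A` (if `dist a b ≤ ρ` there is nothing to prove); so `γ τ` is linked
to `a` in `A` with steps `≤ ρ`, hence `z a (γ τ) = f (γ τ) - f a`, and finally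
`z a b = z a (γ τ) + z (γ τ) b` with `dist (γ τ) b ≤ ρ`.

`h1trivial_of_finiteRank`: induction on `m`, `ρ` and `R` general. The claim for `m`: if any `m+1` cocycles at
scale `ρ > 0` are dependent modulo coboundaries then `H1Trivial ρ' X` for some `ρ' ≥ R`.
* It is enough to find `ρ' ≥ ρ` with `H1Trivial ρ' X`, since `H1Trivial` passes to larger scales by
`cob_of_cob`.
* If `H1Trivial ρ X`, done. Otherwise let `z0` be a cocycle at scale `ρ` which is not a coboundary. Then there
are a point `o` and a closed chain at `o` with steps `≤ ρ` on which the sum of `z0` is not zero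
(otherwise summing `z0` along chains from `o` defines `f`; use `connected`). If `m = 0`: `c z0 = δ f` with
`c ≠ 0`, and the sum over the closed chain gives `c * (nonzero) = 0`, a contradiction. If `m = m' + 1`: let
`ρ' ≥ ρ` be larger than all distances of points of the closed chain. Any `m' + 1` cocycles
`w i` at scale `ρ'` are dependent: `z0, w 0, .., w m'` are dependent at scale `ρ`; the sum of `w i` over
the closed chain is `0` (telescoping, `w i x y = w i o y - w i o x` for points of the chain), so the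
coefficient of `z0` is `0`, the remaining relation has a nonzero coefficient, and it holds at
scale `ρ'` by `cob_of_cob`. Apply the induction hypothesis to `ρ'`.
-/

namespace AG35

open Set

variable {X : Type*} [MetricSpace X]

theorem link_univ (hX : IsLengthSpace X) {J : ℝ} (hJ : 0 < J) (x y : X) :
    Link (Set.univ : Set X) J x y := by
  obtain ⟨γ, _⟩ := near_geo hX x y (ε := 1) one_pos
  exact link_of_path γ (fun _ => mem_univ _) hJ

theorem IsCocycle.mono {ρ ρ' : ℝ} (h : ρ ≤ ρ') {z : X → X → ℤ} (hz : IsCocycle ρ' z) :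
    IsCocycle ρ z :=
  fun a b c h1 h2 h3 => hz a b c (h1.trans h) (h2.trans h) (h3.trans h)

theorem IsCocycle.rank_self {ρ : ℝ} (hρ : 0 ≤ ρ) {z : X → X → ℤ} (hz : IsCocycle ρ z) (a : X) :
    z a a = 0 := by
  have h := hz a a a (by simpa using hρ) (by simpa using hρ) (by simpa using hρ)
  omega

theorem IsCocycle.rank_anti {ρ : ℝ} (hρ : 0 ≤ ρ) {z : X → X → ℤ} (hz : IsCocycle ρ z) {a b : X}
    (hab : dist a b ≤ ρ) : z b a = - z a b := by
  have h := hz a b a hab (by rw [dist_comm]; exact hab) (by simpa using hρ)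
  have h' := hz.rank_self hρ a
  omega

theorem cob_of_cob (hX : IsLengthSpace X) {ρ ρ' : ℝ} (hρ : 0 < ρ) (hρρ : ρ ≤ ρ')
    {z : X → X → ℤ} (hz : IsCocycle ρ' z) {f : X → ℤ}
    (hf : ∀ a b : X, dist a b ≤ ρ → z a b = f b - f a) :
    ∀ a b : X, dist a b ≤ ρ' → z a b = f b - f a := by
  have key : ∀ n : ℕ, ∀ a b : X, dist a b ≤ ρ' → dist a b ≤ n * (ρ / 2) →
      z a b = f b - f a := by
    intro n
    induction n with
    | zero =>
      intro a b _ h
      apply hf
      have h' : dist a b ≤ 0 := by simpa using h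
      linarith
    | succ n ih =>
      intro a b hab h
      by_cases hle : dist a b ≤ ρ
      · exact hf a b hle
      · rw [not_le] at hle
        obtain ⟨γ, hγ⟩ := near_geo hX a b (ε := ρ / 2) (by positivity)
        have hcont : Continuous fun t : unitInterval => dist (γ t) b := by fun_prop
        obtain ⟨τ, hτ⟩ := mem_range_of_exists_le_of_exists_ge hcont
          (c := ρ) ⟨1, by simpa using hρ.le⟩ ⟨0, by simpa using hle.le⟩
        have hτ' : dist (γ τ) b = ρ := hτ
        have h1 := hγ τ τ le_rfl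
        rw [dist_self, hτ'] at h1
        push_cast at h
        have h2 : dist a (γ τ) ≤ n * (ρ / 2) := by linarith
        have h3 : dist a (γ τ) ≤ ρ' := by linarith
        have h4 := ih a (γ τ) h3 h2
        have h5 := hf (γ τ) b hτ'.le
        have h6 := hz a (γ τ) b h3 (by rw [hτ']; exact hρρ) hab
        omega
  intro a b hab
  obtain ⟨n, hn⟩ := exists_nat_ge (dist a b / (ρ / 2))
  refine key n a b hab ?_
  rwa [div_le_iff₀ (by positivity)] at hn

/-- the graph of the pairs of distinct points at distance at most `ρ` -/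
def ripsG (X : Type*) [MetricSpace X] (ρ : ℝ) : SimpleGraph X where
  Adj a b := a ≠ b ∧ dist a b ≤ ρ
  symm := ⟨fun a b h => ⟨h.1.symm, by rw [dist_comm]; exact h.2⟩⟩
  loopless := ⟨fun _ h => h.1 rfl⟩

/-- the sum of `z` along a walk -/
def wsum {ρ : ℝ} (z : X → X → ℤ) : {a b : X} → (ripsG X ρ).Walk a b → ℤ
  | _, _, .nil => 0
  | a, _, .cons (v := v) _ p => z a v + wsum z p

theorem wsum_append {ρ : ℝ} (z : X → X → ℤ) {a b c : X} (p : (ripsG X ρ).Walk a b)
    (q : (ripsG X ρ).Walk b c) : wsum z (p.append q) = wsum z p + wsum z q := by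
  induction p with
  | nil => simp [wsum]
  | cons h p ih => simp only [SimpleGraph.Walk.cons_append, wsum, ih]; ring

theorem wsum_reverse {ρ : ℝ} (hρ : 0 ≤ ρ) {z : X → X → ℤ} (hz : IsCocycle ρ z) {a b : X}
    (p : (ripsG X ρ).Walk a b) : wsum z p.reverse = - wsum z p := by
  induction p with
  | nil => simp [wsum]
  | cons h p ih =>
    rw [SimpleGraph.Walk.reverse_cons, wsum_append, ih]
    simp only [wsum]
    rw [hz.rank_anti hρ h.2]
    ring

theorem wsum_cob {ρ : ℝ} {z : X → X → ℤ} {f : X → ℤ}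
    (hf : ∀ a b : X, dist a b ≤ ρ → z a b = f b - f a) {a b : X}
    (p : (ripsG X ρ).Walk a b) : wsum z p = f b - f a := by
  induction p with
  | nil => simp [wsum]
  | cons h p ih => rw [wsum, ih, hf _ _ h.2]; ring

theorem wsum_linear {ρ : ℝ} {ι : Type*} (s : Finset ι) (c : ι → ℤ) (z : ι → X → X → ℤ) {a b : X}
    (p : (ripsG X ρ).Walk a b) :
    wsum (fun a b => ∑ i ∈ s, c i * z i a b) p = ∑ i ∈ s, c i * wsum (z i) p := by
  induction p with
  | nil => simp [wsum]
  | cons h p ih =>
    simp only [wsum]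
    rw [ih, ← Finset.sum_add_distrib]
    exact Finset.sum_congr rfl fun i _ => by ring

theorem wsum_tele {ρ ρ' : ℝ} (hρρ : ρ ≤ ρ') {w : X → X → ℤ} (hw : IsCocycle ρ' w) (o : X)
    {a b : X} (p : (ripsG X ρ).Walk a b) (hp : ∀ u ∈ p.support, dist o u ≤ ρ') :
    wsum w p = w o b - w o a := by
  induction p with
  | nil => simp [wsum]
  | @cons u v x h p ih =>
    have h1 : dist o u ≤ ρ' := hp u (by simp)
    have h2 : dist o v ≤ ρ' := hp v (by simp)
    have h3 := ih (fun y hy => hp y (by simp [hy]))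
    have h4 := hw o u v h1 (h.2.trans hρρ) h2
    rw [wsum, h3]
    omega

theorem rank_ripsG_conn (hX : IsLengthSpace X) {ρ : ℝ} (hρ : 0 < ρ) (a b : X) :
    Nonempty ((ripsG X ρ).Walk a b) := by
  have h := link_univ hX hρ a b
  induction h with
  | refl => exact ⟨.nil⟩
  | @tail b c _ hbc ih =>
    obtain ⟨p⟩ := ih
    by_cases hne : b = c
    · subst hne; exact ⟨p⟩
    · exact ⟨p.append (.cons ⟨hne, hbc.2.2⟩ .nil)⟩

/-- a cocycle which is not a coboundary has a nonzero sum over some closed walk -/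
theorem rank_exists_closed (hX : IsLengthSpace X) {ρ : ℝ} (hρ : 0 < ρ) {z : X → X → ℤ}
    (hz : IsCocycle ρ z) (hn : ¬ IsCob ρ z) :
    ∃ (o : X) (p : (ripsG X ρ).Walk o o), wsum z p ≠ 0 := by
  by_contra hcon
  push Not at hcon
  apply hn
  by_cases hX0 : Nonempty X
  · obtain ⟨o⟩ := hX0
    have hp : ∀ x, Nonempty ((ripsG X ρ).Walk o x) := fun x => rank_ripsG_conn hX hρ o x
    refine ⟨fun x => wsum z (hp x).some, ?_⟩
    intro a b hab
    by_cases hne : a = b
    · subst hne
      rw [hz.rank_self hρ.le]; simp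
    · have h := hcon o ((hp a).some.append (.cons ⟨hne, hab⟩ (hp b).some.reverse))
      rw [wsum_append, wsum, wsum_reverse hρ.le hz] at h
      show z a b = wsum z (hp b).some - wsum z (hp a).some
      omega
  · exact ⟨fun _ => 0, fun a => (hX0 ⟨a⟩).elim⟩

theorem rank_list_bound (o : X) (l : List X) : ∃ r : ℝ, ∀ u ∈ l, dist o u ≤ r := by
  induction l with
  | nil => exact ⟨0, by simp⟩
  | cons x l ih =>
    obtain ⟨r, hr⟩ := ih
    refine ⟨max r (dist o x), ?_⟩
    intro u hu
    rcases List.mem_cons.1 hu with h | h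
    · subst h; exact le_max_right _ _
    · exact (hr u h).trans (le_max_left _ _)

theorem rank_sum_cocycle {ρ : ℝ} {ι : Type*} (s : Finset ι) (c : ι → ℤ) (z : ι → X → X → ℤ)
    (hz : ∀ i, IsCocycle ρ (z i)) : IsCocycle ρ (fun a b => ∑ i ∈ s, c i * z i a b) := by
  intro a b d h1 h2 h3
  show ∑ i ∈ s, c i * z i a d = ∑ i ∈ s, c i * z i a b + ∑ i ∈ s, c i * z i b d
  rw [← Finset.sum_add_distrib]
  exact Finset.sum_congr rfl fun i _ => by rw [hz i a b d h1 h2 h3]; ring

theorem rank_aux (hX : IsLengthSpace X) (m : ℕ) : ∀ ρ : ℝ, 0 < ρ →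
    (∀ z : Fin (m + 1) → X → X → ℤ, (∀ i, IsCocycle ρ (z i)) →
      ∃ c : Fin (m + 1) → ℤ, c ≠ 0 ∧ IsCob ρ (fun a b => ∑ i, c i * z i a b)) →
    ∃ ρ' : ℝ, ρ ≤ ρ' ∧ H1Trivial ρ' X := by
  induction m with
  | zero =>
    intro ρ hρ h
    refine ⟨ρ, le_rfl, ?_⟩
    intro z hz
    by_contra hn
    obtain ⟨o, p, hp⟩ := rank_exists_closed hX hρ hz hn
    obtain ⟨c, hc, f, hf⟩ := h (fun _ => z) (fun _ => hz)
    have h1 := wsum_cob hf p
    rw [wsum_linear] at h1
    simp only [sub_self, mul_eq_zero, Nat.reduceAdd, Finset.univ_unique,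
      Finset.sum_singleton] at h1
    rcases h1 with h1 | h1
    · apply hc
      funext i
      have hi : i = default := by
        apply Fin.ext
        have h5 := i.2
        have h6 : ((default : Fin (0 + 1)) : ℕ) < 0 + 1 := (default : Fin (0 + 1)).2
        omega
      rw [hi]
      exact h1
    · exact hp h1
  | succ m ih =>
    intro ρ hρ h
    by_cases ht : H1Trivial ρ X
    · exact ⟨ρ, le_rfl, ht⟩
    · unfold H1Trivial at ht
      push Not at ht
      obtain ⟨z, hz, hn⟩ := ht
      obtain ⟨o, p, hp⟩ := rank_exists_closed hX hρ hz hn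
      obtain ⟨r, hr⟩ := rank_list_bound o p.support
      have hρρ : ρ ≤ max ρ r := le_max_left _ _
      obtain ⟨ρ', h1, h2⟩ := ih (max ρ r) (lt_of_lt_of_le hρ hρρ) (by
        intro w hw
        obtain ⟨c, hc, f, hf⟩ := h (Fin.cons z w) (by
          intro i
          refine Fin.cases ?_ ?_ i
          · exact hz
          · intro j
            exact (hw j).mono hρρ)
        have h1 := wsum_cob hf p
        rw [wsum_linear, sub_self, Fin.sum_univ_succ] at h1
        simp only [Fin.cons_zero, Fin.cons_succ] at h1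
        have h2 : ∀ i, wsum (w i) p = 0 := by
          intro i
          rw [wsum_tele hρρ (hw i) o p (fun u hu => (hr u hu).trans (le_max_right _ _))]
          ring
        have h3 : c 0 = 0 := by
          simp only [h2, mul_zero, Finset.sum_const_zero, add_zero, mul_eq_zero] at h1
          exact h1.resolve_right hp
        refine ⟨fun i => c i.succ, ?_, f, ?_⟩
        · intro h0
          apply hc
          funext i
          refine Fin.cases ?_ ?_ i
          · exact h3
          · intro j
            exact congrFun h0 j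
        · refine cob_of_cob hX hρ hρρ (rank_sum_cocycle _ _ _ hw) ?_
          intro a b hab
          have h4 : ∑ i, c i * (Fin.cons z w : Fin (m + 1 + 1) → X → X → ℤ) i a b = f b - f a :=
            hf a b hab
          rw [Fin.sum_univ_succ, h3] at h4
          simpa using h4)
      exact ⟨ρ', hρρ.trans h1, h2⟩

theorem h1trivial_of_finiteRank (hX : IsLengthSpace X) {ρ : ℝ} (hρ : 0 < ρ)
    (h : H1FiniteRank ρ X) (R : ℝ) : ∃ ρ' : ℝ, R ≤ ρ' ∧ H1Trivial ρ' X := by
  obtain ⟨m, hm⟩ := h
  obtain ⟨ρ', h1, h2⟩ := rank_aux hX m ρ hρ hm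
  refine ⟨max ρ' R, le_max_right _ _, ?_⟩
  intro z hz
  obtain ⟨f, hf⟩ := h2 z (hz.mono (le_max_left _ _))
  exact ⟨f, cob_of_cob hX (lt_of_lt_of_le hρ h1) (le_max_left _ _) hz hf⟩

end AG35
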