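import Pool.Agent.AG35.BPA
import Pool.Agent.AG35.Rank
import Pool.Agent.AG35.Data
import Pool.Agent.AG35.RM2
import Pool.Agent.AG35.Asm1
import Pool.Agent.AG35.Asm4
import Pool.Agent.AG35.Clos
import Pool.Agent.AG35.GInc

/-! # AG35.Final : assembly -/

namespace AG35

open Set

variable {X : Type*} [MetricSpace X]

/-- if the bottleneck property fails for all constants then all grids are asymptotic minors -/
theorem grid_of_not_BP (hX : IsLengthSpace X) {ρ : ℝ} (hρ : 2 ≤ ρ) (hH : H1Trivial ρ X)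
    (hB : ∀ Δ : ℝ, ¬ BP X Δ) (n : ℕ) {K : ℝ} (hK : 0 < K) : IsFatMinor (gridGraph n) K X := by
  obtain ⟨N, M, hN, hM, hgrid⟩ := exists_grid_model n
  obtain ⟨h, hh, hrow⟩ := exists_rowModel hX N hK.le ρ
  obtain ⟨a0, ha0⟩ : ∃ a0 : ℕ, h + K + ρ + 10 ≤ a0 := exists_nat_ge _
  obtain ⟨W, hW⟩ : ∃ W : ℕ, 2 * (2 * (a0 : ℝ) + h + ρ) + K + 10 ≤ W := exists_nat_ge _
  obtain ⟨m, S0, Y, c, hS0, hd⟩ := exists_data hX hρ hH hB N M a0 W
    (8 * (a0 : ℝ) + 4 * h + K + 10)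
  have hle : ∀ j < M, S0 + j * W ≤ S0 + M * W := fun j hj =>
    Nat.add_le_add_left (Nat.mul_le_mul_right _ hj.le) _
  have hrow' : ∀ j, ∃ (𝓜 : Finset (Finset ℕ)) (C : Finset ℕ → Set X) (E : ℕ → Set X)
      (P : ℕ → Finset ℕ → Set X),
      j < M → RowModel (Y j) N (fun k => c k (S0 + j * W)) K (2 * a0) h 𝓜 C E P := by
    intro j
    by_cases hj : j < M
    · obtain ⟨𝓜, C, E, P, hr⟩ := hrow (2 * a0) (by linarith [hK.le]) (Y j)
        (fun k => c k (S0 + j * W)) (hd.rowL j hj) (fun k hk => hd.mem k hk j hj)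
        (fun k hk l hl hkl => by
          have := hd.far k hk l hl hkl (S0 + j * W) (S0 + j * W) (by omega) (hle j hj)
            (by omega) (hle j hj)
          have h0 : (0 : ℝ) ≤ a0 := Nat.cast_nonneg _
          linarith)
      exact ⟨𝓜, C, E, P, fun _ => hr⟩
    · exact ⟨∅, fun _ => ∅, fun _ => ∅, fun _ _ => ∅, fun h => absurd h hj⟩
  choose 𝓜 C E P hr using hrow'
  obtain ⟨I, Q, hA⟩ := exists_asmData hX hd hK.le hh hρ ha0 hW le_rfl hS0 (𝓜 := 𝓜) (C := C)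
    (E := E) (P := P) (fun j hj => hr j hj)
  obtain ⟨φ, hφ⟩ := hgrid 𝓜 (fun j hj => (hr j hj).sub) (fun j hj => (hr j hj).conn)
  exact fatMinor_of_model (assemble hA) hφ

theorem main (hX : IsLengthSpace X) (hH : ∃ ρ : ℝ, 0 < ρ ∧ H1FiniteRank ρ X)
    (hn : ∃ n : ℕ, ¬ IsAsymptoticMinor (gridGraph n) X) : AsdimLE 1 X := by
  obtain ⟨ρ, hρ, hfr⟩ := hH
  obtain ⟨ρ', hρ', hH'⟩ := h1trivial_of_finiteRank hX hρ hfr 2
  obtain ⟨n, hn⟩ := hn
  by_contra hcon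
  refine hn fun K hK => grid_of_not_BP hX hρ' hH' (fun Δ hB => hcon (asdim_of_BP hX hB)) n hK

end AG35
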