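import Pool.Agent.AG35.SP

/-! # AG35.GPath : many rows with the same path pattern give the grid

Let `T` be a set of at least `n` rows `j < M` with a path pattern on the same list `l`, `n ≤ l.length`,
`l.Nodup`. Let `θ : Fin n → T` be strictly increasing (`Finset.orderEmbOfFin`), `κ y = l[y]` for
`y : Fin n`, and `L j k` the sets of the pattern of row `j ∈ T`. Branch set of `(x, y)`:
`φ (x,y) = L (θ x) (κ y) ∪ ⋃ j ∈ {j | θ x ≤ j ∧ j < θ (x+1)}, {τ j (κ y)}` if `x + 1 < n` and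
`φ (x,y) = L (θ x) (κ y)` if `x + 1 = n`.
* connected: `τ (θ x) (κ y) ∈ L (θ x) (κ y)` and the terminals form a walk (`Rows.col`).
* disjoint: for `x ≠ x'` the rows met are different; for `x = x'`, `y ≠ y'`: `L (θ x) (κ y)`,
`L (θ x) (κ y')` are disjoint, `τ (θ x) (κ y) ∈ L (θ x) (κ y)`, and in the other rows the terminals are different.
* adjacency: `(x,y)`, `(x,y+1)`: chain condition of the pattern of row `θ x`; `(x,y)`, `(x+1,y)`:
`τ (θ (x+1) - 1) (κ y)` is adjacent to `τ (θ (x+1)) (κ y)`.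
-/

namespace AG35

open Set

variable {V : Type*}

private theorem gp_link_col {G : SimpleGraph V} {M N : ℕ} {R : ℕ → Set V} {τ : ℕ → ℕ → V}
    (hR : Rows G M N R τ) {A : Set V} {k a : ℕ} (hk : k < N) (j : ℕ) (haj : a ≤ j) (hjM : j < M)
    (hA : ∀ i, a ≤ i → i ≤ j → τ i k ∈ A) : GLink G A (τ a k) (τ j k) := by
  induction j, haj using Nat.le_induction with
  | base => exact Relation.ReflTransGen.refl
  | succ j hj ih =>
    refine Relation.ReflTransGen.tail (ih (by omega) fun i h1 h2 => hA i h1 (by omega)) ?_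
    exact ⟨hA j hj (by omega), hA (j + 1) (by omega) le_rfl, hR.col j hjM k hk⟩

theorem grid_of_paths {G : SimpleGraph V} {M N : ℕ} {R : ℕ → Set V} {τ : ℕ → ℕ → V}
    (hR : Rows G M N R τ) (n : ℕ) {l : List ℕ} (hl : l.Nodup) (hln : n ≤ l.length)
    (hlN : ∀ k ∈ l, k < N) {T : Finset ℕ} (hT : ∀ j ∈ T, j < M) (hTn : n ≤ T.card)
    (hS : ∀ j ∈ T, PathOn G (R j) (τ j) l) :
    ∃ φ : Fin n × Fin n → Set V, MinorModel (gridGraph n) G (⋃ j ∈ Set.Iio M, R j) φ := by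
  classical
  choose! L hL1 hL2 hL3 using hS
  -- the selected rows
  obtain ⟨θ, hθT, hθ⟩ : ∃ θ : ℕ → ℕ, (∀ x < n, θ x ∈ T) ∧ (∀ x x', x < x' → x' < n → θ x < θ x') := by
    refine ⟨fun x => if h : x < n then T.orderEmbOfFin rfl ⟨x, lt_of_lt_of_le h hTn⟩ else 0, ?_, ?_⟩
    · intro x hx
      simp only [hx, dif_pos]
      exact Finset.orderEmbOfFin_mem _ _ _
    · intro x x' hxx' hx'
      have hx : x < n := hxx'.trans hx'
      simp only [hx, hx', dif_pos]
      exact (T.orderEmbOfFin rfl).strictMono (by simpa using hxx')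
  -- the selected labels
  obtain ⟨κ, hκl, hκinj, hκch⟩ : ∃ κ : ℕ → ℕ, (∀ y < n, κ y ∈ l) ∧
      (∀ y < n, ∀ y' < n, κ y = κ y' → y = y') ∧
      (∀ P : ℕ → ℕ → Prop, l.IsChain P → ∀ y, y + 1 < n → P (κ y) (κ (y + 1))) := by
    refine ⟨fun y => if h : y < l.length then l[y] else 0, ?_, ?_, ?_⟩
    · intro y hy
      have hy' : y < l.length := lt_of_lt_of_le hy hln
      simp only [hy', dif_pos]
      exact List.getElem_mem _
    · intro y hy y' hy' h
      have h1 : y < l.length := lt_of_lt_of_le hy hln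
      have h2 : y' < l.length := lt_of_lt_of_le hy' hln
      simp only [h1, h2, dif_pos] at h
      exact (hl.getElem_inj_iff).1 h
    · intro P hP y hy
      have h2 : y + 1 < l.length := lt_of_lt_of_le hy hln
      have h1 : y < l.length := by omega
      simp only [h1, h2, dif_pos]
      exact List.isChain_iff_getElem.1 hP y h2
  have hθM : ∀ x < n, θ x < M := fun x hx => hT _ (hθT x hx)
  have hκN : ∀ y < n, κ y < N := fun y hy => hlN _ (hκl y hy)
  let S : ℕ → ℕ → Set V := fun x y =>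
    {v | ∃ j, θ x ≤ j ∧ x + 1 < n ∧ j < θ (x + 1) ∧ v = τ j (κ y)}
  let φ : ℕ → ℕ → Set V := fun x y => L (θ x) (κ y) ∪ S x y
  have hterm : ∀ x < n, ∀ y < n, τ (θ x) (κ y) ∈ L (θ x) (κ y) := fun x hx y hy =>
    (hL1 _ (hθT x hx) _ (hκl y hy)).2.2
  have key : ∀ x < n, ∀ y < n, ∀ v ∈ φ x y, ∃ j, θ x ≤ j ∧ j < M ∧ v ∈ R j ∧
      (j = θ x → v ∈ L (θ x) (κ y)) ∧ (j ≠ θ x → v = τ j (κ y)) ∧
      (∀ x', x < x' → x' < n → j < θ x') := by
    intro x hx y hy v hv
    rcases hv with hv | ⟨j, h1, h2, h3, rfl⟩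
    · exact ⟨θ x, le_rfl, hθM x hx, (hL1 _ (hθT x hx) _ (hκl y hy)).2.1 hv, fun _ => hv,
        fun h => absurd rfl h, fun x' h h' => hθ x x' h h'⟩
    · have hjM : j < M := h3.trans (hθM _ h2)
      refine ⟨j, h1, hjM, hR.mem j hjM _ (hκN y hy), ?_, fun _ => rfl, ?_⟩
      · rintro rfl
        exact hterm x hx y hy
      · intro x' h h'
        rcases Nat.lt_or_ge (x + 1) x' with h4 | h4
        · exact h3.trans (hθ _ _ h4 h')
        · have : x' = x + 1 := by omega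
          rw [this]; exact h3
  have hrow : ∀ i < M, ∀ j < M, ∀ v, v ∈ R i → v ∈ R j → i = j := by
    intro i hi j hj v h1 h2
    by_contra h
    exact Set.disjoint_left.1 (hR.disj i hi j hj h) h1 h2
  have hdisj : ∀ x < n, ∀ y < n, ∀ x' < n, ∀ y' < n, ∀ v, v ∈ φ x y → v ∈ φ x' y' →
      x = x' ∧ y = y' := by
    intro x hx y hy x' hx' y' hy' v hv hv'
    obtain ⟨j, a1, a2, a3, a4, a5, a6⟩ := key x hx y hy v hv
    obtain ⟨j', b1, b2, b3, b4, b5, b6⟩ := key x' hx' y' hy' v hv'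
    have hjj : j = j' := hrow j a2 j' b2 v a3 b3
    subst hjj
    have hxx : x = x' := by
      rcases Nat.lt_trichotomy x x' with h | h | h
      · have := a6 x' h hx'; omega
      · exact h
      · have := b6 x h hx; omega
    subst hxx
    refine ⟨rfl, ?_⟩
    by_contra hne
    have hκne : κ y ≠ κ y' := fun h => hne (hκinj y hy y' hy' h)
    by_cases hj : j = θ x
    · exact Set.disjoint_left.1 (hL2 _ (hθT x hx) _ (hκl y hy) _ (hκl y' hy') hκne) (a4 hj) (b4 hj)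
    · exact hκne (hR.inj j a2 _ (hκN y hy) _ (hκN y' hy') ((a5 hj).symm.trans (b5 hj)))
  have hadjY : ∀ x < n, ∀ y, y + 1 < n → ∃ v ∈ φ x y, ∃ v' ∈ φ x (y + 1), G.Adj v v' := by
    intro x hx y hy
    obtain ⟨a, ha, b, hb, hab⟩ := hκch _ (hL3 _ (hθT x hx)) y hy
    exact ⟨a, Or.inl ha, b, Or.inl hb, hab⟩
  have hadjX : ∀ x, x + 1 < n → ∀ y < n, ∃ v ∈ φ x y, ∃ v' ∈ φ (x + 1) y, G.Adj v v' := by
    intro x hx y hy
    have h1 : θ x < θ (x + 1) := hθ x (x + 1) (by omega) hx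
    have h2 : θ (x + 1) < M := hθM _ hx
    have h3 : θ (x + 1) - 1 + 1 = θ (x + 1) := by omega
    refine ⟨τ (θ (x + 1) - 1) (κ y), Or.inr ⟨_, by omega, hx, by omega, rfl⟩,
      τ (θ (x + 1)) (κ y), Or.inl (hterm _ hx y hy), ?_⟩
    have := hR.col (θ (x + 1) - 1) (by omega) (κ y) (hκN y hy)
    rwa [h3] at this
  have hconn : ∀ x < n, ∀ y < n, GConn G (φ x y) := by
    intro x hx y hy
    have h0 := (hL1 _ (hθT x hx) _ (hκl y hy)).1
    have hb : ∀ v ∈ φ x y, GLink G (φ x y) (τ (θ x) (κ y)) v := by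
      rintro v (hv | ⟨j, h1, h2, h3, rfl⟩)
      · exact GLink.mono Set.subset_union_left (h0.2 _ (hterm x hx y hy) v hv)
      · have hjM : j < M := h3.trans (hθM _ h2)
        refine gp_link_col hR (hκN y hy) j h1 hjM fun i hi1 hi2 => Or.inr ?_
        exact ⟨i, hi1, h2, by omega, rfl⟩
    exact ⟨⟨_, Or.inl (hterm x hx y hy)⟩, fun a ha b hb' => (GLink.symm (hb a ha)).trans (hb b hb')⟩
  refine ⟨fun w => φ w.1 w.2, ?_, ?_, ?_, ?_⟩
  · rintro ⟨x, y⟩ v hv
    obtain ⟨j, _, h2, h3, _⟩ := key x x.2 y y.2 v hv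
    simp only [Set.mem_iUnion]
    exact ⟨j, h2, h3⟩
  · rintro ⟨x, y⟩
    exact hconn x x.2 y y.2
  · rintro ⟨x, y⟩ ⟨x', y'⟩ hne
    rw [Set.disjoint_left]
    intro v hv hv'
    obtain ⟨h1, h2⟩ := hdisj x x.2 y y.2 x' x'.2 y' y'.2 v hv hv'
    exact hne (Prod.ext (Fin.ext h1) (Fin.ext h2))
  · rintro ⟨x, y⟩ ⟨x', y'⟩ hadj
    simp only [gridGraph, SimpleGraph.boxProd_adj, SimpleGraph.pathGraph_adj] at hadj
    rcases hadj with ⟨h | h, rfl⟩ | ⟨h | h, rfl⟩
    · have := hadjX x (by omega) y y.2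
      rw [h] at this; exact this
    · obtain ⟨v, hv, v', hv', h'⟩ := hadjX x' (by omega) y y.2
      rw [h] at hv'; exact ⟨v', hv', v, hv, h'.symm⟩
    · have := hadjY x x.2 y (by omega)
      rw [h] at this; exact this
    · obtain ⟨v, hv, v', hv', h'⟩ := hadjY x x.2 y' (by omega)
      rw [h] at hv'; exact ⟨v', hv', v, hv, h'.symm⟩

end AG35
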