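import Pool.Agent.AG35.SP

/-! # AG35.GStar : many star rows give the grid

Let `Λ` be a set of at least `n^2` labels and `T` a set of at least `n^2` rows `j < M` with a star pattern on `Λ`. Choose
injections `κ : Fin n × Fin n → Λ` and `θ : Fin n × Fin n → T`. For each `j ∈ T` let `C j`, `L j k` be the star.
Call `(x, y)` even if `x + y` is even. Branch sets: for even `v`: `φ v = C (θ v)`; for odd `v`:
`φ v = (⋃ j < M, {τ j (κ v)}) ∪ ⋃ j ∈ T, L j (κ v)`.
* An odd branch set is connected: the terminals `τ j k`, `j < M`, form a walk (`Rows.col`), and every `L j k` is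
connected and contains `τ j k`.
* Disjointness: even/even: different rows (`Rows.disj`, `C j ⊆ R j`); odd/odd with labels `k ≠ l`: inside a row `j ∈ T`:
`L j k ∋ τ j k` and `L j l ∋ τ j l` are disjoint; in the other rows `τ j k ≠ τ j l` (`Rows.inj`); parts in different rows
are disjoint. Even/odd: `C j` and `L j k` are disjoint, and `τ j k ∈ L j k`.
* Adjacent vertices of the grid have different parity, and every `C j`, `j ∈ T`, is adjacent to every
`L j k ⊆ φ v`, `k = κ v`, for odd `v`.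
-/

namespace AG35

open Set

variable {V : Type*}

private theorem gstar_single {G : SimpleGraph V} (x : V) : GConn G {x} := by
  refine ⟨⟨x, rfl⟩, ?_⟩
  rintro a rfl b rfl
  exact Relation.ReflTransGen.refl

private theorem gstar_col {G : SimpleGraph V} {M : ℕ} {B : ℕ → Set V} {t : ℕ → V}
    (hc : ∀ j < M, GConn G (B j)) (ht : ∀ j < M, t j ∈ B j)
    (ha : ∀ j, j + 1 < M → G.Adj (t j) (t (j + 1))) :
    ∀ m, m < M → GConn G (⋃ j ∈ Set.Iio (m + 1), B j) := by
  intro m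
  induction m with
  | zero =>
    intro h
    have : (⋃ j ∈ Set.Iio (0 + 1), B j) = B 0 := by
      ext x
      simp only [Set.mem_iUnion, Set.mem_Iio, exists_prop]
      constructor
      · rintro ⟨j, hj, hx⟩
        obtain rfl : j = 0 := by omega
        exact hx
      · intro hx
        exact ⟨0, by omega, hx⟩
    rw [this]
    exact hc 0 h
  | succ m ih =>
    intro h
    have : (⋃ j ∈ Set.Iio (m + 1 + 1), B j) = (⋃ j ∈ Set.Iio (m + 1), B j) ∪ B (m + 1) := by
      ext x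
      simp only [Set.mem_iUnion, Set.mem_Iio, exists_prop, Set.mem_union]
      constructor
      · rintro ⟨j, hj, hx⟩
        rcases Nat.lt_or_ge j (m + 1) with h1 | h1
        · exact Or.inl ⟨j, h1, hx⟩
        · obtain rfl : j = m + 1 := by omega
          exact Or.inr hx
      · rintro (⟨j, hj, hx⟩ | hx)
        · exact ⟨j, by omega, hx⟩
        · exact ⟨m + 1, by omega, hx⟩
    rw [this]
    refine GConn.union (ih (by omega)) (hc (m + 1) h) (x := t m) (y := t (m + 1)) ?_ (ht _ h)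
      (Or.inl (ha m h))
    simp only [Set.mem_iUnion, Set.mem_Iio, exists_prop]
    exact ⟨m, by omega, ht m (by omega)⟩

private theorem gstar_parity {n : ℕ} {v w : Fin n × Fin n} (h : (gridGraph n).Adj v w) :
    (v.1.val + v.2.val) % 2 ≠ (w.1.val + w.2.val) % 2 := by
  unfold gridGraph at h
  rw [SimpleGraph.boxProd_adj] at h
  rcases h with ⟨h, h'⟩ | ⟨h, h'⟩
  · rw [SimpleGraph.pathGraph_adj] at h
    have := congrArg Fin.val h'
    omega
  · rw [SimpleGraph.pathGraph_adj] at h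
    have := congrArg Fin.val h'
    omega

theorem grid_of_stars {G : SimpleGraph V} {M N : ℕ} {R : ℕ → Set V} {τ : ℕ → ℕ → V}
    (hR : Rows G M N R τ) (n : ℕ) {Λ : Finset ℕ} (hΛ : ∀ k ∈ Λ, k < N) (hΛn : n ^ 2 ≤ Λ.card)
    {T : Finset ℕ} (hT : ∀ j ∈ T, j < M) (hTn : n ^ 2 ≤ T.card)
    (hS : ∀ j ∈ T, StarOn G (R j) (τ j) Λ) :
    ∃ φ : Fin n × Fin n → Set V, MinorModel (gridGraph n) G (⋃ j ∈ Set.Iio M, R j) φ := by
  classical
  obtain ⟨κ⟩ : Nonempty (Fin n × Fin n ↪ Λ) :=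
    Function.Embedding.nonempty_of_card_le (by simpa [pow_two] using hΛn)
  obtain ⟨θ⟩ : Nonempty (Fin n × Fin n ↪ T) :=
    Function.Embedding.nonempty_of_card_le (by simpa [pow_two] using hTn)
  have hκ : ∀ v w, v ≠ w → (κ v : ℕ) ≠ κ w := fun v w h h' => h (κ.injective (Subtype.ext h'))
  have hθ : ∀ v w, v ≠ w → (θ v : ℕ) ≠ θ w := fun v w h h' => h (θ.injective (Subtype.ext h'))
  have hS' : ∀ j, ∃ (C : Set V) (L : ℕ → Set V), j ∈ T → (GConn G C ∧ C ⊆ R j ∧
      (∀ k ∈ Λ, GConn G (L k) ∧ L k ⊆ R j ∧ τ j k ∈ L k ∧ Disjoint C (L k) ∧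
        ∃ x ∈ C, ∃ y ∈ L k, G.Adj x y) ∧
      ∀ k ∈ Λ, ∀ l ∈ Λ, k ≠ l → Disjoint (L k) (L l)) := by
    intro j
    by_cases hj : j ∈ T
    · obtain ⟨C, L, h⟩ := hS j hj
      exact ⟨C, L, fun _ => h⟩
    · exact ⟨∅, fun _ => ∅, fun h => absurd h hj⟩
  choose C L hCL using hS'
  let B : ℕ → ℕ → Set V := fun j k => if j ∈ T then L j k else {τ j k}
  have hBpos : ∀ j ∈ T, ∀ k, B j k = L j k := fun j hj k => if_pos hj
  have hBneg : ∀ j, j ∉ T → ∀ k, B j k = {τ j k} := fun j hj k => if_neg hj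
  have hBR : ∀ j < M, ∀ k ∈ Λ, B j k ⊆ R j := by
    intro j hj k hk
    by_cases h : j ∈ T
    · rw [hBpos j h]; exact ((hCL j h).2.2.1 k hk).2.1
    · rw [hBneg j h]; rintro x rfl; exact hR.mem j hj k (hΛ k hk)
  have hBc : ∀ j < M, ∀ k ∈ Λ, GConn G (B j k) := by
    intro j hj k hk
    by_cases h : j ∈ T
    · rw [hBpos j h]; exact ((hCL j h).2.2.1 k hk).1
    · rw [hBneg j h]; exact gstar_single _
  have hBτ : ∀ j < M, ∀ k ∈ Λ, τ j k ∈ B j k := by
    intro j hj k hk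
    by_cases h : j ∈ T
    · rw [hBpos j h]; exact ((hCL j h).2.2.1 k hk).2.2.1
    · rw [hBneg j h]; rfl
  have hBB : ∀ j < M, ∀ k ∈ Λ, ∀ l ∈ Λ, k ≠ l → Disjoint (B j k) (B j l) := by
    intro j hj k hk l hl hkl
    by_cases h : j ∈ T
    · rw [hBpos j h, hBpos j h]; exact (hCL j h).2.2.2 k hk l hl hkl
    · rw [hBneg j h, hBneg j h, Set.disjoint_singleton]
      exact fun h' => hkl (hR.inj j hj k (hΛ k hk) l (hΛ l hl) h')
  let Col : ℕ → Set V := fun k => ⋃ j ∈ Set.Iio M, B j k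
  have hCol : ∀ k x, x ∈ Col k ↔ ∃ j < M, x ∈ B j k := by
    intro k x
    simp only [Col, Set.mem_iUnion, Set.mem_Iio, exists_prop]
  let φ : Fin n × Fin n → Set V := fun v =>
    if (v.1.val + v.2.val) % 2 = 0 then C (θ v) else Col (κ v)
  have hφe : ∀ v : Fin n × Fin n, (v.1.val + v.2.val) % 2 = 0 → φ v = C (θ v) :=
    fun v h => if_pos h
  have hφo : ∀ v : Fin n × Fin n, ¬ (v.1.val + v.2.val) % 2 = 0 → φ v = Col (κ v) :=
    fun v h => if_neg h
  have hrow : ∀ i < M, ∀ j < M, ∀ x, x ∈ R i → x ∈ R j → i = j := by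
    intro i hi j hj x hx hx'
    by_contra hne
    exact Set.disjoint_left.1 (hR.disj i hi j hj hne) hx hx'
  have hCR : ∀ v, C (θ v) ⊆ R (θ v) := fun v => (hCL _ (θ v).2).2.1
  have heo : ∀ v w : Fin n × Fin n, Disjoint (C (θ v)) (Col (κ w)) := by
    intro v w
    rw [Set.disjoint_left]
    intro x hx hx'
    rw [hCol] at hx'
    obtain ⟨j, hj, hx'⟩ := hx'
    have h1 := hrow _ (hT _ (θ v).2) j hj x (hCR v hx) (hBR j hj _ (κ w).2 hx')
    rw [← h1, hBpos _ (θ v).2] at hx'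
    exact Set.disjoint_left.1 ((hCL _ (θ v).2).2.2.1 _ (κ w).2).2.2.2.1 hx hx'
  refine ⟨φ, ?_, ?_, ?_, ?_⟩
  · intro v x hx
    simp only [Set.mem_iUnion, Set.mem_Iio, exists_prop]
    by_cases h : (v.1.val + v.2.val) % 2 = 0
    · rw [hφe v h] at hx
      exact ⟨θ v, hT _ (θ v).2, hCR v hx⟩
    · rw [hφo v h, hCol] at hx
      obtain ⟨j, hj, hx⟩ := hx
      exact ⟨j, hj, hBR j hj _ (κ v).2 hx⟩
  · intro v
    by_cases h : (v.1.val + v.2.val) % 2 = 0
    · rw [hφe v h]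
      exact (hCL _ (θ v).2).1
    · rw [hφo v h]
      have hM : 0 < M := lt_of_le_of_lt (Nat.zero_le _) (hT _ (θ v).2)
      have := gstar_col (G := G) (M := M) (B := fun j => B j (κ v)) (t := fun j => τ j (κ v))
        (fun j hj => hBc j hj _ (κ v).2) (fun j hj => hBτ j hj _ (κ v).2)
        (fun j hj => hR.col j hj _ (hΛ _ (κ v).2)) (M - 1) (by omega)
      rw [Nat.sub_add_cancel hM] at this
      exact this
  · intro v w hvw
    by_cases h : (v.1.val + v.2.val) % 2 = 0 <;> by_cases h' : (w.1.val + w.2.val) % 2 = 0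
    · rw [hφe v h, hφe w h']
      exact (hR.disj _ (hT _ (θ v).2) _ (hT _ (θ w).2) (hθ v w hvw)).mono (hCR v) (hCR w)
    · rw [hφe v h, hφo w h']
      exact heo v w
    · rw [hφo v h, hφe w h']
      exact (heo w v).symm
    · rw [hφo v h, hφo w h', Set.disjoint_left]
      intro x hx hx'
      rw [hCol] at hx hx'
      obtain ⟨j, hj, hx⟩ := hx
      obtain ⟨j', hj', hx'⟩ := hx'
      have h1 := hrow j hj j' hj' x (hBR j hj _ (κ v).2 hx) (hBR j' hj' _ (κ w).2 hx')
      subst h1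
      exact Set.disjoint_left.1 (hBB j hj _ (κ v).2 _ (κ w).2 (hκ v w hvw)) hx hx'
  · intro v w hvw
    have hp := gstar_parity hvw
    have key : ∀ v w : Fin n × Fin n, ∃ x ∈ C (θ v), ∃ y ∈ Col (κ w), G.Adj x y := by
      intro v w
      obtain ⟨x, hx, y, hy, hxy⟩ := ((hCL _ (θ v).2).2.2.1 _ (κ w).2).2.2.2.2
      refine ⟨x, hx, y, ?_, hxy⟩
      rw [hCol]
      exact ⟨θ v, hT _ (θ v).2, by rw [hBpos _ (θ v).2]; exact hy⟩
    by_cases h : (v.1.val + v.2.val) % 2 = 0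
    · have h' : ¬ (w.1.val + w.2.val) % 2 = 0 := by omega
      rw [hφe v h, hφo w h']
      exact key v w
    · have h' : (w.1.val + w.2.val) % 2 = 0 := by omega
      rw [hφo v h, hφe w h']
      obtain ⟨x, hx, y, hy, hxy⟩ := key w v
      exact ⟨y, hy, x, hx, hxy.symm⟩

end AG35
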