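import Pool.Agent.AG35.Pat
import Pool.Agent.AG35.GStar
import Pool.Agent.AG35.GPath

/-! # AG35.GRam : the grid from many rows

`q = n^2 + 1` (so `n ≤ q`, `n^2 ≤ q`), `M = n^2 + n * q.factorial`, `N = max 1 F` with the `F` of
`exists_patterns M q`, applied to `Λ = range N`: get `Λ'` of cardinality `q`. Let `T` be the set of the rows `j < M`
with a star pattern on `Λ'`. If `n^2 ≤ T.card`: `grid_of_stars`. Otherwise at least `n * q.factorial` rows have a list
`l j` (`Nodup`, `toFinset = Λ'`, `PathOn`). The lists are members of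
`Λ'.toList.permutations.toFinset`, of cardinality at most `q.factorial`; by the pigeonhole principle
(`Finset.exists_le_card_fiber_of_mul_le_card_of_maps_to`) at least `n` rows have the same list
(`q.factorial > 0`): `grid_of_paths`.
-/

namespace AG35

open Set

theorem exists_grid_of_rows (n : ℕ) : ∃ N M : ℕ, 0 < N ∧ 0 < M ∧ ∀ {V : Type}
    (G : SimpleGraph V) (R : ℕ → Set V) (τ : ℕ → ℕ → V), Rows G M N R τ →
    ∃ φ : Fin n × Fin n → Set V, MinorModel (gridGraph n) G (⋃ j ∈ Set.Iio M, R j) φ := by
  classical
  set q := n ^ 2 + 1 with hq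
  set M := n ^ 2 + n * q.factorial + 1 with hM
  obtain ⟨F, hF⟩ := exists_patterns M q
  refine ⟨max 1 F, M, by omega, by omega, fun {V} G R τ hR => ?_⟩
  set N := max 1 F with hN
  obtain ⟨Λ, hΛ, hΛq, hpat⟩ := hF G R τ (Finset.range N) hR.conn
    (fun j hj k hk => hR.mem j hj k (Finset.mem_range.1 hk))
    (fun j hj k hk l hl => hR.inj j hj k (Finset.mem_range.1 hk) l (Finset.mem_range.1 hl))
    (by rw [Finset.card_range]; exact le_max_right _ _)
  have hΛN : ∀ k ∈ Λ, k < N := fun k hk => Finset.mem_range.1 (hΛ hk)
  set T := (Finset.range M).filter (fun j => StarOn G (R j) (τ j) Λ) with hT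
  by_cases hTn : n ^ 2 ≤ T.card
  · exact grid_of_stars hR n hΛN (by omega)
      (fun j hj => Finset.mem_range.1 (Finset.mem_filter.1 hj).1) hTn
      (fun j hj => (Finset.mem_filter.1 hj).2)
  · push Not at hTn
    set T' := (Finset.range M).filter (fun j => ¬ StarOn G (R j) (τ j) Λ) with hT'
    have hcard : T.card + T'.card = M := by
      rw [hT, hT', Finset.card_filter_add_card_filter_not, Finset.card_range]
    have hex : ∀ j ∈ T', ∃ l : List ℕ, l.Nodup ∧ l.toFinset = Λ ∧ PathOn G (R j) (τ j) l := by
      intro j hj
      have hj' := Finset.mem_filter.1 hj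
      rcases hpat j (Finset.mem_range.1 hj'.1) with h | h
      · exact absurd h hj'.2
      · exact h
    set f : ℕ → List ℕ := fun j => if h : j ∈ T' then (hex j h).choose else [] with hf
    have hfs : ∀ j ∈ T', (f j).Nodup ∧ (f j).toFinset = Λ ∧ PathOn G (R j) (τ j) (f j) := by
      intro j hj
      rw [hf]
      simp only [dif_pos hj]
      exact (hex j hj).choose_spec
    set S := Λ.toList.permutations.toFinset with hS
    have hmaps : ∀ j ∈ T', f j ∈ S := by
      intro j hj
      obtain ⟨h1, h2, _⟩ := hfs j hj
      rw [hS, List.mem_toFinset, List.mem_permutations]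
      refine List.perm_of_nodup_nodup_toFinset_eq h1 Λ.nodup_toList ?_
      rw [h2, Finset.toList_toFinset]
    have hScard : S.card ≤ q.factorial := by
      refine (List.toFinset_card_le _).trans ?_
      rw [List.length_permutations, Finset.length_toList, hΛq]
    have hle : S.card * n ≤ T'.card := by
      calc S.card * n ≤ q.factorial * n := Nat.mul_le_mul_right _ hScard
        _ = n * q.factorial := Nat.mul_comm _ _
        _ ≤ T'.card := by omega
    have hSne : S.Nonempty := by
      refine ⟨Λ.toList, ?_⟩
      rw [hS, List.mem_toFinset, List.mem_permutations]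
    obtain ⟨l, hl, hln⟩ := Finset.exists_le_card_fiber_of_mul_le_card_of_maps_to hmaps hSne hle
    rw [hS, List.mem_toFinset, List.mem_permutations] at hl
    have hlnd : l.Nodup := hl.nodup_iff.2 Λ.nodup_toList
    have hlen : l.length = q := by rw [hl.length_eq, Finset.length_toList, hΛq]
    have hqn : n ≤ q := by
      rw [hq]
      nlinarith [Nat.zero_le n]
    refine grid_of_paths hR n hlnd (by omega) ?_ (T := T'.filter (fun x => f x = l)) ?_ hln ?_
    · intro k hk
      exact hΛN k (Finset.mem_toList.1 (hl.mem_iff.1 hk))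
    · intro j hj
      exact Finset.mem_range.1 (Finset.mem_filter.1 (Finset.mem_filter.1 hj).1).1
    · intro j hj
      have hj' := Finset.mem_filter.1 hj
      have := (hfs j hj'.1).2.2
      rwa [hj'.2] at this

end AG35
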