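import Pool.Agent.AG35.Defs

/-! # AG35.Geo1 : near geodesics and chains

`near_geo`: take the path of `IsLengthSpace`; for `s ≤ t` apply `eVariationOn.sum_le` (or
`eVariationOn.edist_le`-type arguments) to the partition `0 ≤ s ≤ t ≤ 1`:
`edist x (γ s) + edist (γ s) (γ t) + edist (γ t) y ≤ eVariationOn γ univ ≤ ofReal (dist x y + ε)`,
then go to real numbers (`edist_dist`, `ENNReal.ofReal_add`, `ENNReal.ofReal_le_ofReal_iff`).

`link_of_path`: the set of times `t` with `Link A J x (γ t)` contains `0`, is open and closed in the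
unit interval (if `dist (γ s) (γ t) ≤ J` then `Link A J x (γ s) ↔ Link A J x (γ t)`), so it is
everything (`IsClopen.eq_univ`).
-/

namespace AG35

open Set

variable {X : Type*} [MetricSpace X]

theorem near_geo (hX : IsLengthSpace X) (x y : X) {ε : ℝ} (hε : 0 < ε) :
    ∃ γ : Path x y, ∀ s t : unitInterval, s ≤ t →
      dist x (γ s) + dist (γ s) (γ t) + dist (γ t) y ≤ dist x y + ε := by
  obtain ⟨γ, hγ⟩ := hX x y ε hε
  refine ⟨γ, fun s t hst => ?_⟩
  let u : ℕ → unitInterval := fun i => if i = 0 then 0 else if i = 1 then s else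
    if i = 2 then t else 1
  have hu : Monotone u := by
    apply monotone_nat_of_le_succ
    intro n
    rcases n with _ | _ | _ | n
    · simp [u, unitInterval.nonneg']
    · simpa [u] using hst
    · simp [u, unitInterval.le_one']
    · simp [u]
  have h := eVariationOn.sum_le (f := γ) (s := univ) (n := 3) hu (fun i => mem_univ _)
  have h2 := h.trans hγ
  simp only [Finset.sum_range_succ, Finset.sum_range_zero, zero_add, u] at h2
  norm_num at h2
  rw [edist_dist, edist_dist, edist_dist, ← ENNReal.ofReal_add dist_nonneg dist_nonneg,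
    ← ENNReal.ofReal_add (add_nonneg dist_nonneg dist_nonneg) dist_nonneg,
    ENNReal.ofReal_le_ofReal_iff (by positivity)] at h2
  rw [dist_comm (γ s) x, dist_comm (γ t) (γ s), dist_comm y (γ t)] at h2
  exact h2

theorem Link.refl (A : Set X) (J : ℝ) (x : X) : Link A J x x := Relation.ReflTransGen.refl

theorem Link.single {A : Set X} {J : ℝ} {x y : X} (hx : x ∈ A) (hy : y ∈ A) (h : dist x y ≤ J) :
    Link A J x y := Relation.ReflTransGen.single ⟨hx, hy, h⟩

theorem Link.trans {A : Set X} {J : ℝ} {x y z : X} (h : Link A J x y) (h' : Link A J y z) :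
    Link A J x z := Relation.ReflTransGen.trans h h'

theorem Link.symm {A : Set X} {J : ℝ} {x y : X} (h : Link A J x y) : Link A J y x := by
  induction h with
  | refl => exact Relation.ReflTransGen.refl
  | tail _ hbc ih =>
    obtain ⟨hb, hc, hd⟩ := hbc
    exact Relation.ReflTransGen.head ⟨hc, hb, by rw [dist_comm]; exact hd⟩ ih

theorem Link.mono {A A' : Set X} {J J' : ℝ} {x y : X} (hA : A ⊆ A') (hJ : J ≤ J')
    (h : Link A J x y) : Link A' J' x y := by
  induction h with
  | refl => exact Relation.ReflTransGen.refl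
  | tail _ hbc ih => exact ih.tail ⟨hA hbc.1, hA hbc.2.1, hbc.2.2.trans hJ⟩

/-- the right end point of a link starting in `A` is in `A` -/
theorem Link.mem {A : Set X} {J : ℝ} {x y : X} (h : Link A J x y) (hx : x ∈ A) : y ∈ A := by
  induction h with
  | refl => exact hx
  | tail _ hbc _ => exact hbc.2.1

theorem link_of_path {x y : X} (γ : Path x y) {A : Set X} (hA : ∀ t, γ t ∈ A) {J : ℝ}
    (hJ : 0 < J) : Link A J x y := by
  have hnear : ∀ t : unitInterval, IsOpen {s : unitInterval | dist (γ s) (γ t) < J} := by
    intro t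
    exact isOpen_lt (by fun_prop) continuous_const
  have hclopen : IsClopen {t : unitInterval | Link A J x (γ t)} := by
    constructor
    · rw [← isOpen_compl_iff, isOpen_iff_mem_nhds]
      intro t ht
      filter_upwards [(hnear t).mem_nhds (by simpa using hJ)] with s hs hs'
      apply ht
      exact Link.trans hs' (Link.single (hA s) (hA t) (le_of_lt hs))
    · rw [isOpen_iff_mem_nhds]
      intro t ht
      filter_upwards [(hnear t).mem_nhds (by simpa using hJ)] with s hs
      exact Link.trans ht (Link.single (hA t) (hA s) (by rw [dist_comm]; exact le_of_lt hs))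
  have h0 : (0 : unitInterval) ∈ {t : unitInterval | Link A J x (γ t)} := by
    show Link A J x (γ 0)
    rw [γ.source]
    exact Link.refl A J x
  have huniv := hclopen.eq_univ ⟨0, h0⟩
  have h1 : (1 : unitInterval) ∈ {t : unitInterval | Link A J x (γ t)} := by
    rw [huniv]; exact mem_univ _
  have h2 : Link A J x (γ 1) := h1
  rwa [γ.target] at h2

/-- along a link the distance to the start takes every value up to `J` -/
theorem Link.exists_at {A : Set X} {J : ℝ} {a b : X} (hJ : 0 ≤ J) (h : Link A J a b) (ha : a ∈ A)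
    {T : ℝ} (hT0 : 0 ≤ T) (hT : T ≤ dist a b) :
    ∃ p ∈ A, Link A J a p ∧ T ≤ dist a p ∧ dist a p ≤ T + J := by
  induction h with
  | refl =>
    rw [dist_self] at hT
    refine ⟨a, ha, Link.refl A J a, ?_, ?_⟩
    · rw [dist_self]; exact hT
    · rw [dist_self]; linarith
  | @tail c b hac hcb ih =>
    by_cases hc : T ≤ dist a c
    · exact ih hc
    · refine ⟨b, hcb.2.1, Relation.ReflTransGen.tail hac hcb, hT, ?_⟩
      have h1 := dist_triangle a c b
      have h2 := hcb.2.2
      linarith

end AG35
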