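import Pool.Agent.AG35.SP

/-! # AG35.Pat : patterns on smaller sets of labels, many rows at once

`StarOn.mono`: clear.

`PathOn.eraseOne`: from `PathOn G A τ (l₁ ++ k :: l₂)` (no repetitions) to `PathOn G A τ (l₁ ++ l₂)`: if `l₁ = []`
forget `L k`; otherwise `l₁ = l₁' ++ [k']` and `L' k' = L k' ∪ L k` (connected by `GConn.union`), `L' = L` elsewhere.
The chain condition between `k'` and the first label of `l₂` uses the adjacency of `L k` with it.
`PathOn.sublist`: induction on the sublist relation (or on the length of `l` minus the length of `l'`).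

`PathOn.filter`: for `Λ' ⊆ l.toFinset` the list `l.filter (· ∈ Λ')` is a sublist of `l`.

`exists_patterns`: induction on `M` with `q` arbitrary: given the bound `F` for `M` rows and `q' := max q (F' q q)`-many labels... Precisely: let
`F_{M+1}(q) = F_M(f)` where `f = star_or_path q q`-bound `F`. From `Λ` with `F_{M+1}(q) ≤ card Λ` get `Λ₁ ⊆ Λ` with
`card Λ₁ = f` and patterns on `Λ₁` in the rows `< M`; apply `star_or_path q q` to row `M` and `Λ₁`: get `Λ₂ ⊆ Λ₁` of cardinality `q`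
with a star, or a list `l` of `q` labels, `Λ₂ = l.toFinset`. Restrict the patterns of the rows `< M` to `Λ₂`
(`StarOn.mono`; `PathOn.filter`, whose list has `toFinset = Λ₂`). For `M = 0` take any subset of
cardinality `q` (`Finset.exists_subset_card_eq`).
-/

namespace AG35

open Set

variable {V : Type*}

theorem StarOn.mono {G : SimpleGraph V} {A : Set V} {τ : ℕ → V} {Λ Λ' : Finset ℕ}
    (h : Λ' ⊆ Λ) (hS : StarOn G A τ Λ) : StarOn G A τ Λ' := by
  obtain ⟨C, L, h1, h2, h3, h4⟩ := hS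
  exact ⟨C, L, h1, h2, fun k hk => h3 k (h hk), fun k hk l hl => h4 k (h hk) l (h hl)⟩

private theorem pat_chain {R S : ℕ → ℕ → Prop} {l : List ℕ}
    (h : ∀ x ∈ l, ∀ y ∈ l, R x y → S x y) (hl : l.IsChain R) : l.IsChain S := by
  induction l with
  | nil => exact List.isChain_nil
  | cons a t ih =>
    rw [List.isChain_cons] at hl ⊢
    exact ⟨fun y hy => h a (by simp) y (by simp [List.mem_of_mem_head? hy]) (hl.1 y hy),
      ih (fun x hx y hy => h x (by simp [hx]) y (by simp [hy])) hl.2⟩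

private theorem pat_aux {G : SimpleGraph V} {A : Set V} {τ : ℕ → V} {l l' : List ℕ}
    (h : l'.Sublist l) : l.Nodup → ∀ (L : ℕ → Set V) (B : Set V), GConn G B → B ⊆ A →
    (∀ k ∈ l, GConn G (L k) ∧ L k ⊆ A ∧ τ k ∈ L k) →
    (∀ k ∈ l, ∀ k' ∈ l, k ≠ k' → Disjoint (L k) (L k')) →
    (∀ k ∈ l, Disjoint B (L k)) →
    l.IsChain (fun k k' => ∃ x ∈ L k, ∃ y ∈ L k', G.Adj x y) →
    (∀ k ∈ l.head?, ∃ x ∈ B, ∃ y ∈ L k, G.Adj x y) →
    ∃ (L' : ℕ → Set V) (B' : Set V), GConn G B' ∧ B' ⊆ A ∧ B ⊆ B' ∧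
      (∀ x ∈ B', x ∈ B ∨ ∃ i ∈ l, x ∈ L i) ∧
      (∀ k ∈ l', GConn G (L' k) ∧ L' k ⊆ A ∧ τ k ∈ L' k) ∧
      (∀ k ∈ l', ∀ x ∈ L' k, ∃ i ∈ l, x ∈ L i) ∧
      (∀ k ∈ l', ∀ k' ∈ l', k ≠ k' → Disjoint (L' k) (L' k')) ∧
      (∀ k ∈ l', Disjoint B' (L' k)) ∧
      l'.IsChain (fun k k' => ∃ x ∈ L' k, ∃ y ∈ L' k', G.Adj x y) ∧
      (∀ k ∈ l'.head?, ∃ x ∈ B', ∃ y ∈ L' k, G.Adj x y) := by
  induction h with
  | slnil =>
    intro _ L B hB hBA _ _ _ _ _
    exact ⟨L, B, hB, hBA, subset_rfl, fun x hx => Or.inl hx, by simp, by simp, by simp, by simp,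
      List.isChain_nil, by simp⟩
  | cons a h ih =>
    rename_i l₁ l₂
    intro hn L B hB hBA hL hd hBd hch hhd
    obtain ⟨ha, hn⟩ := List.nodup_cons.1 hn
    obtain ⟨x, hx, y, hy, hxy⟩ := hhd a (by simp)
    rw [List.isChain_cons] at hch
    obtain ⟨L', B', h1, h2, h3, h4, h5, h6, h7, h8, h9, h10⟩ := ih hn L (B ∪ L a)
      (GConn.union hB (hL a (by simp)).1 hx hy (Or.inl hxy))
      (Set.union_subset hBA (hL a (by simp)).2.1) (fun k hk => hL k (by simp [hk]))
      (fun k hk k' hk' => hd k (by simp [hk]) k' (by simp [hk']))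
      (fun k hk => Set.disjoint_union_left.2 ⟨hBd k (by simp [hk]),
        hd a (by simp) k (by simp [hk]) (fun h' => ha (h' ▸ hk))⟩)
      hch.2
      (fun k hk => by
        obtain ⟨u, hu, w, hw, huw⟩ := hch.1 k hk
        exact ⟨u, Or.inr hu, w, hw, huw⟩)
    refine ⟨L', B', h1, h2, fun z hz => h3 (Or.inl hz), ?_, h5, ?_, h7, h8, h9, h10⟩
    · intro z hz
      rcases h4 z hz with (h' | h') | ⟨i, hi, h'⟩
      · exact Or.inl h'
      · exact Or.inr ⟨a, by simp, h'⟩
      · exact Or.inr ⟨i, by simp [hi], h'⟩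
    · intro k hk z hz
      obtain ⟨i, hi, h'⟩ := h6 k hk z hz
      exact ⟨i, by simp [hi], h'⟩
  | cons_cons a h ih =>
    rename_i l₁ l₂
    intro hn L B hB hBA hL hd hBd hch hhd
    obtain ⟨ha, hn⟩ := List.nodup_cons.1 hn
    obtain ⟨x, hx, y, hy, hxy⟩ := hhd a (by simp)
    rw [List.isChain_cons] at hch
    obtain ⟨L', B', h1, h2, h3, h4, h5, h6, h7, h8, h9, h10⟩ := ih hn L (L a)
      (hL a (by simp)).1 (hL a (by simp)).2.1 (fun k hk => hL k (by simp [hk]))
      (fun k hk k' hk' => hd k (by simp [hk]) k' (by simp [hk']))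
      (fun k hk => hd a (by simp) k (by simp [hk]) (fun h' => ha (h' ▸ hk)))
      hch.2 (fun k hk => hch.1 k hk)
    have ha' : a ∉ l₁ := fun h' => ha (h.subset h')
    have hne : ∀ k ∈ l₁, Function.update L' a B' k = L' k := by
      intro k hk
      rw [Function.update_of_ne]
      rintro rfl
      exact ha' hk
    have hea : Function.update L' a B' a = B' := Function.update_self a B' L'
    refine ⟨Function.update L' a B', B, hB, hBA, subset_rfl, fun z hz => Or.inl hz,
      ?_, ?_, ?_, ?_, ?_, ?_⟩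
    · intro k hk
      rcases List.mem_cons.1 hk with rfl | hk
      · rw [hea]
        exact ⟨h1, h2, h3 (hL k (by simp)).2.2⟩
      · rw [hne k hk]
        exact h5 k hk
    · intro k hk z hz
      rcases List.mem_cons.1 hk with rfl | hk
      · rw [hea] at hz
        rcases h4 z hz with h' | ⟨i, hi, h'⟩
        · exact ⟨k, by simp, h'⟩
        · exact ⟨i, by simp [hi], h'⟩
      · rw [hne k hk] at hz
        obtain ⟨i, hi, h'⟩ := h6 k hk z hz
        exact ⟨i, by simp [hi], h'⟩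
    · intro k hk k' hk' hkk
      rcases List.mem_cons.1 hk with h11 | h11 <;> rcases List.mem_cons.1 hk' with h12 | h12
      · exact absurd (h11.trans h12.symm) hkk
      · rw [h11, hea, hne k' h12]
        exact h8 k' h12
      · rw [h12, hea, hne k h11]
        exact (h8 k h11).symm
      · rw [hne k h11, hne k' h12]
        exact h7 k h11 k' h12 hkk
    · intro k hk
      rw [Set.disjoint_left]
      intro z hz hz'
      have key : ∃ i ∈ a :: l₂, z ∈ L i := by
        rcases List.mem_cons.1 hk with rfl | hk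
        · rw [hea] at hz'
          rcases h4 z hz' with h' | ⟨i, hi, h'⟩
          · exact ⟨k, by simp, h'⟩
          · exact ⟨i, by simp [hi], h'⟩
        · rw [hne k hk] at hz'
          obtain ⟨i, hi, h'⟩ := h6 k hk z hz'
          exact ⟨i, by simp [hi], h'⟩
      obtain ⟨i, hi, h'⟩ := key
      exact Set.disjoint_left.1 (hBd i hi) hz h'
    · rw [List.isChain_cons]
      refine ⟨?_, ?_⟩
      · intro k hk
        rw [hea, hne k (List.mem_of_mem_head? hk)]
        exact h10 k hk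
      · refine pat_chain ?_ h9
        intro k hk k' hk' h'
        rw [hne k hk, hne k' hk']
        exact h'
    · intro k hk
      simp only [List.head?_cons, Option.mem_def, Option.some.injEq] at hk
      subst hk
      rw [hea]
      exact ⟨x, hx, y, h3 hy, hxy⟩

theorem PathOn.sublist {G : SimpleGraph V} {A : Set V} {τ : ℕ → V} {l l' : List ℕ}
    (h : l'.Sublist l) (hn : l.Nodup) (hS : PathOn G A τ l) : PathOn G A τ l' := by
  induction h with
  | slnil => exact hS
  | cons a h ih =>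
    rename_i l₁ l₂
    obtain ⟨ha, hn⟩ := List.nodup_cons.1 hn
    refine ih hn ?_
    obtain ⟨L, h1, h2, h3⟩ := hS
    rw [List.isChain_cons] at h3
    exact ⟨L, fun k hk => h1 k (by simp [hk]),
      fun k hk k' hk' => h2 k (by simp [hk]) k' (by simp [hk']), h3.2⟩
  | cons_cons a h ih =>
    rename_i l₁ l₂
    obtain ⟨ha, hn⟩ := List.nodup_cons.1 hn
    obtain ⟨L, hL, hd, hch⟩ := hS
    rw [List.isChain_cons] at hch
    obtain ⟨L', B', h1, h2, h3, h4, h5, h6, h7, h8, h9, h10⟩ := pat_aux h hn L (L a)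
      (hL a (by simp)).1 (hL a (by simp)).2.1 (fun k hk => hL k (by simp [hk]))
      (fun k hk k' hk' => hd k (by simp [hk]) k' (by simp [hk']))
      (fun k hk => hd a (by simp) k (by simp [hk]) (fun h' => ha (h' ▸ hk)))
      hch.2 (fun k hk => hch.1 k hk)
    have ha' : a ∉ l₁ := fun h' => ha (h.subset h')
    have hne : ∀ k ∈ l₁, Function.update L' a B' k = L' k := by
      intro k hk
      rw [Function.update_of_ne]
      rintro rfl
      exact ha' hk
    have hea : Function.update L' a B' a = B' := Function.update_self a B' L'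
    refine ⟨Function.update L' a B', ?_, ?_, ?_⟩
    · intro k hk
      rcases List.mem_cons.1 hk with rfl | hk
      · rw [hea]
        exact ⟨h1, h2, h3 (hL k (by simp)).2.2⟩
      · rw [hne k hk]
        exact h5 k hk
    · intro k hk k' hk' hkk
      rcases List.mem_cons.1 hk with h11 | h11 <;> rcases List.mem_cons.1 hk' with h12 | h12
      · exact absurd (h11.trans h12.symm) hkk
      · rw [h11, hea, hne k' h12]
        exact h8 k' h12
      · rw [h12, hea, hne k h11]
        exact (h8 k h11).symm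
      · rw [hne k h11, hne k' h12]
        exact h7 k h11 k' h12 hkk
    · rw [List.isChain_cons]
      refine ⟨?_, ?_⟩
      · intro k hk
        rw [hea, hne k (List.mem_of_mem_head? hk)]
        exact h10 k hk
      · refine pat_chain ?_ h9
        intro k hk k' hk' h'
        rw [hne k hk, hne k' hk']
        exact h'

theorem exists_patterns (M : ℕ) : ∀ q : ℕ, ∃ F : ℕ, ∀ {V : Type} (G : SimpleGraph V)
    (R : ℕ → Set V) (τ : ℕ → ℕ → V) (Λ : Finset ℕ), (∀ j < M, GConn G (R j)) →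
    (∀ j < M, ∀ k ∈ Λ, τ j k ∈ R j) → (∀ j < M, ∀ k ∈ Λ, ∀ l ∈ Λ, τ j k = τ j l → k = l) →
    F ≤ Λ.card → ∃ Λ' ⊆ Λ, Λ'.card = q ∧ ∀ j < M,
      StarOn G (R j) (τ j) Λ' ∨
        ∃ l : List ℕ, l.Nodup ∧ l.toFinset = Λ' ∧ PathOn G (R j) (τ j) l := by
  induction M with
  | zero =>
    intro q
    refine ⟨q, ?_⟩
    intro V G R τ Λ _ _ _ hF
    obtain ⟨Λ', h1, h2⟩ := Finset.exists_subset_card_eq hF
    exact ⟨Λ', h1, h2, fun j hj => absurd hj (Nat.not_lt_zero j)⟩
  | succ M ih =>
    intro q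
    obtain ⟨F₁, hF₁⟩ := star_or_path q q
    obtain ⟨F₂, hF₂⟩ := ih F₁
    refine ⟨F₂, ?_⟩
    intro V G R τ Λ hc hm hi hF
    obtain ⟨Λ₁, h1, h2, h3⟩ := hF₂ G R τ Λ (fun j hj => hc j (by omega))
      (fun j hj => hm j (by omega)) (fun j hj => hi j (by omega)) hF
    have key : ∃ Λ₂ ⊆ Λ₁, Λ₂.card = q ∧ (StarOn G (R M) (τ M) Λ₂ ∨
        ∃ l : List ℕ, l.Nodup ∧ l.toFinset = Λ₂ ∧ PathOn G (R M) (τ M) l) := by
      rcases hF₁ G (R M) (τ M) Λ₁ (hc M (by omega)) (fun k hk => hm M (by omega) k (h1 hk))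
        (fun k hk l hl => hi M (by omega) k (h1 hk) l (h1 hl)) h2.ge with
        ⟨Λ₂, h4, h5, h6⟩ | ⟨l, h4, h5, h6, h7⟩
      · exact ⟨Λ₂, h4, h5, Or.inl h6⟩
      · refine ⟨l.toFinset, fun k hk => h6 k (List.mem_toFinset.1 hk), ?_, Or.inr ⟨l, h4, rfl, h7⟩⟩
        rw [List.toFinset_card_of_nodup h4, h5]
    obtain ⟨Λ₂, h4, h5, h6⟩ := key
    refine ⟨Λ₂, h4.trans h1, h5, ?_⟩
    intro j hj
    rcases Nat.lt_or_ge j M with hjM | hjM
    · rcases h3 j hjM with h7 | ⟨l, h7, h8, h9⟩
      · exact Or.inl (h7.mono h4)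
      · refine Or.inr ⟨l.filter (· ∈ Λ₂), h7.filter _, ?_, h9.sublist List.filter_sublist h7⟩
        ext k
        rw [List.mem_toFinset, List.mem_filter, decide_eq_true_eq]
        constructor
        · exact fun h' => h'.2
        · intro h'
          refine ⟨?_, h'⟩
          rw [← List.mem_toFinset, h8]
          exact h4 h'
    · obtain rfl : j = M := by omega
      exact h6

end AG35
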