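import Pool.Agent.AG35.Stmt

/-! # AG35.QStmt : quasi-trees (definition used in a statement) -/

namespace AG35

universe u

/-- `X` is quasi-isometric to a tree: there are a tree `T` (a connected graph without cycles) with
vertex set `V`, a map `f : X → V` and a constant `C` such that distances are distorted by at most
`(C, C)` and every vertex of `T` is at distance at most `C` from the image of `f` -/
def IsQuasiTree (X : Type u) [MetricSpace X] : Prop :=
  ∃ (V : Type u) (T : SimpleGraph V) (f : X → V) (C : ℝ), T.IsTree ∧
    (∀ x y : X, dist x y ≤ C * T.dist (f x) (f y) + C) ∧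
    (∀ x y : X, (T.dist (f x) (f y) : ℝ) ≤ C * dist x y + C) ∧
    ∀ v : V, ∃ x : X, (T.dist v (f x) : ℝ) ≤ C

end AG35
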