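import Pool.Agent.AG35.QStmt
import Pool.Agent.AG35.Final

/-! # AG35.QTree : the bottleneck property implies that the space is a quasi-tree

The vertices of the tree are the pairs `(k, D)` where `D` is a class of the points at distance at
least `k` from the base point `o`, two such points being equivalent if they are linked by a chain
of such points with steps at most `1`. The parent of `(k + 1, D)` is the class containing `D`.
-/

namespace AG35

open Set

universe u

/-- a graph with a level function in which every vertex has at most one neighbour of lower level and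
no neighbour of the same level is acyclic -/
theorem acyclic_of_level {V : Type*} (T : SimpleGraph V) (lev : V → ℕ)
    (hl : ∀ u v, T.Adj u v → lev u = lev v + 1 ∨ lev v = lev u + 1)
    (hu : ∀ u v w, T.Adj u v → T.Adj u w → lev u = lev v + 1 → lev u = lev w + 1 → v = w) :
    T.IsAcyclic := by
  classical
  intro v c hc
  obtain ⟨u, hus, humax⟩ : ∃ u ∈ c.support, ∀ w ∈ c.support, lev w ≤ lev u := by
    have hne : c.support.toFinset.Nonempty := ⟨v, by simp⟩
    obtain ⟨u, h1, h2⟩ := Finset.exists_max_image c.support.toFinset lev hne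
    exact ⟨u, by simpa using h1, fun w hw => h2 w (by simpa using hw)⟩
  have hc' : (c.rotate u hus).IsCycle := by
    rw [SimpleGraph.Walk.isCycle_rotate]
    exact hc
  have hnn : ¬ (c.rotate u hus).Nil := hc'.not_nil
  have h1 : T.Adj u (c.rotate u hus).snd := SimpleGraph.Walk.adj_snd hnn
  have h2 : T.Adj (c.rotate u hus).penultimate u := SimpleGraph.Walk.adj_penultimate hnn
  have hm1 : (c.rotate u hus).snd ∈ c.support := by
    rw [← SimpleGraph.Walk.mem_support_rotate_iff c u hus]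
    exact SimpleGraph.Walk.getVert_mem_support _ _
  have hm2 : (c.rotate u hus).penultimate ∈ c.support := by
    rw [← SimpleGraph.Walk.mem_support_rotate_iff c u hus]
    exact SimpleGraph.Walk.getVert_mem_support _ _
  have e1 : lev u = lev (c.rotate u hus).snd + 1 := by
    rcases hl _ _ h1 with h | h
    · exact h
    · have := humax _ hm1; omega
  have e2 : lev u = lev (c.rotate u hus).penultimate + 1 := by
    rcases hl _ _ h2.symm with h | h
    · exact h
    · have := humax _ hm2; omega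
  exact hc'.snd_ne_penultimate (hu u _ _ h1 h2.symm e1 e2)

section

variable {X : Type u} [MetricSpace X]

/-- points at distance at least `k` from `o` -/
def UU (o : X) (k : ℕ) : Set X := {x | (k : ℝ) ≤ dist o x}

/-- the class of `x` at level `k` -/
def UC (o : X) (k : ℕ) (x : X) : Set X := {y | Link (UU o k) 1 x y}

/-- the vertices of the tree -/
def QV (o : X) : Type u := {p : ℕ × Set X // ∃ x, x ∈ UU o p.1 ∧ p.2 = UC o p.1 x}

theorem UU_mono (o : X) {j k : ℕ} (h : j ≤ k) : UU o k ⊆ UU o j := fun x hx => by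
  have : (j : ℝ) ≤ k := by exact_mod_cast h
  exact this.trans hx

theorem UC_sub {o : X} {k : ℕ} {x : X} (hx : x ∈ UU o k) : UC o k x ⊆ UU o k :=
  fun y hy => Link.mem (A := UU o k) hy hx

theorem UC_self (o : X) (k : ℕ) (x : X) : x ∈ UC o k x := Link.refl _ _ _

theorem UC_eq {o : X} {k : ℕ} {x y : X} (h : Link (UU o k) 1 x y) : UC o k x = UC o k y := by
  ext z
  exact ⟨fun hz => h.symm.trans hz, fun hz => h.trans hz⟩

theorem UC_mono (o : X) {j k : ℕ} (h : j ≤ k) (x : X) : UC o k x ⊆ UC o j x :=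
  fun _ hy => Link.mono (UU_mono o h) le_rfl hy

/-- the vertex of `x` at level `k` -/
def qv (o : X) (k : ℕ) (x : X) (hx : x ∈ UU o k) : QV o := ⟨(k, UC o k x), x, hx, rfl⟩

/-- the tree -/
def QT (o : X) : SimpleGraph (QV o) where
  Adj v w := (v.1.1 = w.1.1 + 1 ∧ v.1.2 ⊆ w.1.2) ∨ (w.1.1 = v.1.1 + 1 ∧ w.1.2 ⊆ v.1.2)
  symm := ⟨fun _ _ h => h.symm⟩
  loopless := ⟨fun v h => by rcases h with ⟨h, -⟩ | ⟨h, -⟩ <;> omega⟩

theorem QT_acyclic (o : X) : (QT o).IsAcyclic := by
  refine acyclic_of_level _ (fun v => v.1.1) (fun u v h => ?_) (fun u v w h1 h2 e1 e2 => ?_)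
  · rcases h with ⟨h, -⟩ | ⟨h, -⟩
    · exact Or.inl h
    · exact Or.inr h
  · have hv : u.1.2 ⊆ v.1.2 := by
      rcases h1 with ⟨-, h⟩ | ⟨h, -⟩
      · exact h
      · exfalso
        have e1' : u.1.1 = v.1.1 + 1 := e1
        omega
    have hw : u.1.2 ⊆ w.1.2 := by
      rcases h2 with ⟨-, h⟩ | ⟨h, -⟩
      · exact h
      · exfalso
        have e2' : u.1.1 = w.1.1 + 1 := e2
        omega
    obtain ⟨xu, -, hDu⟩ := u.2
    obtain ⟨xv, -, hDv⟩ := v.2
    obtain ⟨xw, -, hDw⟩ := w.2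
    have hk : v.1.1 = w.1.1 := by
      have e1' : u.1.1 = v.1.1 + 1 := e1
      have e2' : u.1.1 = w.1.1 + 1 := e2
      omega
    have hxu' : xu ∈ u.1.2 := by rw [hDu]; exact UC_self _ _ _
    have h3 : xu ∈ UC o v.1.1 xv := hDv ▸ hv hxu'
    have h4 : xu ∈ UC o w.1.1 xw := hDw ▸ hw hxu'
    apply Subtype.ext
    apply Prod.ext hk
    rw [hDv, hDw, UC_eq h3, UC_eq h4, hk]

theorem QT_adj (o : X) {k : ℕ} {x : X} (hx : x ∈ UU o (k + 1)) :
    (QT o).Adj (qv o (k + 1) x hx) (qv o k x (UU_mono o (Nat.le_succ k) hx)) :=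
  Or.inl ⟨rfl, UC_mono o (Nat.le_succ k) x⟩

theorem QT_walk (o : X) {j k : ℕ} (hjk : j ≤ k) {x : X} (hx : x ∈ UU o k) :
    ∃ p : (QT o).Walk (qv o k x hx) (qv o j x (UU_mono o hjk hx)), p.length = k - j := by
  induction k, hjk using Nat.le_induction with
  | base => exact ⟨SimpleGraph.Walk.nil, by simp⟩
  | succ k hjk ih =>
    obtain ⟨p, hp⟩ := ih (UU_mono o (Nat.le_succ k) hx)
    refine ⟨SimpleGraph.Walk.cons (QT_adj o hx) p, ?_⟩
    rw [SimpleGraph.Walk.length_cons, hp]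
    omega

theorem qv_eq {o : X} {k : ℕ} {x y : X} (hx : x ∈ UU o k) (hy : y ∈ UU o k)
    (h : Link (UU o k) 1 x y) : qv o k x hx = qv o k y hy := by
  apply Subtype.ext
  show (k, UC o k x) = (k, UC o k y)
  rw [UC_eq h]

theorem UU_zero (o x : X) : x ∈ UU o 0 := by
  show ((0 : ℕ) : ℝ) ≤ dist o x
  rw [Nat.cast_zero]
  exact dist_nonneg

theorem QT_connected (hX : IsLengthSpace X) (o : X) : (QT o).Connected := by
  have hroot : ∀ v : QV o, (QT o).Reachable v (qv o 0 o (UU_zero o o)) := by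
    rintro ⟨⟨k, D⟩, x, hx, hD⟩
    simp only at hx hD
    subst hD
    obtain ⟨p, -⟩ := QT_walk o (Nat.zero_le k) hx
    have e : qv o 0 x (UU_mono o (Nat.zero_le k) hx) = qv o 0 o (UU_zero o o) := by
      apply qv_eq
      obtain ⟨γ, -⟩ := near_geo hX x o (one_pos : (0 : ℝ) < 1)
      exact link_of_path γ (fun t => UU_zero o _) one_pos
    rw [← e]
    exact ⟨p⟩
  haveI : Nonempty (QV o) := ⟨qv o 0 o (UU_zero o o)⟩
  exact ⟨fun v w => (hroot v).trans (hroot w).symm⟩

/-- a point of the near geodesic from `o` to `x` at distance `k` from `o`, linked to `x` -/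
theorem exists_level_point (hX : IsLengthSpace X) (o : X) {k : ℕ} {x : X} (hx : x ∈ UU o k) :
    ∃ p : X, dist o p = k ∧ Link (UU o k) 1 x p ∧ dist x p ≤ dist o x - k + 1 := by
  obtain ⟨γ, hγ⟩ := near_geo hX o x (one_pos : (0 : ℝ) < 1)
  have hcont : Continuous (fun t : unitInterval => dist o (γ t)) := by fun_prop
  have hclosed : IsClosed {t : unitInterval | dist o (γ t) ≤ k} :=
    isClosed_le hcont continuous_const
  have hne : {t : unitInterval | dist o (γ t) ≤ k}.Nonempty := by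
    refine ⟨0, ?_⟩
    show dist o (γ 0) ≤ k
    rw [γ.source, dist_self]
    positivity
  obtain ⟨τ, hτ1, hτ2⟩ := hclosed.isCompact.exists_isGreatest hne
  have hτ1' : dist o (γ τ) ≤ k := hτ1
  have hc2 : Continuous (fun t : unitInterval => γ (max τ t)) := by fun_prop
  have hτ : dist o (γ τ) = k := by
    have hc3 : Continuous (fun t : unitInterval => dist o (γ (max τ t))) := by fun_prop
    have h0 : dist o (γ (max τ 0)) ≤ k := by
      rw [max_eq_left (unitInterval.nonneg' (t := τ))]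
      exact hτ1'
    have h1 : (k : ℝ) ≤ dist o (γ (max τ 1)) := by
      rw [max_eq_right (unitInterval.le_one' (t := τ)), γ.target]
      exact hx
    obtain ⟨t, ht⟩ := intermediate_value_univ (0 : unitInterval) 1 hc3 ⟨h0, h1⟩
    have ht' : dist o (γ (max τ t)) = k := ht
    have h2 : max τ t ≤ τ := hτ2 ht'.le
    have h3 : max τ t = τ := le_antisymm h2 (le_max_left _ _)
    rw [h3] at ht'
    exact ht'
  have hafter : ∀ t : unitInterval, γ (max τ t) ∈ UU o k := by
    intro t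
    show (k : ℝ) ≤ dist o (γ (max τ t))
    by_contra hcon
    have h2 : max τ t ≤ τ := hτ2 (le_of_lt (not_le.1 hcon))
    have h3 : max τ t = τ := le_antisymm h2 (le_max_left _ _)
    rw [h3, hτ] at hcon
    exact hcon le_rfl
  let δ : Path (γ τ) x :=
    { toFun := fun t => γ (max τ t)
      continuous_toFun := hc2
      source' := by
        show γ (max τ 0) = γ τ
        rw [max_eq_left (unitInterval.nonneg' (t := τ))]
      target' := by
        show γ (max τ 1) = x
        rw [max_eq_right (unitInterval.le_one' (t := τ)), γ.target] }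
  refine ⟨γ τ, hτ, (link_of_path δ (fun t => hafter t) one_pos).symm, ?_⟩
  have h := hγ τ τ le_rfl
  rw [dist_self, add_zero, hτ] at h
  rw [dist_comm x]
  linarith

/-- linked points of nearly equal level are close -/
theorem level_bound (hX : IsLengthSpace X) {Δ : ℝ} (hΔ : 0 ≤ Δ) (h : BP X Δ) (o : X) {k : ℕ}
    {x y : X} (hx : x ∈ UU o k) (hx2 : dist o x ≤ k + 1) (hy2 : dist o y ≤ k + 1)
    (hxy : Link (UU o k) 1 x y) : dist x y ≤ 4 * Δ + 10 := by
  have hy : y ∈ UU o k := hxy.mem hx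
  have hx1 : (k : ℝ) ≤ dist o x := hx
  have hy1 : (k : ℝ) ≤ dist o y := hy
  obtain ⟨T, hT, hST, hTd⟩ := hull hX (S := UC o k x) (J := 1) zero_le_one
    ⟨x, UC_self _ _ _⟩ (bpa_isLinked_class x)
  have hTo : ∀ z ∈ T, (k : ℝ) - 3 / 2 ≤ dist o z := by
    intro z hz
    obtain ⟨w, hw, hzw⟩ := hTd z hz
    have hw' : w ∈ UU o k := UC_sub hx hw
    have h1 : (k : ℝ) ≤ dist o w := hw'
    have h2 := dist_triangle o z w
    linarith
  rcases le_or_gt ((k : ℝ) - Δ - 2) 0 with ht | ht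
  · have h1 := dist_triangle x o y
    rw [dist_comm x o] at h1
    linarith
  · set t := (k : ℝ) - Δ - 2 with htd
    obtain ⟨γx, hγx⟩ := near_geo hX o x (one_pos : (0 : ℝ) < 1)
    obtain ⟨γy, hγy⟩ := near_geo hX o y (one_pos : (0 : ℝ) < 1)
    obtain ⟨τ, hτ⟩ : ∃ τ : unitInterval, dist o (γx τ) = t := by
      have hc : Continuous fun τ : unitInterval => dist o (γx τ) := by fun_prop
      have h0 : dist o (γx 0) ≤ t := by
        rw [γx.source, dist_self]; exact ht.le
      have h1 : t ≤ dist o (γx 1) := by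
        rw [γx.target]; linarith
      have := intermediate_value_univ (0 : unitInterval) 1 hc
      exact this ⟨h0, h1⟩
    have hm : dist o (γx τ) + dist (γx τ) x ≤ dist o x + 1 := by
      have := hγx τ τ le_rfl
      rw [dist_self, add_zero] at this
      exact this
    obtain ⟨δ, hδ⟩ := hT.joinedIn y (hST hxy) x (hST (Link.refl _ _ _))
    obtain ⟨s, hs⟩ := h o x (γx τ) hm (γy.trans δ)
    have hmem : (γy.trans δ) s ∈ range γy ∪ range δ := by
      rw [← Path.trans_range]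
      exact ⟨s, rfl⟩
    have htri : dist o ((γy.trans δ) s) ≤ t + Δ := by
      have := dist_triangle o (γx τ) ((γy.trans δ) s)
      linarith
    rcases hmem with ⟨s', hs'⟩ | ⟨s', hs'⟩
    · have h1 := hγy s' s' le_rfl
      rw [dist_self, add_zero, hs'] at h1
      have h2 := dist_triangle o ((γy.trans δ) s) (γx τ)
      have h2' : dist ((γy.trans δ) s) (γx τ) = dist (γx τ) ((γy.trans δ) s) := dist_comm _ _
      have h3 := dist_triangle (γx τ) ((γy.trans δ) s) y
      have h4 := dist_triangle x (γx τ) y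
      rw [dist_comm x (γx τ)] at h4
      linarith
    · have h1 := hTo _ (hδ s')
      rw [hs'] at h1
      linarith

theorem quasiTree_of_BP [Nonempty X] (hX : IsLengthSpace X) {Δ : ℝ} (h : BP X Δ) :
    IsQuasiTree X := by
  classical
  obtain ⟨o⟩ := ‹Nonempty X›
  have h' : BP X (max Δ 0) := by
    intro x y m hm γ
    obtain ⟨t, ht⟩ := h x y m hm γ
    exact ⟨t, ht.trans (le_max_left _ _)⟩
  have hΔ : 0 ≤ max Δ 0 := le_max_right _ _
  generalize max Δ 0 = Δ' at *
  have hfl : ∀ x : X, x ∈ UU o ⌊dist o x⌋₊ := fun x => Nat.floor_le dist_nonneg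
  have hfl2 : ∀ x : X, dist o x ≤ (⌊dist o x⌋₊ : ℝ) + 1 := fun x => (Nat.lt_floor_add_one _).le
  -- the vertices contain a point of their level
  have hpt : ∀ v : QV o, ∃ p : X, dist o p = v.1.1 ∧ v.1.2 = UC o v.1.1 p := by
    rintro ⟨⟨k, D⟩, x, hx, hD⟩
    obtain ⟨p, hp1, hp2, -⟩ := exists_level_point hX o hx
    exact ⟨p, hp1, hD.trans (UC_eq hp2)⟩
  choose g hg1 hg2 using hpt
  have hgU : ∀ v, g v ∈ UU o v.1.1 := fun v => (hg1 v).ge
  -- neighbouring vertices
  have hnb1 : ∀ v w : QV o, v.1.1 = w.1.1 + 1 → v.1.2 ⊆ w.1.2 →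
      dist (g v) (g w) ≤ 4 * Δ' + 12 := by
    intro v w hk hs
    have hv : g v ∈ UU o w.1.1 := by
      have := hgU v
      rw [hk] at this
      exact UU_mono o (Nat.le_succ _) this
    obtain ⟨p, hp1, hp2, hp3⟩ := exists_level_point hX o hv
    have e1 : g v ∈ UC o w.1.1 (g w) := by
      rw [← hg2 w]
      apply hs
      rw [hg2 v]
      exact UC_self _ _ _
    have e2 : Link (UU o w.1.1) 1 (g w) p := Link.trans e1 hp2
    have e3 := level_bound hX hΔ h' o (hgU w) (by rw [hg1 w]; linarith) (by rw [hp1]; linarith) e2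
    have e4 : dist o (g v) = (w.1.1 : ℝ) + 1 := by
      rw [hg1 v, hk]; push_cast; ring
    have e5 := dist_triangle (g v) p (g w)
    rw [dist_comm p] at e5
    rw [e4] at hp3
    linarith
  have hnb : ∀ v w : QV o, (QT o).Adj v w → dist (g v) (g w) ≤ 4 * Δ' + 12 := by
    intro v w hvw
    rcases hvw with ⟨h1, h2⟩ | ⟨h1, h2⟩
    · exact hnb1 v w h1 h2
    · rw [dist_comm]; exact hnb1 w v h1 h2
  have hwalk : ∀ {v w : QV o} (p : (QT o).Walk v w),
      dist (g v) (g w) ≤ (4 * Δ' + 12) * p.length := by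
    intro v w p
    induction p with
    | nil => simp
    | cons hadj p ih =>
      rename_i a b c
      have h1 := hnb _ _ hadj
      have h2 := dist_triangle (g a) (g b) (g c)
      rw [SimpleGraph.Walk.length_cons]
      push_cast
      linarith
  have hconn := QT_connected hX o
  have hf : ∀ x : X, dist x (g (qv o ⌊dist o x⌋₊ x (hfl x))) ≤ 4 * Δ' + 10 := by
    intro x
    set v := qv o ⌊dist o x⌋₊ x (hfl x) with hv
    have e0 : v.1.1 = ⌊dist o x⌋₊ := rfl
    have e1 : UC o ⌊dist o x⌋₊ x = UC o ⌊dist o x⌋₊ (g v) := hg2 v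
    have e2 : Link (UU o ⌊dist o x⌋₊) 1 x (g v) := by
      have : g v ∈ UC o ⌊dist o x⌋₊ x := by
        rw [e1]; exact UC_self _ _ _
      exact this
    refine level_bound hX hΔ h' o (hfl x) (hfl2 x) ?_ e2
    have := hg1 v
    rw [e0] at this
    rw [this]
    linarith
  refine ⟨QV o, QT o, fun x => qv o ⌊dist o x⌋₊ x (hfl x), 8 * Δ' + 20, ⟨hconn, QT_acyclic o⟩,
    ?_, ?_, ?_⟩
  · intro x y
    obtain ⟨p, hp⟩ := hconn.exists_walk_length_eq_dist (qv o ⌊dist o x⌋₊ x (hfl x))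
      (qv o ⌊dist o y⌋₊ y (hfl y))
    have h1 := hwalk p
    rw [hp] at h1
    have h2 := hf x
    have h3 : dist (g (qv o ⌊dist o y⌋₊ y (hfl y))) y ≤ 4 * Δ' + 10 := by
      rw [dist_comm]; exact hf y
    have h4 := dist_triangle4 x (g (qv o ⌊dist o x⌋₊ x (hfl x)))
      (g (qv o ⌊dist o y⌋₊ y (hfl y))) y
    have h5 : (0 : ℝ) ≤ (QT o).dist (qv o ⌊dist o x⌋₊ x (hfl x)) (qv o ⌊dist o y⌋₊ y (hfl y)) :=
      Nat.cast_nonneg _
    show dist x y ≤ (8 * Δ' + 20) *
      ((QT o).dist (qv o ⌊dist o x⌋₊ x (hfl x)) (qv o ⌊dist o y⌋₊ y (hfl y)) : ℝ) + (8 * Δ' + 20)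
    generalize ((QT o).dist (qv o ⌊dist o x⌋₊ x (hfl x)) (qv o ⌊dist o y⌋₊ y (hfl y)) : ℝ) = d at *
    nlinarith [mul_nonneg hΔ h5]
  · intro x y
    obtain ⟨γ, hγ⟩ := near_geo hX x y (one_pos : (0 : ℝ) < 1)
    have hcont : Continuous (fun t : unitInterval => dist o (γ t)) := by fun_prop
    obtain ⟨τ, -, hτ⟩ := isCompact_univ.exists_isMinOn univ_nonempty hcont.continuousOn
    have hmin : ∀ t : unitInterval, dist o (γ τ) ≤ dist o (γ t) := fun t => hτ (mem_univ t)
    have hj : ∀ t : unitInterval, γ t ∈ UU o ⌊dist o (γ τ)⌋₊ := fun t =>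
      (Nat.floor_le dist_nonneg).trans (hmin t)
    have hlink : Link (UU o ⌊dist o (γ τ)⌋₊) 1 x y := link_of_path γ hj one_pos
    have hxj : ⌊dist o (γ τ)⌋₊ ≤ ⌊dist o x⌋₊ := by
      apply Nat.floor_mono
      have := hmin 0
      rwa [γ.source] at this
    have hyj : ⌊dist o (γ τ)⌋₊ ≤ ⌊dist o y⌋₊ := by
      apply Nat.floor_mono
      have := hmin 1
      rwa [γ.target] at this
    obtain ⟨p, hp⟩ := QT_walk o hxj (hfl x)
    obtain ⟨q, hq⟩ := QT_walk o hyj (hfl y)
    have e : qv o ⌊dist o (γ τ)⌋₊ x (UU_mono o hxj (hfl x)) =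
        qv o ⌊dist o (γ τ)⌋₊ y (UU_mono o hyj (hfl y)) := qv_eq _ _ hlink
    have hd : (QT o).dist (qv o ⌊dist o x⌋₊ x (hfl x)) (qv o ⌊dist o y⌋₊ y (hfl y)) ≤
        (⌊dist o x⌋₊ - ⌊dist o (γ τ)⌋₊) + (⌊dist o y⌋₊ - ⌊dist o (γ τ)⌋₊) := by
      have h1 := SimpleGraph.dist_le (p.append ((SimpleGraph.Walk.copy q.reverse e.symm rfl)))
      rw [SimpleGraph.Walk.length_append, SimpleGraph.Walk.length_copy,
        SimpleGraph.Walk.length_reverse, hp, hq] at h1
      exact h1
    have hgeo := hγ τ τ le_rfl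
    rw [dist_self, add_zero] at hgeo
    have t1 := dist_triangle o (γ τ) x
    have t2 := dist_triangle o (γ τ) y
    rw [dist_comm (γ τ) x] at t1
    have f1 : (⌊dist o x⌋₊ : ℝ) ≤ dist o x := Nat.floor_le dist_nonneg
    have f2 : (⌊dist o y⌋₊ : ℝ) ≤ dist o y := Nat.floor_le dist_nonneg
    have f3 : dist o (γ τ) < (⌊dist o (γ τ)⌋₊ : ℝ) + 1 := Nat.lt_floor_add_one _
    have hd' : ((QT o).dist (qv o ⌊dist o x⌋₊ x (hfl x)) (qv o ⌊dist o y⌋₊ y (hfl y)) : ℝ) ≤
        ((⌊dist o x⌋₊ : ℝ) - ⌊dist o (γ τ)⌋₊) + ((⌊dist o y⌋₊ : ℝ) - ⌊dist o (γ τ)⌋₊) := by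
      have := (Nat.cast_le (α := ℝ)).2 hd
      rw [Nat.cast_add, Nat.cast_sub hxj, Nat.cast_sub hyj] at this
      exact this
    have hdn : 0 ≤ dist x y := dist_nonneg
    nlinarith
  · rintro ⟨⟨k, D⟩, x, hx, hD⟩
    simp only at hx hD
    subst hD
    obtain ⟨p, hp1, hp2, -⟩ := exists_level_point hX o hx
    refine ⟨p, ?_⟩
    have hk : ⌊dist o p⌋₊ = k := by rw [hp1]; exact Nat.floor_natCast k
    have e : (⟨(k, UC o k x), x, hx, rfl⟩ : QV o) = qv o ⌊dist o p⌋₊ p (hfl p) := by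
      apply Subtype.ext
      show (k, UC o k x) = (⌊dist o p⌋₊, UC o ⌊dist o p⌋₊ p)
      rw [hk, UC_eq hp2]
    rw [e, SimpleGraph.dist_self]
    push_cast
    linarith

end

/-- the main theorem with the conclusion that `X` is a quasi-tree -/
theorem main_quasiTree {X : Type u} [MetricSpace X] [Nonempty X] (hX : IsLengthSpace X)
    (hH : ∃ ρ : ℝ, 0 < ρ ∧ H1FiniteRank ρ X)
    (hn : ∃ n : ℕ, ¬ IsAsymptoticMinor (gridGraph n) X) : IsQuasiTree X ∧ AsdimLE 1 X := by
  obtain ⟨ρ, hρ, hfr⟩ := hH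
  obtain ⟨ρ', hρ', hH'⟩ := h1trivial_of_finiteRank hX hρ hfr 2
  obtain ⟨n, hn⟩ := hn
  by_contra hcon
  exact hn fun K hK => grid_of_not_BP hX hρ' hH'
    (fun Δ hB => hcon ⟨quasiTree_of_BP hX hB, asdim_of_BP hX hB⟩) n hK

end AG35
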