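import Pool.Agent.AG35.Geo1

/-! # AG35.RM1 : the components of a row outside the balls, at a good scale

`Y` is a row, `t k` (`k < N`) are far apart points of `Y`, `OutSet Y N t a` is the part of `Y` outside the
closed balls of radius `a` about the `t k`. `Touch J y` is the set of labels `k < N` such that the
`J`-component of `y` in `OutSet` comes within `a + J` of `t k`. `Types J` is the set of all
`T ⊆ Touch J y`, `y ∈ OutSet`.

* `touch_mono`, `types_mono`: a `J`-component is contained in a `J'`-component if `J ≤ J'`.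
* `exists_scale`: `Types (J i) ⊆ Types (J (i+1)) ⊆ powerset (range N)`, which has `2^N` elements, so the
cardinalities cannot increase `2^N + 1` times (`i = 0, .., 2^N`).
* `touch_eq`: `Touch` is constant on components.
* `sep`: let `S ≠ S'` be maximal in `Types J = Types J'`, `J ≤ J'`. If points `z`, `z'` of the components of `y`, `y'`
(with `S ⊆ Touch J y`, `S' ⊆ Touch J y'`) had distance `≤ J'`, then `y, y'` would be in one
`J'`-component, so `S ∪ S' ⊆ Touch J' y`, `S ∪ S' ∈ Types J' = Types J`; by maximality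
`S ∪ S' = S` and `= S'`, a contradiction.
* `maxTypes_conn`: every `T ∈ Types J` is contained in some maximal one (finite set). Let
`conn k l` be the relation of the statement. Along a chain of `Link Y ρ (t k) (t l)` one proves by
induction (`Relation.ReflTransGen` from the left) for each point `y` of the chain: if `dist (t i) y ≤ a` (`i < N`)
then `conn k i`, and if `y ∈ OutSet` then `conn k i` for all `i ∈ Touch J y`. Step `y → y'`,
`dist y y' ≤ ρ ≤ J`: (ball, ball) the two balls are equal because of `hfar`; (ball `i`, out)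
`i ∈ Touch J y'`, and any `i' ∈ Touch J y'` is in a common maximal type with `i`; (out, out) `Touch` is the
same; (out, ball `i`) `dist (t i) y ≤ a + J`, so `i ∈ Touch J y`.
-/

namespace AG35

open Set Classical

variable {X : Type*} [MetricSpace X]

/-- the part of `Y` outside the closed balls of radius `a` about the `t k` -/
def OutSet (Y : Set X) (N : ℕ) (t : ℕ → X) (a : ℝ) : Set X := {y ∈ Y | ∀ k < N, a < dist (t k) y}

/-- the labels touched by the `J`-component of `y` -/
noncomputable def Touch (Y : Set X) (N : ℕ) (t : ℕ → X) (a J : ℝ) (y : X) : Finset ℕ :=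
  (Finset.range N).filter fun k => ∃ y' ∈ OutSet Y N t a, Link (OutSet Y N t a) J y y' ∧
    dist (t k) y' ≤ a + J

/-- the sets of labels contained in some `Touch J y` -/
noncomputable def Types (Y : Set X) (N : ℕ) (t : ℕ → X) (a J : ℝ) : Finset (Finset ℕ) :=
  (Finset.range N).powerset.filter fun T => ∃ y ∈ OutSet Y N t a, T ⊆ Touch Y N t a J y

/-- the maximal elements of `Types` -/
noncomputable def MaxTypes (Y : Set X) (N : ℕ) (t : ℕ → X) (a J : ℝ) : Finset (Finset ℕ) :=
  (Types Y N t a J).filter fun T => ∀ T' ∈ Types Y N t a J, T ⊆ T' → T' = T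

variable {Y : Set X} {N : ℕ} {t : ℕ → X} {a : ℝ}

theorem touch_mono {J J' : ℝ} (h : J ≤ J') (y : X) :
    Touch Y N t a J y ⊆ Touch Y N t a J' y := by
  intro k hk
  unfold Touch at hk ⊢
  rw [Finset.mem_filter] at hk ⊢
  obtain ⟨h1, y', h2, h3, h4⟩ := hk
  exact ⟨h1, y', h2, h3.mono subset_rfl h, by linarith⟩

theorem types_mono {J J' : ℝ} (h : J ≤ J') : Types Y N t a J ⊆ Types Y N t a J' := by
  intro T hT
  unfold Types at hT ⊢
  rw [Finset.mem_filter] at hT ⊢
  obtain ⟨h1, y, h2, h3⟩ := hT
  exact ⟨h1, y, h2, h3.trans (touch_mono h y)⟩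

theorem exists_scale (Y : Set X) (N : ℕ) (t : ℕ → X) (a : ℝ) {J : ℕ → ℝ} (hJ : Monotone J) :
    ∃ i ≤ 2 ^ N, Types Y N t a (J i) = Types Y N t a (J (i + 1)) := by
  by_contra hcon
  push Not at hcon
  have key : ∀ i ≤ 2 ^ N + 1, i ≤ (Types Y N t a (J i)).card := by
    intro i
    induction i with
    | zero => intro _; exact Nat.zero_le _
    | succ i ih =>
      intro hi
      have h1 := ih (by omega)
      have h2 : Types Y N t a (J i) ⊂ Types Y N t a (J (i + 1)) :=
        Finset.ssubset_iff_subset_ne.2 ⟨types_mono (hJ (Nat.le_succ i)), hcon i (by omega)⟩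
      have h3 := Finset.card_lt_card h2
      omega
  have h1 := key (2 ^ N + 1) le_rfl
  have h2 : (Types Y N t a (J (2 ^ N + 1))).card ≤ 2 ^ N := by
    calc (Types Y N t a (J (2 ^ N + 1))).card ≤ (Finset.range N).powerset.card :=
          Finset.card_le_card (Finset.filter_subset _ _)
      _ = 2 ^ N := by rw [Finset.card_powerset, Finset.card_range]
  omega

theorem touch_eq {J : ℝ} {y y' : X} (h : Link (OutSet Y N t a) J y y') :
    Touch Y N t a J y = Touch Y N t a J y' := by
  ext k
  unfold Touch
  rw [Finset.mem_filter, Finset.mem_filter]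
  constructor
  · rintro ⟨h1, z, h2, h3, h4⟩
    exact ⟨h1, z, h2, h.symm.trans h3, h4⟩
  · rintro ⟨h1, z, h2, h3, h4⟩
    exact ⟨h1, z, h2, h.trans h3, h4⟩

private theorem touch_subset {J : ℝ} {y : X} : Touch Y N t a J y ⊆ Finset.range N :=
  Finset.filter_subset _ _

private theorem mem_types_of_subset {J : ℝ} {y : X} (hy : y ∈ OutSet Y N t a) {T : Finset ℕ}
    (hT : T ⊆ Touch Y N t a J y) : T ∈ Types Y N t a J := by
  unfold Types
  rw [Finset.mem_filter, Finset.mem_powerset]
  exact ⟨hT.trans touch_subset, y, hy, hT⟩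

private theorem exists_maxType {J : ℝ} {T : Finset ℕ} (hT : T ∈ Types Y N t a J) :
    ∃ S ∈ MaxTypes Y N t a J, T ⊆ S := by
  obtain ⟨S, hS, hmax⟩ := Finset.exists_max_image
    ((Types Y N t a J).filter fun S => T ⊆ S) Finset.card
    ⟨T, Finset.mem_filter.2 ⟨hT, Finset.Subset.refl T⟩⟩
  rw [Finset.mem_filter] at hS
  refine ⟨S, ?_, hS.2⟩
  unfold MaxTypes
  rw [Finset.mem_filter]
  refine ⟨hS.1, fun T' hT' hST' => ?_⟩
  have h1 := hmax T' (Finset.mem_filter.2 ⟨hT', hS.2.trans hST'⟩)
  exact (Finset.eq_of_subset_of_card_le hST' h1).symm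

/-- a maximal type is the full touch set of a component -/
theorem maxTypes_touch {J : ℝ} {S : Finset ℕ} (hS : S ∈ MaxTypes Y N t a J) :
    ∃ y ∈ OutSet Y N t a, Touch Y N t a J y = S := by
  unfold MaxTypes at hS
  rw [Finset.mem_filter] at hS
  obtain ⟨hS, hmax⟩ := hS
  have hS' := hS
  unfold Types at hS'
  rw [Finset.mem_filter] at hS'
  obtain ⟨_, y, hy, hSy⟩ := hS'
  exact ⟨y, hy, hmax _ (mem_types_of_subset hy (Finset.Subset.refl _)) hSy⟩

theorem sep {J J' : ℝ} (hJ : J ≤ J') (hT : Types Y N t a J = Types Y N t a J')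
    {S S' : Finset ℕ} (hS : S ∈ MaxTypes Y N t a J) (hS' : S' ∈ MaxTypes Y N t a J)
    (hne : S ≠ S') {y y' z z' : X} (hy : y ∈ OutSet Y N t a) (hy' : y' ∈ OutSet Y N t a)
    (hSy : Touch Y N t a J y = S) (hSy' : Touch Y N t a J y' = S')
    (hz : Link (OutSet Y N t a) J y z) (hz' : Link (OutSet Y N t a) J y' z') :
    J' < dist z z' := by
  by_contra hcon
  push Not at hcon
  have hzO := hz.mem hy
  have hzO' := hz'.mem hy'
  have hl : Link (OutSet Y N t a) J' y y' :=
    (hz.mono subset_rfl hJ).trans ((Link.single hzO hzO' hcon).trans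
      (hz'.mono subset_rfl hJ).symm)
  have h1 : S ⊆ Touch Y N t a J' y := by rw [← hSy]; exact touch_mono hJ y
  have h2 : S' ⊆ Touch Y N t a J' y := by
    rw [← hSy', touch_eq hl]; exact touch_mono hJ y'
  have h3 : S ∪ S' ∈ Types Y N t a J := by
    rw [hT]; exact mem_types_of_subset hy (Finset.union_subset h1 h2)
  unfold MaxTypes at hS hS'
  rw [Finset.mem_filter] at hS hS'
  have h4 := hS.2 _ h3 Finset.subset_union_left
  have h5 := hS'.2 _ h3 Finset.subset_union_right
  exact hne (h4.symm.trans h5)

theorem maxTypes_conn {ρ J : ℝ} (hρJ : ρ ≤ J) (hJ0 : 0 ≤ J) (hY : IsLinked Y ρ) (ha : 0 ≤ a)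
    (ht : ∀ k < N, t k ∈ Y)
    (hfar : ∀ k < N, ∀ l < N, k ≠ l → 2 * a + J < dist (t k) (t l)) :
    ∀ k < N, ∀ l < N, Relation.ReflTransGen
      (fun k l => ∃ S ∈ MaxTypes Y N t a J, k ∈ S ∧ l ∈ S) k l := by
  intro k hk l hl
  have hself : ∀ {y : X}, y ∈ OutSet Y N t a → ∀ i < N, dist (t i) y ≤ a + J →
      i ∈ Touch Y N t a J y := by
    intro y hy i hi hd
    unfold Touch
    rw [Finset.mem_filter, Finset.mem_range]
    exact ⟨hi, y, hy, Link.refl _ _ _, hd⟩
  have key : ∀ y : X, Link Y ρ (t k) y →
      (∀ i < N, dist (t i) y ≤ a → Relation.ReflTransGen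
        (fun k l => ∃ S ∈ MaxTypes Y N t a J, k ∈ S ∧ l ∈ S) k i) ∧
      (y ∈ OutSet Y N t a → ∀ i ∈ Touch Y N t a J y, Relation.ReflTransGen
        (fun k l => ∃ S ∈ MaxTypes Y N t a J, k ∈ S ∧ l ∈ S) k i) := by
    intro y hy
    induction hy with
    | refl =>
      constructor
      · intro i hi hd
        by_cases hik : i = k
        · rw [hik]
        · have h1 := hfar i hi k hk hik
          linarith
      · intro hO
        have h1 := hO.2 k hk
        rw [dist_self] at h1
        linarith
    | @tail y y' _ hyy' ih =>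
      obtain ⟨hyY, hy'Y, hd⟩ := hyy'
      have hdJ : dist y y' ≤ J := hd.trans hρJ
      by_cases hball : ∃ i₀ < N, dist (t i₀) y ≤ a
      · obtain ⟨i₀, hi₀, hdi₀⟩ := hball
        have hk0 := ih.1 i₀ hi₀ hdi₀
        have hd1 : dist (t i₀) y' ≤ a + J := by
          have := dist_triangle (t i₀) y y'
          linarith
        constructor
        · intro i hi hdi
          by_cases hii : i₀ = i
          · rw [← hii]; exact hk0
          · exfalso
            have h1 := hfar i₀ hi₀ i hi hii
            have h2 := dist_triangle_right (t i₀) (t i) y'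
            linarith
        · intro hO i hi
          obtain ⟨S, hS, hsub⟩ := exists_maxType (mem_types_of_subset hO (Finset.Subset.refl _))
          exact hk0.tail ⟨S, hS, hsub (hself hO i₀ hi₀ hd1), hsub hi⟩
      · push Not at hball
        have hO : y ∈ OutSet Y N t a := ⟨hyY, hball⟩
        constructor
        · intro i hi hdi
          apply ih.2 hO
          apply hself hO i hi
          have h1 := dist_triangle_right (t i) y y'
          linarith
        · intro hO' i hi
          apply ih.2 hO
          rw [touch_eq (Link.single hO hO' hdJ)]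
          exact hi
  exact (key (t l) (hY _ (ht k hk) _ (ht l hl))).1 l hl (by rw [dist_self]; exact ha)

end AG35
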