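import Pool.Agent.AG35.QTree

/-!
# MP_ae599a_gt : asymptotic grid minors and asymptotic dimension

Let `X` be a nonempty length space such that, for some scale `ρ > 0`, the first integral cohomology
of the Rips complex of `X` at scale `ρ` has finite rank (it vanishes, for example, if `X` is
coarsely simply connected). If some `n × n` grid is not an asymptotic minor of `X` then `X` is
quasi-isometric to a tree, and in particular the asymptotic dimension of `X` is at most `1`.

The definitions (`IsLengthSpace`, `H1FiniteRank`, `gridGraph`, `IsAsymptoticMinor`, `AsdimLE`) are in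
`Pool.Agent.AG35.Stmt`, and `IsQuasiTree` is in `Pool.Agent.AG35.QStmt`.
-/

theorem AG35.finiteRankRips {X : Type*} [MetricSpace X]
    [Nonempty X] (hX : AG35.IsLengthSpace X)
    (hH : ∃ ρ : ℝ, 0 < ρ ∧ AG35.H1FiniteRank ρ X)
    (hn : ∃ n : ℕ, ¬ AG35.IsAsymptoticMinor (AG35.gridGraph n) X) :
    AG35.IsQuasiTree X ∧ AG35.AsdimLE 1 X :=
  AG35.main_quasiTree hX hH hn
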