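import Pool.Agent.AG35.Defs

/-! # AG35.SP : star or path

`exists_one`: if `w ∈ A` is linked in `A` to a terminal `τ k0` (`k0 ∈ Λ`) then there are a connected set
`P ⊆ A`, `w ∈ P`, and a label `k ∈ Λ` with `τ k ∈ P` and `τ l ∉ P` for all `l ∈ Λ`, `l ≠ k`. Proof by
`Relation.ReflTransGen.head_induction_on`: if `w = τ k` for some `k ∈ Λ` take `P = {w}` (`τ` is
injective on `Λ`), otherwise `w` is adjacent to some `w'` with a set `P'`; take `insert w P'`.

`anchored`: let `F 0 = 0`, `F (p+1) = q * F p + 1`. For all `p`, every connected `A`, every finite set `Λ` of labels,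
`τ` injective on `Λ` with `τ k ∈ A` for `k ∈ Λ`, `F p ≤ Λ.card`, and every `w ∈ A`: either there is `Λ' ⊆ Λ` of cardinality `q` with `StarOn G A τ Λ'`, or
there are a list `l` without repetitions, of length `p`, of labels in `Λ` and sets `L k` as in `PathOn`
such that moreover `w ∈ L k` for the first label `k` of the list (if `p > 0`). Induction on `p` (`p = 0`: empty list).
Step `p+1`: `Λ` is nonempty; `exists_one` gives `P ∋ w` with exactly one terminal `τ k`. On `Λ \ {k}` consider the
equivalence relation `GLink G (A \ P) (τ i) (τ j)`. For `i ∈ Λ \ {k}` let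
`Z i = {x | GLink G (A \ P) (τ i) x}` (its members are in `A \ P`), a connected set that is adjacent to
`P`: since `A` is connected, `τ i` is linked to `w` in `A`; the first vertex of the walk in `P` is adjacent to the
previous one, which is in `Z i`.
 * If there are `q` labels with pairwise different classes: star with centre `P` and leaves `Z i`.
 * Otherwise there are fewer than `q` classes, so (as `q * F p ≤ card (Λ \ {k})`) some class contains at least `F p` labels
 (`Finset.exists_le_card_fiber_of_mul_le_card_of_maps_to` or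
 `Finset.card_le_mul_card_image`; take the map `i ↦ Z i` into `Finset.image`, decidable by `Classical`). Apply the
 induction hypothesis to `A' = Z i`, the labels in this class, and a vertex `w' ∈ Z i` adjacent to a vertex of `P`. A star
 in `A'` is a star in `A`; a path list `l` gives `k :: l` with `L k = P` (change `L` at `k` only, `k ∉ l`).

Conclusion `star_or_path`.
-/

namespace AG35

open Set

variable {V : Type*}

theorem GLink.symm {G : SimpleGraph V} {A : Set V} {x y : V} (h : GLink G A x y) :
    GLink G A y x := by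
  induction h with
  | refl => exact Relation.ReflTransGen.refl
  | tail _ h2 ih => exact Relation.ReflTransGen.head ⟨h2.2.1, h2.1, h2.2.2.symm⟩ ih

theorem GLink.mono {G : SimpleGraph V} {A A' : Set V} (hA : A ⊆ A') {x y : V}
    (h : GLink G A x y) : GLink G A' x y := by
  induction h with
  | refl => exact Relation.ReflTransGen.refl
  | tail _ h2 ih => exact Relation.ReflTransGen.tail ih ⟨hA h2.1, hA h2.2.1, h2.2.2⟩

theorem GConn.union {G : SimpleGraph V} {A A' : Set V} (hA : GConn G A) (hA' : GConn G A')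
    {x y : V} (hx : x ∈ A) (hy : y ∈ A') (h : G.Adj x y ∨ x = y) : GConn G (A ∪ A') := by
  have hyx : GLink G (A ∪ A') y x := by
    rcases h with h | h
    · exact Relation.ReflTransGen.single ⟨Or.inr hy, Or.inl hx, h.symm⟩
    · rw [h]; exact Relation.ReflTransGen.refl
  have key : ∀ u ∈ A ∪ A', GLink G (A ∪ A') u x := by
    intro u hu
    rcases hu with hu | hu
    · exact (hA.2 u hu x hx).mono subset_union_left
    · exact Relation.ReflTransGen.trans ((hA'.2 u hu y hy).mono subset_union_right) hyx
  exact ⟨⟨x, Or.inl hx⟩, fun u hu v hv =>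
    Relation.ReflTransGen.trans (key u hu) (key v hv).symm⟩

private theorem sp_conn_singleton (G : SimpleGraph V) (w : V) : GConn G ({w} : Set V) := by
  refine ⟨⟨w, rfl⟩, ?_⟩
  intro x hx y hy
  rw [mem_singleton_iff] at hx hy
  rw [hx, hy]
  exact Relation.ReflTransGen.refl

private theorem sp_link_mem {G : SimpleGraph V} {A : Set V} {x y : V} (h : GLink G A x y)
    (hx : x ∈ A) : y ∈ A := by
  induction h with
  | refl => exact hx
  | tail _ h _ => exact h.2.1

/-- a connected set from `w` to the first terminal -/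
private theorem exists_one {G : SimpleGraph V} {A : Set V} {τ : ℕ → V} {Λ : Finset ℕ}
    (hinj : ∀ k ∈ Λ, ∀ l ∈ Λ, τ k = τ l → k = l) {k0 : ℕ} (hk0 : k0 ∈ Λ) (hk0A : τ k0 ∈ A) {w : V}
    (hl : GLink G A w (τ k0)) :
    ∃ P : Set V, P ⊆ A ∧ GConn G P ∧ w ∈ P ∧ ∃ k ∈ Λ, τ k ∈ P ∧ ∀ l ∈ Λ, l ≠ k → τ l ∉ P := by
  have base : ∀ k ∈ Λ, τ k ∈ A → ∃ P : Set V, P ⊆ A ∧ GConn G P ∧ τ k ∈ P ∧
      ∃ k' ∈ Λ, τ k' ∈ P ∧ ∀ l ∈ Λ, l ≠ k' → τ l ∉ P := by
    intro k hk hkA
    refine ⟨{τ k}, by simpa using hkA, sp_conn_singleton G _, rfl, k, hk, rfl, ?_⟩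
    intro l hl hlk h
    exact hlk (hinj l hl k hk h)
  induction hl using Relation.ReflTransGen.head_induction_on with
  | refl => exact base k0 hk0 hk0A
  | head h1 _ ih =>
    rename_i a c _
    by_cases ha : ∃ k ∈ Λ, τ k = a
    · obtain ⟨k, hk, rfl⟩ := ha
      exact base k hk h1.1
    · obtain ⟨P, hPA, hPc, hcP, k, hk, hkP, hP⟩ := ih
      refine ⟨{a} ∪ P, union_subset (by simpa using h1.1) hPA,
        (sp_conn_singleton G a).union hPc (x := a) (y := c) rfl hcP (Or.inl h1.2.2),
        Or.inl rfl, k, hk, Or.inr hkP, ?_⟩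
      intro l hl hlk h
      rcases h with h | h
      · exact ha ⟨l, hl, h⟩
      · exact hP l hl hlk h

/-- the first exit into `P` of a walk in `A` -/
private theorem sp_exit {G : SimpleGraph V} {A P : Set V} {w : V} (hw : w ∈ P) {a : V}
    (h : GLink G A a w) (haA : a ∈ A) (haP : a ∉ P) :
    ∃ y x, GLink G (A \ P) a y ∧ x ∈ P ∧ G.Adj x y := by
  induction h using Relation.ReflTransGen.head_induction_on with
  | refl => exact absurd hw haP
  | head h1 _ ih =>
    rename_i a c _
    by_cases hc : c ∈ P
    · exact ⟨a, c, Relation.ReflTransGen.refl, hc, h1.2.2.symm⟩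
    · obtain ⟨y, x, hy, hx, hyx⟩ := ih h1.2.1 hc
      exact ⟨y, x, Relation.ReflTransGen.head ⟨⟨haA, haP⟩, ⟨h1.2.1, hc⟩, h1.2.2⟩ hy, hx, hyx⟩

private theorem sp_class_conn {G : SimpleGraph V} {B : Set V} {a : V} :
    GConn G {z | GLink G B a z} := by
  have key : ∀ x, GLink G B a x → GLink G {z | GLink G B a z} a x := by
    intro x hx
    induction hx with
    | refl => exact Relation.ReflTransGen.refl
    | tail h1 h2 ih => exact Relation.ReflTransGen.tail ih ⟨h1, h1.tail h2, h2.2.2⟩
  exact ⟨⟨a, Relation.ReflTransGen.refl⟩, fun x hx y hy =>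
    Relation.ReflTransGen.trans (key x hx).symm (key y hy)⟩

/-- the bound -/
private def spF (q : ℕ) : ℕ → ℕ
  | 0 => 0
  | p + 1 => q * spF q p + 1

private theorem anchored (q p : ℕ) : ∀ {V : Type} (G : SimpleGraph V) (A : Set V)
    (τ : ℕ → V) (Λ : Finset ℕ) (w : V), w ∈ A → GConn G A → (∀ k ∈ Λ, τ k ∈ A) →
    (∀ k ∈ Λ, ∀ l ∈ Λ, τ k = τ l → k = l) → spF q p ≤ Λ.card →
    (∃ Λ' ⊆ Λ, Λ'.card = q ∧ StarOn G A τ Λ') ∨
    ∃ l : List ℕ, l.Nodup ∧ l.length = p ∧ (∀ k ∈ l, k ∈ Λ) ∧ ∃ L : ℕ → Set V,
      (∀ k ∈ l, GConn G (L k) ∧ L k ⊆ A ∧ τ k ∈ L k) ∧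
      (∀ k ∈ l, ∀ k' ∈ l, k ≠ k' → Disjoint (L k) (L k')) ∧
      l.IsChain (fun k k' => ∃ x ∈ L k, ∃ y ∈ L k', G.Adj x y) ∧ ∀ k ∈ l.head?, w ∈ L k := by
  classical
  induction p with
  | zero =>
    intro V G A τ Λ w hw hA hτ hinj hF
    refine Or.inr ⟨[], List.nodup_nil, rfl, by simp, fun _ => ∅, by simp, by simp, ?_, by simp⟩
    exact List.IsChain.nil
  | succ p ih =>
    intro V G A τ Λ w hw hA hτ hinj hF
    have hne : Λ.Nonempty := by
      rw [← Finset.card_pos]
      have : spF q (p + 1) = q * spF q p + 1 := rfl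
      omega
    obtain ⟨k0, hk0⟩ := hne
    obtain ⟨P, hPA, hPc, hwP, k, hk, hkP, hP⟩ :=
      exists_one hinj hk0 (hτ k0 hk0) (hA.2 w hw (τ k0) (hτ k0 hk0))
    set Z : ℕ → Set V := fun i => {x | GLink G (A \ P) (τ i) x} with hZ
    have hτm : ∀ i ∈ Λ.erase k, τ i ∈ A \ P := by
      intro i hi
      rw [Finset.mem_erase] at hi
      exact ⟨hτ i hi.2, hP i hi.2 hi.1⟩
    have hZA : ∀ i ∈ Λ.erase k, Z i ⊆ A \ P := by
      intro i hi x hx
      exact sp_link_mem hx (hτm i hi)
    have hZself : ∀ i, τ i ∈ Z i := fun i => Relation.ReflTransGen.refl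
    have hZconn : ∀ i, GConn G (Z i) := fun i => sp_class_conn
    have hZadj : ∀ i ∈ Λ.erase k, ∃ x ∈ P, ∃ y ∈ Z i, G.Adj x y := by
      intro i hi
      obtain ⟨y, x, hy, hx, hxy⟩ := sp_exit hwP (hA.2 (τ i) (hτm i hi).1 w hw) (hτm i hi).1
        (hτm i hi).2
      exact ⟨x, hx, y, hy, hxy⟩
    have hZdisj : ∀ i j, Z i ≠ Z j → Disjoint (Z i) (Z j) := by
      intro i j hij
      rw [Set.disjoint_left]
      intro x hxi hxj
      apply hij
      have h1 : GLink G (A \ P) (τ i) (τ j) := Relation.ReflTransGen.trans hxi (GLink.symm hxj)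
      ext z
      exact ⟨fun h => Relation.ReflTransGen.trans h1.symm h,
        fun h => Relation.ReflTransGen.trans h1 h⟩
    by_cases hq : q ≤ ((Λ.erase k).image Z).card
    · -- star
      left
      obtain ⟨T, hTsub, hTcard⟩ := Finset.exists_subset_card_eq hq
      have hrep : ∀ S ∈ T, ∃ i ∈ Λ.erase k, Z i = S := by
        intro S hS
        have := hTsub hS
        rw [Finset.mem_image] at this
        exact this
      choose! rep hrep1 hrep2 using hrep
      refine ⟨T.image rep, ?_, ?_, P, Z, hPc, hPA, ?_, ?_⟩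
      · intro i hi
        rw [Finset.mem_image] at hi
        obtain ⟨S, hS, rfl⟩ := hi
        exact Finset.mem_of_mem_erase (hrep1 S hS)
      · rw [Finset.card_image_of_injOn, hTcard]
        intro S hS S' hS' h
        rw [← hrep2 S hS, ← hrep2 S' hS']
        exact congrArg Z h
      · intro i hi
        rw [Finset.mem_image] at hi
        obtain ⟨S, hS, rfl⟩ := hi
        have h1 := hrep1 S hS
        refine ⟨hZconn _, fun x hx => (hZA _ h1 hx).1, hZself _, ?_, hZadj _ h1⟩
        rw [Set.disjoint_left]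
        intro x hx hx'
        exact (hZA _ h1 hx').2 hx
      · intro i hi j hj hij
        rw [Finset.mem_image] at hi hj
        obtain ⟨S, hS, rfl⟩ := hi
        obtain ⟨S', hS', rfl⟩ := hj
        apply hZdisj
        rw [hrep2 S hS, hrep2 S' hS']
        rintro rfl
        exact hij rfl
    · push Not at hq
      have hFs : spF q (p + 1) = q * spF q p + 1 := rfl
      have hcard : (Λ.erase k).card + 1 = Λ.card := Finset.card_erase_add_one hk
      rcases Nat.eq_zero_or_pos p with hp | hp
      · subst hp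
        right
        refine ⟨[k], List.nodup_singleton k, rfl, by simpa using hk, fun _ => P, ?_, ?_, ?_, ?_⟩
        · intro k' hk'
          rw [List.mem_singleton] at hk'
          subst hk'
          exact ⟨hPc, hPA, hkP⟩
        · intro i hi j hj hij
          rw [List.mem_singleton] at hi hj
          exact absurd (hi.trans hj.symm) hij
        · exact List.IsChain.singleton k
        · intro _ _
          exact hwP
      · obtain ⟨p', rfl⟩ : ∃ p', p = p' + 1 := ⟨p - 1, by omega⟩
        have hpos : 0 < spF q (p' + 1) := Nat.succ_pos _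
        have hqpos : 0 < q := by omega
        have hmulpos : 0 < q * spF q (p' + 1) := Nat.mul_pos hqpos hpos
        have hne' : (Λ.erase k).Nonempty := by
          rw [← Finset.card_pos]; omega
        have hle : ((Λ.erase k).image Z).card * spF q (p' + 1) ≤ (Λ.erase k).card := by
          calc ((Λ.erase k).image Z).card * spF q (p' + 1) ≤ q * spF q (p' + 1) :=
                Nat.mul_le_mul_right _ hq.le
            _ ≤ (Λ.erase k).card := by omega
        obtain ⟨S, hS, hSc⟩ := Finset.exists_le_card_fiber_of_mul_le_card_of_maps_to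
          (f := Z) (fun a ha => Finset.mem_image_of_mem Z ha) (hne'.image Z) hle
        rw [Finset.mem_image] at hS
        obtain ⟨i0, hi0, rfl⟩ := hS
        obtain ⟨x0, hx0, y0, hy0, hxy0⟩ := hZadj i0 hi0
        set Λ1 := (Λ.erase k).filter (fun x => Z x = Z i0) with hΛ1
        have hΛ1m : ∀ i ∈ Λ1, i ∈ Λ.erase k ∧ Z i = Z i0 := by
          intro i hi
          rw [hΛ1, Finset.mem_filter] at hi
          exact hi
        have hΛ1Λ : ∀ i ∈ Λ1, i ∈ Λ := fun i hi => Finset.mem_of_mem_erase (hΛ1m i hi).1
        have hτ1 : ∀ i ∈ Λ1, τ i ∈ Z i0 := by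
          intro i hi
          rw [← (hΛ1m i hi).2]
          exact hZself i
        have hZ0A : Z i0 ⊆ A := fun x hx => (hZA i0 hi0 hx).1
        rcases ih G (Z i0) τ Λ1 y0 hy0 (hZconn i0) hτ1
          (fun a ha b hb => hinj a (hΛ1Λ a ha) b (hΛ1Λ b hb)) hSc with
          ⟨Λ', hΛ', hc', C, L, hC1, hC2, hL, hLd⟩ | ⟨l, hl1, hl2, hl3, L, hL1, hL2, hL3, hL4⟩
        · left
          refine ⟨Λ', fun i hi => hΛ1Λ i (hΛ' hi), hc', C, L, hC1, hC2.trans hZ0A, ?_, hLd⟩
          intro i hi
          obtain ⟨h1, h2, h3, h4, h5⟩ := hL i hi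
          exact ⟨h1, h2.trans hZ0A, h3, h4, h5⟩
        · right
          have hkl : k ∉ l := by
            intro h
            have := (hΛ1m k (hl3 k h)).1
            exact (Finset.notMem_erase k Λ) this
          have hLk : ∀ i ∈ l, Function.update L k P i = L i := by
            intro i hi
            rw [Function.update_of_ne]
            rintro rfl
            exact hkl hi
          refine ⟨k :: l, List.nodup_cons.2 ⟨hkl, hl1⟩, by simp [hl2], ?_,
            Function.update L k P, ?_, ?_, ?_, ?_⟩
          · intro i hi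
            rcases List.mem_cons.1 hi with rfl | hi
            · exact hk
            · exact hΛ1Λ i (hl3 i hi)
          · intro i hi
            rcases List.mem_cons.1 hi with rfl | hi
            · rw [Function.update_self]
              exact ⟨hPc, hPA, hkP⟩
            · rw [hLk i hi]
              exact ⟨(hL1 i hi).1, (hL1 i hi).2.1.trans hZ0A, (hL1 i hi).2.2⟩
          · have hPL : ∀ i ∈ l, Disjoint P (L i) := by
              intro i hi
              rw [Set.disjoint_left]
              intro x hx hx'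
              exact (hZA i0 hi0 ((hL1 i hi).2.1 hx')).2 hx
            intro i hi j hj hij
            rcases List.mem_cons.1 hi with hi' | hi'
            · rcases List.mem_cons.1 hj with hj' | hj'
              · exact absurd (hi'.trans hj'.symm) hij
              · rw [hi', Function.update_self, hLk j hj']
                exact hPL j hj'
            · rcases List.mem_cons.1 hj with hj' | hj'
              · rw [hj', Function.update_self, hLk i hi']
                exact (hPL i hi').symm
              · rw [hLk i hi', hLk j hj']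
                exact hL2 i hi' j hj' hij
          · rw [List.isChain_cons]
            refine ⟨?_, ?_⟩
            · intro j hj
              have hj' : j ∈ l := List.mem_of_mem_head? hj
              rw [Function.update_self, hLk j hj']
              exact ⟨x0, hx0, y0, hL4 j hj, hxy0⟩
            · refine List.IsChain.imp_of_mem_imp ?_ hL3
              intro a b ha hb hab
              rw [hLk a ha, hLk b hb]
              exact hab
          · intro j hj
            rw [List.head?_cons, Option.mem_def, Option.some.injEq] at hj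
            subst hj
            rw [Function.update_self]
            exact hwP

theorem star_or_path (q p : ℕ) : ∃ F : ℕ, ∀ {V : Type} (G : SimpleGraph V) (A : Set V)
    (τ : ℕ → V) (Λ : Finset ℕ), GConn G A → (∀ k ∈ Λ, τ k ∈ A) →
    (∀ k ∈ Λ, ∀ l ∈ Λ, τ k = τ l → k = l) → F ≤ Λ.card →
    (∃ Λ' ⊆ Λ, Λ'.card = q ∧ StarOn G A τ Λ') ∨
    ∃ l : List ℕ, l.Nodup ∧ l.length = p ∧ (∀ k ∈ l, k ∈ Λ) ∧ PathOn G A τ l := by
  refine ⟨spF q p, ?_⟩
  intro V G A τ Λ hA hτ hinj hF
  obtain ⟨w, hw⟩ := hA.1
  rcases anchored q p G A τ Λ w hw hA hτ hinj hF with h | ⟨l, h1, h2, h3, L, h4, h5, h6, _⟩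
  · exact Or.inl h
  · exact Or.inr ⟨l, h1, h2, h3, L, h4, h5, h6⟩

end AG35
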